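import Mathlib

/-!
The field `k = ℚ(ω)`.
-/

set_option autoImplicit false
set_option linter.unusedSectionVars false

namespace Pool.Agent.K7.H55.W

open Polynomial

variable {k : Type} [Field k] [NumberField k] [IsCyclotomicExtension {3} ℚ k]
  {ω : k} (hω : IsPrimitiveRoot ω 3)

include hω

theorem ω_rel : ω ^ 2 + ω + 1 = 0 := by
  have h3 : ω ^ 3 = 1 := hω.pow_eq_one
  have h1 : ω ≠ 1 := hω.ne_one (by norm_num)
  have h : (ω - 1) * (ω ^ 2 + ω + 1) = 0 := by linear_combination h3
  rcases mul_eq_zero.mp h with h | h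
  · exact absurd (sub_eq_zero.mp h) h1
  · exact h

omit hω in
variable (k) in
theorem finrank_k : Module.finrank ℚ k = 2 := by
  rw [IsCyclotomicExtension.finrank (n := 3) k (cyclotomic.irreducible_rat (by norm_num))]
  decide

/-- coordinates in `k` -/
theorem exists_coord (x : k) : ∃ a b : ℚ, x = (a : k) + (b : k) * ω := by
  let pb := hω.powerBasis ℚ
  have hdim : pb.dim = 2 := by
    rw [← pb.finrank, finrank_k k]
  obtain ⟨f, hf⟩ := pb.exists_eq_aeval x
  have hgen : pb.gen = ω := hω.powerBasis_gen ℚ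
  rw [hgen] at hf
  rw [hdim] at hf
  obtain ⟨hdeg, hx⟩ := hf
  have hlt : f.natDegree < 2 := hdeg
  refine ⟨f.coeff 0, f.coeff 1, ?_⟩
  rw [hx, aeval_eq_sum_range' hlt]
  simp [Finset.sum_range_succ, Algebra.smul_def]

theorem coord_unique {a b : ℚ} (h : (a : k) + (b : k) * ω = 0) :
    a = 0 ∧ b = 0 := by
  by_cases hb : b = 0
  · subst hb
    simp only [Rat.cast_zero, zero_mul, add_zero] at h
    exact ⟨by exact_mod_cast h, rfl⟩
  · exfalso
    have h2 : ω = ((-a / b : ℚ) : k) := by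
      have hb' : (b : k) ≠ 0 := by exact_mod_cast hb
      push_cast
      field_simp
      linear_combination h
    have h3 := ω_rel hω
    rw [h2] at h3
    set q : ℚ := -a / b
    have h4 : q ^ 2 + q + 1 = 0 := by
      exact_mod_cast h3
    nlinarith [sq_nonneg (2 * q + 1)]

theorem ω_ne : ω ≠ 0 := hω.ne_zero (by norm_num)

/-- complex conjugation on `k` -/
theorem exists_conj : ∃ c : k →ₐ[ℚ] k, c ω = ω ^ 2 := by
  have hroot : aeval (ω ^ 2) (minpoly ℚ (hω.powerBasis ℚ).gen) = 0 := by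
    rw [hω.powerBasis_gen ℚ]
    have hm : minpoly ℚ ω = cyclotomic 3 ℚ :=
      (cyclotomic_eq_minpoly_rat hω (by norm_num)).symm
    rw [hm, cyclotomic_three]
    simp only [map_add, map_pow, aeval_X, map_one]
    have h3 : ω ^ 3 = 1 := hω.pow_eq_one
    have hr := ω_rel hω
    linear_combination hr + ω * h3
  refine ⟨(hω.powerBasis ℚ).lift (ω ^ 2) hroot, ?_⟩
  have := (hω.powerBasis ℚ).lift_gen (ω ^ 2) hroot
  rwa [hω.powerBasis_gen ℚ] at this

theorem conj_fixed {c : k →ₐ[ℚ] k} (hc : c ω = ω ^ 2) {x : k} (hx : c x = x) :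
    ∃ a : ℚ, x = (a : k) := by
  obtain ⟨a, b, rfl⟩ := exists_coord hω x
  rw [map_add, map_mul, map_ratCast, map_ratCast, hc] at hx
  have h := ω_rel hω
  have h2 : ((-b : ℚ) : k) + ((-2 * b : ℚ) : k) * ω = 0 := by
    push_cast
    linear_combination hx - (b : k) * h
  have h3 := (coord_unique hω h2).1
  have h4 : b = 0 := by linarith
  subst h4
  exact ⟨a, by simp⟩

theorem conj_conj {c : k →ₐ[ℚ] k} (hc : c ω = ω ^ 2) (x : k) : c (c x) = x := by
  obtain ⟨a, b, rfl⟩ := exists_coord hω x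
  have h3 : ω ^ 3 = 1 := hω.pow_eq_one
  simp only [map_add, map_mul, map_ratCast, hc, map_pow]
  linear_combination (b : k) * ω * h3

/-- `x` times its conjugate is rational -/
theorem mul_conj {c : k →ₐ[ℚ] k} (hc : c ω = ω ^ 2) (x : k) :
    ∃ a : ℚ, x * c x = (a : k) := by
  apply conj_fixed hω hc
  rw [map_mul, conj_conj hω hc, mul_comm]

omit hω in
/-- a rational prime is not a cube in `k` -/
theorem prime_ne_cube {p : ℕ} (hp : p.Prime) (b : k) : b ^ 3 ≠ (p : k) := by
  intro h
  have h2 := congrArg (Algebra.norm ℚ) h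
  rw [map_pow] at h2
  have h3 : (p : k) = algebraMap ℚ k (p : ℚ) := by simp
  rw [h3, Algebra.norm_algebraMap, finrank_k k] at h2
  set q := Algebra.norm ℚ b
  have hq : q ≠ 0 := by
    rintro h0
    rw [h0] at h2
    have : (p : ℚ) ≠ 0 := by exact_mod_cast hp.ne_zero
    have : (p : ℚ) ^ 2 ≠ 0 := pow_ne_zero _ this
    apply this
    rw [← h2]
    norm_num
  have := Fact.mk hp
  have h4 := congrArg (padicValRat p) h2
  rw [padicValRat.pow, padicValRat.pow] at h4
  rw [padicValRat.of_nat, padicValNat_self] at h4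
  push_cast at h4
  omega

end Pool.Agent.K7.H55.W
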