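import Mathlib
import Pool.Agent.K7.H55.W.Fields

/-!
The cyclic cubic extension `L = k(θ)`, `θ ^ 3 = p`, of `k = ℚ(ω)`.
-/

set_option autoImplicit false
set_option linter.unusedSectionVars false

namespace Pool.Agent.K7.H55.W

/-- the data: `k = ℚ(ω)`, `L = k(θ)`, `σ` the generator of the Galois group, `c` and `τ` the complex
conjugations -/
structure Data (k L : Type) [Field k] [NumberField k] [Field L] [Algebra k L] (p : ℕ) (ω : k) (θ : L)
    (c : k →ₐ[ℚ] k) (σ τ : L →+* L) : Prop where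
  hω : IsPrimitiveRoot ω 3
  θ3 : θ ^ 3 = (p : L)
  coord : ∀ x : L, ∃ a b d : k,
    x = algebraMap k L a + algebraMap k L b * θ + algebraMap k L d * θ ^ 2
  uniq : ∀ a b d : k, algebraMap k L a + algebraMap k L b * θ + algebraMap k L d * θ ^ 2 = 0 →
    a = 0 ∧ b = 0 ∧ d = 0
  σk : ∀ a : k, σ (algebraMap k L a) = algebraMap k L a
  σθ : σ θ = algebraMap k L ω * θ
  cω : c ω = ω ^ 2
  τk : ∀ a, τ (algebraMap k L a) = algebraMap k L (c a)
  τθ : τ θ = θ

namespace Data

variable {k L : Type} [Field k] [NumberField k] [IsCyclotomicExtension {3} ℚ k]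
  [Field L] [Algebra k L] {p : ℕ} {ω : k} {θ : L} {c : k →ₐ[ℚ] k} {σ τ : L →+* L}
  (D : Data k L p ω θ c σ τ)

/-- the norm form -/
def nf (p : ℕ) {F : Type*} [Field F] (a b d : F) : F :=
  a ^ 3 + p * b ^ 3 + p ^ 2 * d ^ 3 - 3 * p * a * b * d

include D

theorem W_rel : (algebraMap k L ω) ^ 2 + algebraMap k L ω + 1 = 0 := by
  rw [← map_pow, ← map_add, ← map_one (algebraMap k L), ← map_add, ω_rel D.hω, map_zero]

theorem W3 : (algebraMap k L ω) ^ 3 = 1 := by
  rw [← map_pow, D.hω.pow_eq_one, map_one]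

theorem mul_three (a b d : k) :
    (algebraMap k L a + algebraMap k L b * θ + algebraMap k L d * θ ^ 2) *
    (algebraMap k L a + algebraMap k L b * (algebraMap k L ω * θ) +
      algebraMap k L d * (algebraMap k L ω * θ) ^ 2) *
    (algebraMap k L a + algebraMap k L b * (algebraMap k L ω * (algebraMap k L ω * θ)) +
      algebraMap k L d * (algebraMap k L ω * (algebraMap k L ω * θ)) ^ 2) =
    algebraMap k L (nf p a b d) := by
  have hr := D.W_rel
  have h3 := D.θ3
  have hw3 := D.W3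
  simp only [nf, map_add, map_sub, map_mul, map_pow, map_natCast, map_ofNat]
  set A := algebraMap k L a
  set B := algebraMap k L b
  set E := algebraMap k L d
  set W := algebraMap k L ω
  have hW2 : W ^ 2 = -1 - W := by linear_combination hr
  have hW4 : W ^ 4 = W := by linear_combination W * hw3
  have key : (A + B * θ + E * θ ^ 2) * (A + B * (W * θ) + E * (W * θ) ^ 2) *
      (A + B * (W * (W * θ)) + E * (W * (W * θ)) ^ 2) =
      A ^ 3 + θ ^ 3 * B ^ 3 + (θ ^ 3) ^ 2 * E ^ 3 - 3 * θ ^ 3 * A * B * E := by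
    have e1 : (A + B * (W * θ) + E * (W * θ) ^ 2) = A + W * (B * θ) + (-1 - W) * (E * θ ^ 2) := by
      rw [← hW2]; ring
    have e2 : (A + B * (W * (W * θ)) + E * (W * (W * θ)) ^ 2) =
        A + (-1 - W) * (B * θ) + W * (E * θ ^ 2) := by
      rw [← hW2]
      linear_combination (E * θ ^ 2) * hW4
    rw [e1, e2]
    linear_combination
      (-(A + B * θ + E * θ ^ 2) * ((B * θ) ^ 2 + (E * θ ^ 2) ^ 2 - 2 * (B * θ) * (E * θ ^ 2))) * hr
  rw [key, h3]

theorem σ_apply (a b d : k) :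
    σ (algebraMap k L a + algebraMap k L b * θ + algebraMap k L d * θ ^ 2) =
      algebraMap k L a + algebraMap k L b * (algebraMap k L ω * θ) +
      algebraMap k L d * (algebraMap k L ω * θ) ^ 2 := by
  simp only [map_add, map_mul, map_pow, D.σk, D.σθ]

theorem σσ_apply (a b d : k) :
    σ (σ (algebraMap k L a + algebraMap k L b * θ + algebraMap k L d * θ ^ 2)) =
      algebraMap k L a + algebraMap k L b * (algebraMap k L ω * (algebraMap k L ω * θ)) +
      algebraMap k L d * (algebraMap k L ω * (algebraMap k L ω * θ)) ^ 2 := by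
  rw [D.σ_apply]
  simp only [map_add, map_mul, map_pow, D.σk, D.σθ]

theorem σσσ (x : L) : σ (σ (σ x)) = x := by
  obtain ⟨a, b, d, rfl⟩ := D.coord x
  rw [D.σσ_apply]
  simp only [map_add, map_mul, map_pow, D.σk, D.σθ]
  have hw3 := D.W3
  set W := algebraMap k L ω
  linear_combination (algebraMap k L b * θ + algebraMap k L d * θ ^ 2 * (W ^ 3 + 1)) * hw3

theorem σ_fixed {x : L} (hx : σ x = x) : ∃ a : k, x = algebraMap k L a := by
  obtain ⟨a, b, d, rfl⟩ := D.coord x
  rw [D.σ_apply] at hx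
  have h1 : algebraMap k L 0 + algebraMap k L (b * (ω - 1)) * θ +
      algebraMap k L (d * (ω ^ 2 - 1)) * θ ^ 2 = 0 := by
    simp only [map_sub, map_mul, map_pow, map_one, map_zero]
    linear_combination hx
  obtain ⟨-, h2, h3⟩ := D.uniq _ _ _ h1
  have hω1 : ω - 1 ≠ 0 := sub_ne_zero.mpr (D.hω.ne_one (by norm_num))
  have hω2 : ω ^ 2 - 1 ≠ 0 := by
    intro h
    have hr := ω_rel D.hω
    have h4 : ω = -2 := by linear_combination hr - h
    rw [h4] at hr
    norm_num at hr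
  have hb : b = 0 := (mul_eq_zero.mp h2).resolve_right hω1
  have hd : d = 0 := (mul_eq_zero.mp h3).resolve_right hω2
  subst hb hd
  exact ⟨a, by simp⟩

/-- the norm -/
theorem norm_eq (x : L) : ∃ a b d : k,
    x = algebraMap k L a + algebraMap k L b * θ + algebraMap k L d * θ ^ 2 ∧
    x * σ x * σ (σ x) = algebraMap k L (nf p a b d) := by
  obtain ⟨a, b, d, rfl⟩ := D.coord x
  refine ⟨a, b, d, rfl, ?_⟩
  rw [D.σσ_apply, D.σ_apply, D.mul_three]

theorem τ_apply (a b d : k) :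
    τ (algebraMap k L a + algebraMap k L b * θ + algebraMap k L d * θ ^ 2) =
      algebraMap k L (c a) + algebraMap k L (c b) * θ + algebraMap k L (c d) * θ ^ 2 := by
  simp only [map_add, map_mul, map_pow, D.τk, D.τθ]

theorem ττ (x : L) : τ (τ x) = x := by
  obtain ⟨a, b, d, rfl⟩ := D.coord x
  rw [D.τ_apply, D.τ_apply]
  simp only [conj_conj D.hω D.cω]

theorem τσ (x : L) : τ (σ x) = σ (σ (τ x)) := by
  obtain ⟨a, b, d, rfl⟩ := D.coord x
  rw [D.τ_apply, D.σσ_apply, D.σ_apply]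
  simp only [map_add, map_mul, map_pow, D.τk, D.τθ, D.cω]
  ring

/-- the elements fixed by `τ` have rational coordinates -/
theorem τ_fixed {x : L} (hx : τ x = x) : ∃ a b d : ℚ,
    x = (a : L) + (b : L) * θ + (d : L) * θ ^ 2 := by
  obtain ⟨a, b, d, rfl⟩ := D.coord x
  rw [D.τ_apply] at hx
  have h1 : algebraMap k L (c a - a) + algebraMap k L (c b - b) * θ +
      algebraMap k L (c d - d) * θ ^ 2 = 0 := by
    simp only [map_sub]
    linear_combination hx
  obtain ⟨h2, h3, h4⟩ := D.uniq _ _ _ h1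
  obtain ⟨a', ha⟩ := conj_fixed D.hω D.cω (sub_eq_zero.mp h2)
  obtain ⟨b', hb⟩ := conj_fixed D.hω D.cω (sub_eq_zero.mp h3)
  obtain ⟨d', hd⟩ := conj_fixed D.hω D.cω (sub_eq_zero.mp h4)
  refine ⟨a', b', d', ?_⟩
  rw [ha, hb, hd]
  simp only [map_ratCast]

/-- Hilbert 90 -/
theorem hilbert90 {v : L} (hv : v * σ v * σ (σ v) = 1) : ∃ z : L, z ≠ 0 ∧ σ z = v * z := by
  have hv0 : v ≠ 0 := by
    rintro rfl
    simp at hv
  have hv1 : σ v ≠ 0 := by
    intro h
    rw [h] at hv
    simp at hv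
  have hv2 : σ (σ v) ≠ 0 := by
    intro h
    rw [h] at hv
    simp at hv
  have hθ0 : θ ≠ 0 := by
    intro h
    have := D.uniq 0 1 0
    simp [h] at this
  have key : ∀ t : L, σ (t + v⁻¹ * σ t + v⁻¹ * (σ v)⁻¹ * σ (σ t)) =
      v * (t + v⁻¹ * σ t + v⁻¹ * (σ v)⁻¹ * σ (σ t)) := by
    intro t
    simp only [map_add, map_mul, map_inv₀, D.σσσ]
    have h2 : (σ v)⁻¹ * (σ (σ v))⁻¹ = v := by
      field_simp
      linear_combination -hv
    rw [h2]
    field_simp
    ring
  by_contra hcon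
  push Not at hcon
  have h0 : ∀ t : L, t + v⁻¹ * σ t + v⁻¹ * (σ v)⁻¹ * σ (σ t) = 0 := by
    intro t
    by_contra hne
    exact hcon _ hne (key t)
  have e1 := h0 1
  have e2 := h0 θ
  have e3 := h0 (θ ^ 2)
  simp only [map_one, map_pow, D.σθ, map_mul, D.σk] at e1 e2 e3
  have hr := D.W_rel
  set W := algebraMap k L ω
  set c1 := v⁻¹
  set c2 := v⁻¹ * (σ v)⁻¹
  have e2' : 1 + c1 * W + c2 * W ^ 2 = 0 := by
    have : θ * (1 + c1 * W + c2 * W ^ 2) = 0 := by linear_combination e2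
    exact (mul_eq_zero.mp this).resolve_left hθ0
  have e3' : 1 + c1 * W ^ 2 + c2 * W ^ 4 = 0 := by
    have : θ ^ 2 * (1 + c1 * W ^ 2 + c2 * W ^ 4) = 0 := by linear_combination e3
    exact (mul_eq_zero.mp this).resolve_left (pow_ne_zero _ hθ0)
  have h3 : (3 : L) = 0 := by
    linear_combination e1 + e2' + e3' - (c1 + c2 * (W ^ 2 - W + 1)) * hr
  have : algebraMap k L 3 = 0 := by rw [map_ofNat]; exact h3
  rw [map_eq_zero] at this
  norm_num at this

end Data

end Pool.Agent.K7.H55.W
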