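import Mathlib
import Pool.Agent.K7.H55.W.Cubic

/-!
The concrete fields.
-/

set_option autoImplicit false
set_option linter.unusedSectionVars false

namespace Pool.Agent.K7.H55.W

open NumberField Polynomial

theorem exists_k : ∃ (k : Type) (_ : Field k) (_ : NumberField k),
    IsCyclotomicExtension {3} ℚ k := by
  refine ⟨CyclotomicField 3 ℚ, inferInstance, inferInstance, ?_⟩
  have h := CyclotomicField.isCyclotomicExtension 3 ℚ
  have e : (DivisionRing.toRatAlgebra : Algebra ℚ (CyclotomicField 3 ℚ)) =
      CyclotomicField.algebra 3 ℚ := Subsingleton.elim _ _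
  rw [e]
  exact h

theorem exists_L {k : Type} [Field k] [NumberField k] [IsCyclotomicExtension {3} ℚ k]
    {ω : k} (hω : IsPrimitiveRoot ω 3) {c : k →ₐ[ℚ] k} (cω : c ω = ω ^ 2) {p : ℕ} (hp : p.Prime) :
    ∃ (L : Type) (_ : Field L) (_ : NumberField L) (_ : Algebra k L) (θ : L) (σ τ : L →+* L),
      Data k L p ω θ c σ τ ∧ Algebra.adjoin k {θ} = ⊤ := by
  set f : k[X] := X ^ 3 - C (p : k) with hf
  have hirr : Irreducible f := X_pow_sub_C_irreducible_of_prime Nat.prime_three (prime_ne_cube hp)
  have : Fact (Irreducible f) := ⟨hirr⟩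
  have hf0 : f ≠ 0 := hirr.ne_zero
  have hdeg : f.natDegree = 3 := natDegree_X_pow_sub_C
  have hmon : f.Monic := monic_X_pow_sub_C _ (by norm_num)
  have hfin : Module.Finite k (AdjoinRoot f) := hmon.finite_adjoinRoot
  have hch : CharZero (AdjoinRoot f) := charZero_of_injective_algebraMap (algebraMap k (AdjoinRoot f)).injective
  have hNF : NumberField (AdjoinRoot f) := by
    have : IsScalarTower ℚ k (AdjoinRoot f) := inferInstance
    have := Module.Finite.trans (R := ℚ) k (AdjoinRoot f)
    exact ⟨⟩
  have hroot : (AdjoinRoot.root f) ^ 3 = (p : AdjoinRoot f) := by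
    have := AdjoinRoot.eval₂_root f
    simp only [hf, eval₂_sub, eval₂_pow, eval₂_X, map_natCast, eval₂_natCast] at this
    exact sub_eq_zero.mp this
  set θ := AdjoinRoot.root f with hθ
  have hσ : eval₂ (algebraMap k (AdjoinRoot f)) (algebraMap k (AdjoinRoot f) ω * θ) f = 0 := by
    simp only [hf, eval₂_sub, eval₂_pow, eval₂_X, map_natCast, eval₂_natCast]
    rw [mul_pow, hroot, ← map_pow, hω.pow_eq_one, map_one, one_mul, sub_self]
  have hτ : eval₂ ((algebraMap k (AdjoinRoot f)).comp (c : k →+* k)) θ f = 0 := by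
    simp only [hf, eval₂_sub, eval₂_pow, eval₂_X, map_natCast, eval₂_natCast]
    rw [hroot, sub_self]
  refine ⟨AdjoinRoot f, inferInstance, hNF, inferInstance, θ,
    AdjoinRoot.lift (algebraMap k (AdjoinRoot f)) (algebraMap k (AdjoinRoot f) ω * θ) hσ,
    AdjoinRoot.lift ((algebraMap k (AdjoinRoot f)).comp (c : k →+* k)) θ hτ, ?_, ?_⟩
  · refine ⟨hω, hroot, ?_, ?_, ?_, ?_, cω, ?_, ?_⟩
    · intro x
      obtain ⟨g, rfl⟩ := AdjoinRoot.mk_surjective x
      have h1 := modByMonic_add_div g f
      have h2 : AdjoinRoot.mk f g = AdjoinRoot.mk f (g %ₘ f) := by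
        conv_lhs => rw [← h1]
        rw [map_add, map_mul, AdjoinRoot.mk_self, zero_mul, add_zero]
      have hlt : (g %ₘ f).natDegree < 3 := by
        have := natDegree_modByMonic_lt g hmon (by
          intro h
          rw [h] at hdeg
          simp at hdeg)
        rwa [hdeg] at this
      refine ⟨(g %ₘ f).coeff 0, (g %ₘ f).coeff 1, (g %ₘ f).coeff 2, ?_⟩
      rw [h2]
      conv_lhs => rw [as_sum_range' _ 3 hlt]
      simp only [Finset.sum_range_succ, Finset.sum_range_zero, zero_add, ← C_mul_X_pow_eq_monomial,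
        map_add, map_mul, map_pow, AdjoinRoot.mk_X, AdjoinRoot.mk_C, pow_zero, pow_one, mul_one]
      rfl
    · intro a b d h
      have h1 : AdjoinRoot.mk f (C a + C b * X + C d * X ^ 2) = 0 := by
        simp only [map_add, map_mul, map_pow, AdjoinRoot.mk_X, AdjoinRoot.mk_C]
        exact h
      rw [AdjoinRoot.mk_eq_zero] at h1
      have h2 : C a + C b * X + C d * X ^ 2 = 0 := by
        apply eq_zero_of_dvd_of_natDegree_lt h1
        rw [hdeg]
        have : (C a + C b * X + C d * X ^ 2).natDegree ≤ 2 := by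
          compute_degree
        omega
      refine ⟨?_, ?_, ?_⟩
      · have := congrArg (fun q => coeff q 0) h2
        simpa using this
      · have := congrArg (fun q => coeff q 1) h2
        simpa [coeff_X] using this
      · have := congrArg (fun q => coeff q 2) h2
        simpa [coeff_X] using this
    · intro a
      exact AdjoinRoot.lift_of hσ
    · exact AdjoinRoot.lift_root hσ
    · intro a
      exact AdjoinRoot.lift_of hτ
    · exact AdjoinRoot.lift_root hτ
  · exact AdjoinRoot.adjoinRoot_eq_top

end Pool.Agent.K7.H55.W
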