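import Mathlib
import Pool.Agent.K7.H55.W.Fields

/-!
Valuations of `k = ℚ(ω)` and complex conjugation.
-/

set_option autoImplicit false
set_option linter.unusedSectionVars false

namespace Pool.Agent.K7.H55.W

open NumberField IsDedekindDomain WithZero

section equiv

variable {K : Type} [Field K] [NumberField K] (e : K ≃+* K)

/-- the image of a prime under an automorphism -/
noncomputable def cv (v : HeightOneSpectrum (𝓞 K)) : HeightOneSpectrum (𝓞 K) :=
  HeightOneSpectrum.comap (RingOfIntegers.mapRingEquiv e).toRingHom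
    (RingOfIntegers.mapRingEquiv e).surjective v

theorem mem_cv (v : HeightOneSpectrum (𝓞 K)) (x : 𝓞 K) :
    x ∈ (cv e v).asIdeal ↔ RingOfIntegers.mapRingEquiv e x ∈ v.asIdeal := Iff.rfl

theorem mem_cv_pow (v : HeightOneSpectrum (𝓞 K)) (x : 𝓞 K) (n : ℕ) :
    x ∈ (cv e v).asIdeal ^ n ↔ RingOfIntegers.mapRingEquiv e x ∈ v.asIdeal ^ n := by
  have h : (cv e v).asIdeal = v.asIdeal.map (RingOfIntegers.mapRingEquiv e).symm := by
    ext y
    rw [mem_cv]
    exact Ideal.symm_apply_mem_of_equiv_iff (f := (RingOfIntegers.mapRingEquiv e).symm)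
  rw [h, ← Ideal.map_pow]
  exact (Ideal.symm_apply_mem_of_equiv_iff (f := (RingOfIntegers.mapRingEquiv e).symm)).symm

theorem intVal_cv (v : HeightOneSpectrum (𝓞 K)) (x : 𝓞 K) :
    (cv e v).intValuation x = v.intValuation (RingOfIntegers.mapRingEquiv e x) := by
  rcases eq_or_ne x 0 with rfl | hx
  · simp
  have hex : RingOfIntegers.mapRingEquiv e x ≠ 0 := by
    rwa [Ne, map_eq_zero_iff _ (RingOfIntegers.mapRingEquiv e).injective]
  have key : ∀ n : ℕ, (cv e v).intValuation x ≤ exp (-(n : ℤ)) ↔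
      v.intValuation (RingOfIntegers.mapRingEquiv e x) ≤ exp (-(n : ℤ)) := by
    intro n
    rw [HeightOneSpectrum.intValuation_le_pow_iff_mem, HeightOneSpectrum.intValuation_le_pow_iff_mem]
    exact mem_cv_pow e v x n
  have h1 := HeightOneSpectrum.intValuation_eq_exp_neg_multiplicity (cv e v) hx
  have h2 := HeightOneSpectrum.intValuation_eq_exp_neg_multiplicity v hex
  apply le_antisymm
  · have := (key (multiplicity v.asIdeal (Ideal.span {RingOfIntegers.mapRingEquiv e x}))).mpr h2.le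
    rw [h2]
    exact this
  · have := (key (multiplicity (cv e v).asIdeal (Ideal.span {x}))).mp h1.le
    rw [h1]
    exact this

theorem val_cv (v : HeightOneSpectrum (𝓞 K)) (x : K) :
    (cv e v).valuation K x = v.valuation K (e x) := by
  obtain ⟨r, s, hs, rfl⟩ := IsFractionRing.div_surjective (A := 𝓞 K) x
  have h : ∀ r : 𝓞 K, (cv e v).valuation K (algebraMap (𝓞 K) K r) =
      v.valuation K (e (algebraMap (𝓞 K) K r)) := by
    intro r
    have h1 : (cv e v).valuation K (algebraMap (𝓞 K) K r) = (cv e v).intValuation r :=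
      HeightOneSpectrum.valuation_of_algebraMap _ _
    have h2 : e (algebraMap (𝓞 K) K r) = algebraMap (𝓞 K) K (RingOfIntegers.mapRingEquiv e r) := rfl
    have h3 : v.valuation K (algebraMap (𝓞 K) K (RingOfIntegers.mapRingEquiv e r)) =
        v.intValuation (RingOfIntegers.mapRingEquiv e r) :=
      HeightOneSpectrum.valuation_of_algebraMap _ _
    rw [h1, h2, h3, intVal_cv]
  rw [map_div₀, map_div₀, map_div₀, h, h]

end equiv

section k

variable {k : Type} [Field k] [NumberField k] [IsCyclotomicExtension {3} ℚ k]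
  {ω : k} (hω : IsPrimitiveRoot ω 3) {c : k →ₐ[ℚ] k} (hc : c ω = ω ^ 2)

/-- complex conjugation as an automorphism -/
noncomputable def ce : k ≃+* k :=
  RingEquiv.ofRingHom (c : k →+* k) (c : k →+* k) (by ext x; exact conj_conj hω hc x)
    (by ext x; exact conj_conj hω hc x)

theorem ce_apply (x : k) : ce hω hc x = c x := rfl

theorem cube_of_sq {g h : ℤᵐ⁰} (hg : g ≠ 0) (hh : g ^ 2 = h ^ 3) : ∃ a : ℤᵐ⁰, g = a ^ 3 := by
  refine ⟨g / h * 1, ?_⟩
  have hh0 : h ≠ 0 := by
    rintro rfl
    simp at hh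
    exact hg hh
  rw [mul_one, div_pow, ← hh]
  field_simp

include hω in
/-- over `3` there is one prime only -/
theorem unique_three {v w : HeightOneSpectrum (𝓞 k)} (hv : (3 : 𝓞 k) ∈ v.asIdeal)
    (hw : (3 : 𝓞 k) ∈ w.asIdeal) : v = w := by
  have hη : IsPrimitiveRoot ω 3 := hω
  set η : 𝓞 k := hω.toInteger with hηd
  have hr : η ^ 2 + η + 1 = 0 := by
    apply RingOfIntegers.ext
    simp only [map_add, map_pow, map_one, map_zero]
    exact ω_rel hω
  have h3 : (3 : 𝓞 k) = -η ^ 2 * (η - 1) ^ 2 := by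
    linear_combination (3 - 3 * η + η ^ 2) * hr
  have hprime : Prime (η - 1) := by
    have := Fact.mk Nat.prime_three
    exact hω.zeta_sub_one_prime'
  have hmax : (Ideal.span {η - 1}).IsMaximal := by
    have h1 : (Ideal.span {η - 1}).IsPrime := (Ideal.span_singleton_prime hprime.ne_zero).mpr hprime
    exact h1.isMaximal (by rw [Ne, Ideal.span_singleton_eq_bot]; exact hprime.ne_zero)
  have key : ∀ u : HeightOneSpectrum (𝓞 k), (3 : 𝓞 k) ∈ u.asIdeal →
      u.asIdeal = Ideal.span {η - 1} := by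
    intro u hu
    rw [h3] at hu
    have hp := u.isPrime
    have hη1 : IsUnit (-η ^ 2) := by
      have : η * (-η - 1) = 1 := by linear_combination -hr
      have hu2 : IsUnit η := IsUnit.of_mul_eq_one _ this
      exact (hu2.pow 2).neg
    have h4 : (η - 1) ^ 2 ∈ u.asIdeal := by
      rcases hp.mem_or_mem hu with h | h
      · exact absurd (Ideal.eq_top_of_isUnit_mem _ h hη1) hp.ne_top
      · exact h
    have h5 : η - 1 ∈ u.asIdeal := hp.mem_of_pow_mem 2 h4
    symm
    apply hmax.eq_of_le hp.ne_top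
    rw [Ideal.span_singleton_le_iff_mem]
    exact h5
  apply HeightOneSpectrum.ext
  rw [key v hv, key w hw]

/-- over `p` there is only a prime and its conjugate -/
theorem over_p {p : ℕ} (hp : p.Prime) {v w : HeightOneSpectrum (𝓞 k)}
    (hv : (p : 𝓞 k) ∈ v.asIdeal) (hw : (p : 𝓞 k) ∈ w.asIdeal) :
    w = v ∨ w = cv (ce hω hc) v := by
  have h1 : (w.asIdeal : Set (𝓞 k)) ⊆ (v.asIdeal : Set (𝓞 k)) ∪ ((cv (ce hω hc) v).asIdeal : Set (𝓞 k)) := by
    intro a ha
    have hmem : a * RingOfIntegers.mapRingEquiv (ce hω hc) a ∈ w.asIdeal :=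
      w.asIdeal.mul_mem_right _ ha
    obtain ⟨q, hq⟩ := mul_conj hω hc (a : k)
    have hqi : IsIntegral ℤ q := by
      have h2 : IsIntegral ℤ (algebraMap ℚ k q) := by
        have : algebraMap ℚ k q = ((a * RingOfIntegers.mapRingEquiv (ce hω hc) a : 𝓞 k) : k) := by
          simp only [eq_ratCast]
          rw [← hq]
          rfl
        rw [this]
        exact RingOfIntegers.isIntegral_coe _
      exact (isIntegral_algebraMap_iff (algebraMap ℚ k).injective).mp h2
    obtain ⟨z, hz⟩ := IsIntegrallyClosed.isIntegral_iff.mp hqi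
    have hza : a * RingOfIntegers.mapRingEquiv (ce hω hc) a = (z : 𝓞 k) := by
      apply RingOfIntegers.ext
      have : ((a : k) * c (a : k)) = ((z : ℤ) : k) := by
        rw [hq, ← hz]
        simp
      have h7 : (((z : ℤ) : 𝓞 k) : k) = ((z : ℤ) : k) := map_intCast _ z
      rw [h7, ← this]
      rfl
    have hpz : (p : ℤ) ∣ z := by
      by_contra hnd
      have hcop : IsCoprime (p : ℤ) z :=
        (Nat.prime_iff_prime_int.mp hp).coprime_iff_not_dvd.mpr hnd
      obtain ⟨x, y, hxy⟩ := hcop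
      have h3 : (1 : 𝓞 k) ∈ w.asIdeal := by
        have : (1 : 𝓞 k) = (x : 𝓞 k) * (p : 𝓞 k) + (y : 𝓞 k) * (z : 𝓞 k) := by
          have := congrArg (fun t : ℤ => (t : 𝓞 k)) hxy
          simp only [Int.cast_add, Int.cast_mul, Int.cast_natCast, Int.cast_one] at this
          exact this.symm
        rw [this]
        apply w.asIdeal.add_mem (w.asIdeal.mul_mem_left _ hw)
        apply w.asIdeal.mul_mem_left
        rw [← hza]
        exact hmem
      exact w.isPrime.ne_top ((Ideal.eq_top_iff_one _).mpr h3)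
    have h4 : a * RingOfIntegers.mapRingEquiv (ce hω hc) a ∈ v.asIdeal := by
      rw [hza]
      obtain ⟨t, rfl⟩ := hpz
      rw [Int.cast_mul, Int.cast_natCast]
      exact v.asIdeal.mul_mem_right _ hv
    rcases v.isPrime.mem_or_mem h4 with h | h
    · exact Or.inl h
    · exact Or.inr h
  rw [Ideal.subset_union] at h1
  rcases h1 with h | h
  · left
    apply HeightOneSpectrum.ext
    exact w.isMaximal.eq_of_le v.isPrime.ne_top h
  · right
    apply HeightOneSpectrum.ext
    exact w.isMaximal.eq_of_le (cv (ce hω hc) v).isPrime.ne_top h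

include hω hc in
theorem all_cubes {p : ℕ} (hp : p.Prime) {B : k} (hB : B ≠ 0) {r : ℚ}
    (hr : B * c B = (r : k) ^ 3)
    (hout : ∀ v : HeightOneSpectrum (𝓞 k), ((3 * p : ℕ) : 𝓞 k) ∉ v.asIdeal →
      ∃ g : ℤᵐ⁰, v.valuation k B = g ^ 3)
    (v₀ : HeightOneSpectrum (𝓞 k)) (hv₀ : (p : 𝓞 k) ∈ v₀.asIdeal)
    (h₀ : ∃ g : ℤᵐ⁰, v₀.valuation k B = g ^ 3) :
    ∀ v : HeightOneSpectrum (𝓞 k), ∃ g : ℤᵐ⁰, v.valuation k B = g ^ 3 := by
  intro v
  by_cases hv : ((3 * p : ℕ) : 𝓞 k) ∈ v.asIdeal
  swap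
  · exact hout v hv
  have hcv : ∀ u : HeightOneSpectrum (𝓞 k),
      u.valuation k B * (cv (ce hω hc) u).valuation k B = u.valuation k (r : k) ^ 3 := by
    intro u
    rw [val_cv, ce_apply, ← map_mul, hr, map_pow]
  have hne : ∀ u : HeightOneSpectrum (𝓞 k), u.valuation k B ≠ 0 := by
    intro u
    rwa [Ne, map_eq_zero]
  rw [Nat.cast_mul] at hv
  rcases v.isPrime.mem_or_mem hv with h3 | h3
  · have h3' : (3 : 𝓞 k) ∈ v.asIdeal := by exact_mod_cast h3
    have hcv3 : (3 : 𝓞 k) ∈ (cv (ce hω hc) v).asIdeal := by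
      rw [mem_cv, map_ofNat]
      exact h3'
    have heq := unique_three hω h3' hcv3
    have h5 := hcv v
    rw [← heq, ← pow_two] at h5
    exact cube_of_sq (hne v) h5
  · rcases over_p hω hc hp hv₀ h3 with rfl | rfl
    · exact h₀
    · obtain ⟨g, hg⟩ := h₀
      have h5 := hcv v₀
      rw [hg] at h5
      have hg0 : g ≠ 0 := by
        rintro rfl
        exact hne v₀ (by rw [hg]; simp)
      refine ⟨v₀.valuation k (r : k) / g, ?_⟩
      rw [div_pow, ← h5]
      field_simp

end k

end Pool.Agent.K7.H55.W
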