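import Mathlib

/-!
Elements of the fraction field of a principal ideal domain all of whose valuations are cubes.
-/

set_option autoImplicit false

namespace Pool.Agent.K7.H55.W

open IsDedekindDomain WithZero

variable {R K : Type*} [CommRing R] [IsDomain R] [IsPrincipalIdealRing R] [Field K] [Algebra R K]
  [IsFractionRing R K]

theorem exp_cube {n : ℕ} (g : ℤᵐ⁰) (h : exp (-(n : ℤ)) = g ^ 3) : 3 ∣ n := by
  have hg : g ≠ 0 := by
    rintro rfl
    simp at h
  have h1 : (-(n : ℤ)) = 3 * log g := by
    have := congrArg log h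
    rw [log_exp, log_pow] at this
    simpa using this
  omega

/-- in a principal ideal domain an element of the fraction field all of whose valuations are cubes
is a unit times a cube -/
theorem eq_unit_mul_cube (B : K) (hB : B ≠ 0)
    (h : ∀ v : HeightOneSpectrum R, ∃ g : ℤᵐ⁰, v.valuation K B = g ^ 3) :
    ∃ (u : Rˣ) (c : K), B = algebraMap R K u * c ^ 3 := by
  obtain ⟨r, s, hs, rfl⟩ := IsFractionRing.div_surjective (A := R) B
  have hs0 : s ≠ 0 := nonZeroDivisors.ne_zero hs
  have hs1 : algebraMap R K s ≠ 0 := by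
    rwa [Ne, IsFractionRing.to_map_eq_zero_iff]
  have hr1 : algebraMap R K r ≠ 0 := by
    intro h0
    rw [h0] at hB
    simp at hB
  have hr0 : r ≠ 0 := by
    rintro rfl
    simp at hr1
  set b : R := r * s ^ 2 with hb
  have hb0 : b ≠ 0 := mul_ne_zero hr0 (pow_ne_zero _ hs0)
  have hbK : algebraMap R K b = algebraMap R K r / algebraMap R K s * (algebraMap R K s) ^ 3 := by
    rw [hb, map_mul, map_pow]
    field_simp
  have hval : ∀ v : HeightOneSpectrum R, ∃ g : ℤᵐ⁰, v.intValuation b = g ^ 3 := by
    intro v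
    obtain ⟨g, hg⟩ := h v
    refine ⟨g * v.valuation K (algebraMap R K s), ?_⟩
    have h3 : v.valuation K (algebraMap R K b) = v.intValuation b :=
      HeightOneSpectrum.valuation_of_algebraMap v b
    rw [← h3, hbK, map_mul, hg, map_pow, mul_pow]
  have hI : Ideal.span {b} ≠ 0 := by
    rwa [Ne, Ideal.zero_eq_bot, Ideal.span_singleton_eq_bot]
  have hpow : ∃ β : Associates (Ideal R), Associates.mk (Ideal.span {b}) = β ^ 3 := by
    classical
    apply Associates.is_pow_of_dvd_count
    · rwa [Ne, Associates.mk_eq_zero]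
    · intro p hp
      obtain ⟨P, rfl⟩ := Associates.mk_surjective p
      rw [Associates.irreducible_mk] at hp
      have hP : Prime P := hp.prime
      have hPp : P.IsPrime := Ideal.isPrime_of_prime hP
      have hP0 : P ≠ ⊥ := hP.ne_zero
      let v : HeightOneSpectrum R := ⟨P, hPp, hP0⟩
      obtain ⟨g, hg⟩ := hval v
      rw [HeightOneSpectrum.intValuation_if_neg v hb0] at hg
      exact exp_cube g hg
  obtain ⟨β, hβ⟩ := hpow
  obtain ⟨J, rfl⟩ := Associates.mk_surjective β
  rw [← Associates.mk_pow, Associates.mk_eq_mk_iff_associated, associated_iff_eq] at hβ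
  obtain ⟨c, hc⟩ := (IsPrincipalIdealRing.principal J).principal
  rw [Ideal.submodule_span_eq] at hc
  rw [hc, Ideal.span_singleton_pow, Ideal.span_singleton_eq_span_singleton] at hβ
  obtain ⟨u, hu⟩ := hβ.symm
  refine ⟨u, algebraMap R K c / algebraMap R K s, ?_⟩
  have h2 : algebraMap R K b = algebraMap R K c ^ 3 * algebraMap R K u := by
    rw [← hu, map_mul, map_pow]
  rw [hbK] at h2
  field_simp
  field_simp at h2
  rw [h2]
  ring

end Pool.Agent.K7.H55.W
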