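import Mathlib
import Pool.Agent.K7.H55.W.Cubic

/-!
The norm form of `θ ^ 3 = p` over `ℚ_p`: its values are powers of `p` times cubes.
-/

set_option autoImplicit false

namespace Pool.Agent.K7.H55.W

open Polynomial

variable {p : ℕ} [hp : Fact p.Prime]

theorem norm_three (h3 : p ≠ 3) : ‖(3 : ℚ_[p])‖ = 1 := by
  have h : ¬ p ∣ 3 := fun h => h3 ((Nat.prime_dvd_prime_iff_eq hp.out Nat.prime_three).mp h)
  have := (Padic.norm_natCast_eq_one_iff (p := p) (n := 3)).mpr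
    ((Nat.Prime.coprime_iff_not_dvd hp.out).mpr h)
  exact_mod_cast this

theorem norm_three_int (h3 : p ≠ 3) : ‖(3 : ℤ_[p])‖ = 1 := by
  have := norm_three h3
  rw [PadicInt.norm_def]
  exact_mod_cast this

theorem one_add_cube (h3 : p ≠ 3) (e : ℚ_[p]) (he : ‖e‖ < 1) : ∃ t : ℚ_[p], t ≠ 0 ∧ 1 + e = t ^ 3 := by
  let e' : ℤ_[p] := ⟨e, he.le⟩
  let F : ℤ_[p][X] := X ^ 3 - C (1 + e')
  have hF1 : F.aeval (1 : ℤ_[p]) = - e' := by
    simp [F]
  have hF2 : (derivative F).aeval (1 : ℤ_[p]) = 3 := by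
    simp [F]
    norm_num
  have hn : ‖F.aeval (1 : ℤ_[p])‖ < ‖(derivative F).aeval (1 : ℤ_[p])‖ ^ 2 := by
    rw [hF1, hF2, norm_neg, norm_three_int h3]
    simpa [e'] using he
  obtain ⟨z, hz, -, -, -⟩ := hensels_lemma hn
  have hz' : z ^ 3 = 1 + e' := by
    have : z ^ 3 - (1 + e') = 0 := by
      simpa [F] using hz
    linear_combination this
  have hz2 : (z : ℚ_[p]) ^ 3 = 1 + e := by
    have := congrArg (fun x : ℤ_[p] => (x : ℚ_[p])) hz'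
    simpa [e'] using this
  refine ⟨z, ?_, hz2.symm⟩
  intro h0
  rw [h0] at hz2
  have h1 : e = -1 := by linear_combination -hz2
  rw [h1, norm_neg, norm_one] at he
  exact lt_irrefl _ he

theorem add_small (h3 : p ≠ 3) {x y : ℚ_[p]} (h : ‖y‖ < ‖x‖) :
    ∃ t : ℚ_[p], t ≠ 0 ∧ x + y = x * t ^ 3 := by
  have hx : x ≠ 0 := by
    rintro rfl
    rw [norm_zero] at h
    exact absurd h (not_lt.mpr (norm_nonneg _))
  have hlt : ‖y / x‖ < 1 := by
    rw [norm_div, div_lt_one (norm_pos_iff.mpr hx)]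
    exact h
  obtain ⟨t, ht, h1⟩ := one_add_cube h3 (y / x) hlt
  refine ⟨t, ht, ?_⟩
  rw [← h1]
  field_simp

theorem lead {h3 : p ≠ 3} {x y1 y2 cr : ℚ_[p]} (h1 : ‖y1‖ < ‖x‖) (h2 : ‖y2‖ < ‖x‖)
    (hc : cr ^ 3 = 27 * (x * y1 * y2)) : ∃ t : ℚ_[p], t ≠ 0 ∧ x + y1 + y2 - cr = x * t ^ 3 := by
  have hx : 0 < ‖x‖ := lt_of_le_of_lt (norm_nonneg _) h1
  have h27 : ‖(27 : ℚ_[p])‖ = 1 := by
    have : (27 : ℚ_[p]) = 3 ^ 3 := by norm_num
    rw [this, norm_pow, norm_three h3, one_pow]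
  have hcr : ‖cr‖ < ‖x‖ := by
    have h : ‖cr‖ ^ 3 < ‖x‖ ^ 3 := by
      rw [← norm_pow, hc, norm_mul, h27, one_mul, norm_mul, norm_mul]
      have e1 : ‖y1‖ * ‖y2‖ < ‖x‖ * ‖x‖ :=
        mul_lt_mul'' h1 h2 (norm_nonneg _) (norm_nonneg _)
      calc ‖x‖ * ‖y1‖ * ‖y2‖ = ‖x‖ * (‖y1‖ * ‖y2‖) := by ring
        _ < ‖x‖ * (‖x‖ * ‖x‖) := by
          exact mul_lt_mul_of_pos_left e1 hx
        _ = ‖x‖ ^ 3 := by ring
    exact lt_of_pow_lt_pow_left₀ 3 hx.le h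
  have hs : ‖y1 + y2 - cr‖ < ‖x‖ := by
    have a1 := Padic.nonarchimedean (p := p) (y1 + y2) (-cr)
    have a2 := Padic.nonarchimedean (p := p) y1 y2
    have a3 : ‖y1 + y2‖ < ‖x‖ := lt_of_le_of_lt a2 (max_lt h1 h2)
    rw [sub_eq_add_neg]
    refine lt_of_le_of_lt a1 (max_lt a3 ?_)
    rwa [norm_neg]
  obtain ⟨t, ht, h⟩ := add_small h3 hs
  refine ⟨t, ht, ?_⟩
  rw [← h]
  ring

theorem norm_ne {i j : ℕ} (hi : i < 3) (hj : j < 3) (hij : i ≠ j) {A B : ℚ_[p]}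
    (h : A ≠ 0 ∨ B ≠ 0) :
    ‖(p : ℚ_[p]) ^ i * A ^ 3‖ ≠ ‖(p : ℚ_[p]) ^ j * B ^ 3‖ := by
  have hp0 : (p : ℚ_[p]) ≠ 0 := by exact_mod_cast hp.out.ne_zero
  intro heq
  have hAB : A ≠ 0 ∧ B ≠ 0 := by
    constructor
    · rintro rfl
      have hB : B ≠ 0 := by simpa using h
      have : ‖(p : ℚ_[p]) ^ j * B ^ 3‖ ≠ 0 :=
        norm_ne_zero_iff.mpr (mul_ne_zero (pow_ne_zero _ hp0) (pow_ne_zero _ hB))
      apply this
      rw [← heq]
      simp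
    · rintro rfl
      have hA : A ≠ 0 := by simpa using h
      have : ‖(p : ℚ_[p]) ^ i * A ^ 3‖ ≠ 0 :=
        norm_ne_zero_iff.mpr (mul_ne_zero (pow_ne_zero _ hp0) (pow_ne_zero _ hA))
      apply this
      rw [heq]
      simp
  obtain ⟨hA, hB⟩ := hAB
  have hx : (p : ℚ_[p]) ^ i * A ^ 3 ≠ 0 := mul_ne_zero (pow_ne_zero _ hp0) (pow_ne_zero _ hA)
  have hy : (p : ℚ_[p]) ^ j * B ^ 3 ≠ 0 := mul_ne_zero (pow_ne_zero _ hp0) (pow_ne_zero _ hB)
  rw [Padic.norm_eq_zpow_neg_valuation hx, Padic.norm_eq_zpow_neg_valuation hy] at heq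
  have hp1 : (1 : ℝ) < p := by exact_mod_cast hp.out.one_lt
  have h2 := zpow_right_injective₀ (by linarith) hp1.ne' heq
  rw [Padic.valuation_mul (pow_ne_zero _ hp0) (pow_ne_zero _ hA),
    Padic.valuation_mul (pow_ne_zero _ hp0) (pow_ne_zero _ hB), Padic.valuation_pow,
    Padic.valuation_pow, Padic.valuation_pow, Padic.valuation_pow, Padic.valuation_p] at h2
  push_cast at h2
  omega

/-- the values of the norm form over `ℚ_p` -/
theorem nf_padic (h3 : p ≠ 3) (A B E : ℚ_[p]) (h : A ≠ 0 ∨ B ≠ 0 ∨ E ≠ 0) :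
    ∃ (j : ℕ) (t : ℚ_[p]), t ≠ 0 ∧ Data.nf p A B E = (p : ℚ_[p]) ^ j * t ^ 3 := by
  have hp0 : (p : ℚ_[p]) ≠ 0 := by exact_mod_cast hp.out.ne_zero
  set T0 := (p : ℚ_[p]) ^ 0 * A ^ 3 with hT0
  set T1 := (p : ℚ_[p]) ^ 1 * B ^ 3 with hT1
  set T2 := (p : ℚ_[p]) ^ 2 * E ^ 3 with hT2
  have hn : Data.nf p A B E = T0 + T1 + T2 - 3 * p * A * B * E := by
    simp only [Data.nf, hT0, hT1, hT2]
    ring
  have hcr : (3 * p * A * B * E) ^ 3 = 27 * (T0 * T1 * T2) := by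
    simp only [hT0, hT1, hT2]
    ring
  have n01 : (A ≠ 0 ∨ B ≠ 0) → ‖T0‖ ≠ ‖T1‖ := norm_ne (by norm_num) (by norm_num) (by norm_num)
  have n02 : (A ≠ 0 ∨ E ≠ 0) → ‖T0‖ ≠ ‖T2‖ := norm_ne (by norm_num) (by norm_num) (by norm_num)
  have n12 : (B ≠ 0 ∨ E ≠ 0) → ‖T1‖ ≠ ‖T2‖ := norm_ne (by norm_num) (by norm_num) (by norm_num)
  have z0 : A = 0 → ‖T0‖ = 0 := by intro h; simp [hT0, h]
  have z1 : B = 0 → ‖T1‖ = 0 := by intro h; simp [hT1, h]
  have z2 : E = 0 → ‖T2‖ = 0 := by intro h; simp [hT2, h]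
  have p0 : A ≠ 0 → 0 < ‖T0‖ := fun h =>
    norm_pos_iff.mpr (mul_ne_zero (pow_ne_zero _ hp0) (pow_ne_zero _ h))
  have p1 : B ≠ 0 → 0 < ‖T1‖ := fun h =>
    norm_pos_iff.mpr (mul_ne_zero (pow_ne_zero _ hp0) (pow_ne_zero _ h))
  have p2 : E ≠ 0 → 0 < ‖T2‖ := fun h =>
    norm_pos_iff.mpr (mul_ne_zero (pow_ne_zero _ hp0) (pow_ne_zero _ h))
  -- the largest term
  have hcases : (‖T1‖ < ‖T0‖ ∧ ‖T2‖ < ‖T0‖) ∨ (‖T0‖ < ‖T1‖ ∧ ‖T2‖ < ‖T1‖) ∨
      (‖T0‖ < ‖T2‖ ∧ ‖T1‖ < ‖T2‖) := by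
    by_cases hA : A = 0
    · by_cases hB : B = 0
      · have hE : E ≠ 0 := by simpa [hA, hB] using h
        right; right
        rw [z0 hA, z1 hB]
        exact ⟨p2 hE, p2 hE⟩
      · rcases lt_or_gt_of_ne (n12 (Or.inl hB)) with hlt | hlt
        · right; right
          refine ⟨?_, hlt⟩
          rw [z0 hA]
          exact lt_of_le_of_lt (norm_nonneg _) hlt
        · right; left
          refine ⟨?_, hlt⟩
          rw [z0 hA]
          exact p1 hB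
    · rcases lt_or_gt_of_ne (n01 (Or.inl hA)) with h01 | h01
      · rcases lt_or_gt_of_ne (n02 (Or.inl hA)) with h02 | h02
        · by_cases hBE : B ≠ 0 ∨ E ≠ 0
          · rcases lt_or_gt_of_ne (n12 hBE) with h12 | h12
            · right; right; exact ⟨h02, h12⟩
            · right; left; exact ⟨h01, h12⟩
          · push Not at hBE
            rw [z1 hBE.1] at h01
            exact absurd h01 (not_lt.mpr (norm_nonneg _))
        · right; left; exact ⟨h01, h02.trans h01⟩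
      · rcases lt_or_gt_of_ne (n02 (Or.inl hA)) with h02 | h02
        · right; right; exact ⟨h02, h01.trans h02⟩
        · left; exact ⟨h01, h02⟩
  rcases hcases with ⟨ha, hb⟩ | ⟨ha, hb⟩ | ⟨ha, hb⟩
  · have hA : A ≠ 0 := by
      intro h0
      rw [z0 h0] at ha
      exact absurd ha (not_lt.mpr (norm_nonneg _))
    obtain ⟨t, ht, h⟩ := lead (h3 := h3) ha hb hcr
    refine ⟨0, A * t, mul_ne_zero hA ht, ?_⟩
    rw [hn, h, hT0]
    ring
  · have hB : B ≠ 0 := by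
      intro h0
      rw [z1 h0] at ha
      exact absurd ha (not_lt.mpr (norm_nonneg _))
    obtain ⟨t, ht, h⟩ := lead (h3 := h3) (cr := 3 * p * A * B * E) ha hb (by rw [hcr]; ring)
    refine ⟨1, B * t, mul_ne_zero hB ht, ?_⟩
    rw [hn]
    have : T0 + T1 + T2 - 3 * p * A * B * E = T1 + T0 + T2 - 3 * p * A * B * E := by ring
    rw [this, h, hT1]
    ring
  · have hE : E ≠ 0 := by
      intro h0
      rw [z2 h0] at ha
      exact absurd ha (not_lt.mpr (norm_nonneg _))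
    obtain ⟨t, ht, h⟩ := lead (h3 := h3) (cr := 3 * p * A * B * E) ha hb (by rw [hcr]; ring)
    refine ⟨2, E * t, mul_ne_zero hE ht, ?_⟩
    rw [hn]
    have : T0 + T1 + T2 - 3 * p * A * B * E = T2 + T0 + T1 - 3 * p * A * B * E := by ring
    rw [this, h, hT2]
    ring

theorem three_ne_zmod (h3 : p ≠ 3) : (3 : ZMod p) ≠ 0 := by
  intro h
  have h2 : ((3 : ℕ) : ZMod p) = 0 := by exact_mod_cast h
  rw [ZMod.natCast_eq_zero_iff] at h2
  exact h3 ((Nat.prime_dvd_prime_iff_eq hp.out Nat.prime_three).mp h2)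

/-- an element of order `9` -/
theorem nine_dvd (h3 : p ≠ 3) {w : ZMod p} (hw : (w ^ 3) ^ 2 + w ^ 3 + 1 = 0) : 9 ∣ p - 1 := by
  have h9 : w ^ 9 = 1 := by linear_combination (w ^ 3 - 1) * hw
  have hne : w ^ 3 ≠ 1 := by
    intro h
    rw [h] at hw
    apply three_ne_zmod h3
    linear_combination hw
  have hw0 : w ≠ 0 := by
    rintro rfl
    norm_num at h9
  have hord : orderOf w = 3 ^ 2 := by
    apply orderOf_eq_prime_pow
    · simpa using hne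
    · simpa using h9
  have := ZMod.orderOf_dvd_card_sub_one hw0
  rw [hord] at this
  simpa using this

/-- reduction of a unit of `ℚ_p` -/
theorem exists_red {t : ℚ_[p]} (ht : ‖t‖ = 1) : ∃ t' : ℤ_[p], (t' : ℚ_[p]) = t :=
  ⟨⟨t, ht.le⟩, rfl⟩

theorem root_not_cube (h9 : ¬ 9 ∣ p - 1) (h3 : p ≠ 3) {ζ : ℚ_[p]} (hζ : ζ ^ 2 + ζ + 1 = 0)
    (t : ℚ_[p]) : ζ ≠ t ^ 3 := by
  rintro rfl
  have ht9 : t ^ 9 = 1 := by linear_combination (t ^ 3 - 1) * hζ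
  have hn : ‖t‖ = 1 := by
    have : ‖t‖ ^ 9 = 1 := by rw [← norm_pow, ht9, norm_one]
    exact (pow_eq_one_iff_of_nonneg (norm_nonneg _) (by norm_num)).mp this
  obtain ⟨t', rfl⟩ := exists_red hn
  have h1 : (t' ^ 3) ^ 2 + t' ^ 3 + 1 = 0 := by
    apply PadicInt.ext
    push_cast
    exact hζ
  have h2 := congrArg (PadicInt.toZMod (p := p)) h1
  simp only [map_add, map_pow, map_one, map_zero] at h2
  exact h9 (nine_dvd h3 h2)

theorem int_not_cube (h9 : ¬ 9 ∣ p - 1) (h3 : p ≠ 3) {m : ℤ} (hm : (p : ℤ) ∣ m ^ 2 + 9 * m + 27)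
    (t : ℚ_[p]) : (m : ℚ_[p]) ≠ t ^ 3 := by
  intro ht
  have hm' : (m : ZMod p) ^ 2 + 9 * m + 27 = 0 := by
    have := (ZMod.intCast_zmod_eq_zero_iff_dvd (m ^ 2 + 9 * m + 27) p).mpr hm
    exact_mod_cast this
  have hm0 : (m : ZMod p) ≠ 0 := by
    intro h
    rw [h] at hm'
    have h27 : (3 : ZMod p) ^ 3 = 0 := by linear_combination hm'
    exact three_ne_zmod h3 (pow_eq_zero_iff (by norm_num) |>.mp h27)
  have hmn : ‖(m : ℚ_[p])‖ = 1 := by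
    apply le_antisymm (Padic.norm_int_le_one m)
    by_contra hlt
    push Not at hlt
    rw [Padic.norm_intCast_lt_one_iff] at hlt
    exact hm0 ((ZMod.intCast_zmod_eq_zero_iff_dvd m p).mpr hlt)
  have hn : ‖t‖ = 1 := by
    have : ‖t‖ ^ 3 = 1 := by rw [← norm_pow, ← ht, hmn]
    exact (pow_eq_one_iff_of_nonneg (norm_nonneg _) (by norm_num)).mp this
  obtain ⟨t', rfl⟩ := exists_red hn
  have h1 : (m : ℤ_[p]) = t' ^ 3 := by
    apply PadicInt.ext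
    push_cast
    exact ht
  have h2 := congrArg (PadicInt.toZMod (p := p)) h1
  simp only [map_pow, map_intCast] at h2
  set w := PadicInt.toZMod t'
  apply h9
  apply nine_dvd h3 (w := -3 * w / m)
  have e : (-3 * w / (m : ZMod p)) ^ 3 = -27 / (m : ZMod p) ^ 2 := by
    rw [div_pow, mul_pow, ← h2]
    field_simp
    norm_num
  rw [e]
  field_simp
  linear_combination (27 - 9 * (m : ZMod p)  + (m : ZMod p) ^ 2) * hm'

theorem three_cube (h3 : p ≠ 3) {g : ℤ} (hg : (p : ℤ) ∣ g ^ 3 - 3) :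
    ∃ t : ℚ_[p], t ≠ 0 ∧ (3 : ℚ_[p]) = t ^ 3 := by
  have h1 : ‖((g ^ 3 - 3 : ℤ) : ℚ_[p])‖ < 1 := (Padic.norm_intCast_lt_one_iff).mpr hg
  have hg1 : ‖((g : ℚ_[p])) ^ 3‖ = 1 := by
    by_contra hne
    have hlt : ‖((g : ℚ_[p])) ^ 3‖ < 1 := by
      refine lt_of_le_of_ne ?_ hne
      rw [norm_pow]
      exact pow_le_one₀ (norm_nonneg _) (Padic.norm_int_le_one g)
    have h5 := Padic.nonarchimedean (p := p) (-((g ^ 3 - 3 : ℤ) : ℚ_[p])) ((g : ℚ_[p]) ^ 3)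
    have h6 : -((g ^ 3 - 3 : ℤ) : ℚ_[p]) + (g : ℚ_[p]) ^ 3 = 3 := by
      push_cast
      ring
    rw [h6, norm_three h3, norm_neg] at h5
    exact absurd h5 (not_le.mpr (max_lt h1 hlt))
  have hlt : ‖-((g ^ 3 - 3 : ℤ) : ℚ_[p])‖ < ‖((g : ℚ_[p])) ^ 3‖ := by
    rw [norm_neg, hg1]
    exact h1
  obtain ⟨t, ht, h⟩ := add_small h3 hlt
  have hg0 : (g : ℚ_[p]) ≠ 0 := by
    intro h0
    rw [h0] at hg1
    norm_num at hg1
  refine ⟨g * t, mul_ne_zero hg0 ht, ?_⟩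
  rw [mul_pow, ← h]
  push_cast
  ring

/-- a root of unity of order three in `ℚ_p` -/
theorem exists_root (h1 : p % 3 = 1) : ∃ ζ : ℚ_[p], ζ ^ 2 + ζ + 1 = 0 := by
  have h3 : p ≠ 3 := by
    rintro rfl
    norm_num at h1
  -- a root modulo p
  obtain ⟨a, ha⟩ : ∃ a : ZMod p, a ^ 2 + a + 1 = 0 := by
    have hdvd : 3 ∣ Fintype.card (ZMod p)ˣ := by
      rw [ZMod.card_units_eq_totient, Nat.totient_prime hp.out]
      have := hp.out.one_lt
      omega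
    have : Fact (Nat.Prime 3) := ⟨Nat.prime_three⟩
    obtain ⟨u, hu⟩ := exists_prime_orderOf_dvd_card 3 hdvd
    refine ⟨u, ?_⟩
    have hu3 : (u : ZMod p) ^ 3 = 1 := by
      have := pow_orderOf_eq_one u
      rw [hu] at this
      have h := congrArg Units.val this
      simpa using h
    have hu1 : (u : ZMod p) ≠ 1 := by
      intro h
      have : u = 1 := Units.ext h
      rw [this, orderOf_one] at hu
      norm_num at hu
    have : ((u : ZMod p) - 1) * ((u : ZMod p) ^ 2 + u + 1) = 0 := by linear_combination hu3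
    exact (mul_eq_zero.mp this).resolve_left (sub_ne_zero.mpr hu1)
  obtain ⟨b, rfl⟩ := ZMod.intCast_surjective a
  let F : ℤ_[p][X] := X ^ 2 + X + 1
  have hF1 : F.aeval ((b : ℤ) : ℤ_[p]) = ((b ^ 2 + b + 1 : ℤ) : ℤ_[p]) := by
    simp [F]
  have hF2 : (derivative F).aeval ((b : ℤ) : ℤ_[p]) = ((2 * b + 1 : ℤ) : ℤ_[p]) := by
    simp [F]
    left
    norm_num
  have hb1 : (p : ℤ) ∣ b ^ 2 + b + 1 := by
    rw [← ZMod.intCast_zmod_eq_zero_iff_dvd]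
    exact_mod_cast ha
  have hb2 : ¬ (p : ℤ) ∣ 2 * b + 1 := by
    intro h
    have h4 : (p : ℤ) ∣ 3 := by
      have e : (3 : ℤ) = 4 * (b ^ 2 + b + 1) - (2 * b + 1) * (2 * b + 1) := by ring
      rw [e]
      exact dvd_sub (Dvd.dvd.mul_left hb1 4) (Dvd.dvd.mul_left h _)
    have h5 : p ∣ 3 := by exact_mod_cast h4
    exact h3 ((Nat.prime_dvd_prime_iff_eq hp.out Nat.prime_three).mp h5)
  have hn1 : ‖((b ^ 2 + b + 1 : ℤ) : ℤ_[p])‖ < 1 := by
    rw [PadicInt.norm_def, PadicInt.coe_intCast]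
    exact (Padic.norm_intCast_lt_one_iff).mpr hb1
  have hn2 : ‖((2 * b + 1 : ℤ) : ℤ_[p])‖ = 1 := by
    rw [PadicInt.norm_def, PadicInt.coe_intCast]
    apply le_antisymm (Padic.norm_int_le_one _)
    by_contra hlt
    push Not at hlt
    rw [Padic.norm_intCast_lt_one_iff] at hlt
    exact hb2 hlt
  have hn : ‖F.aeval ((b : ℤ) : ℤ_[p])‖ < ‖(derivative F).aeval ((b : ℤ) : ℤ_[p])‖ ^ 2 := by
    rw [hF1, hF2, hn2, one_pow]
    exact hn1
  obtain ⟨z, hz, -, -, -⟩ := hensels_lemma hn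
  refine ⟨z, ?_⟩
  have : z ^ 2 + z + 1 = 0 := by simpa [F] using hz
  exact_mod_cast congrArg (fun x : ℤ_[p] => (x : ℚ_[p])) this

/-- the embedding of `k` in `ℚ_p` -/
theorem exists_emb {k : Type} [Field k] [NumberField k] [IsCyclotomicExtension {3} ℚ k]
    {ω : k} (hω : IsPrimitiveRoot ω 3) (h1 : p % 3 = 1) :
    ∃ φ : k →+* ℚ_[p], (φ ω) ^ 2 + φ ω + 1 = 0 := by
  obtain ⟨ζ, hζ⟩ := exists_root (p := p) h1
  have hroot : aeval ζ (minpoly ℚ (hω.powerBasis ℚ).gen) = 0 := by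
    rw [hω.powerBasis_gen ℚ]
    have hm : minpoly ℚ ω = cyclotomic 3 ℚ :=
      (cyclotomic_eq_minpoly_rat hω (by norm_num)).symm
    rw [hm, cyclotomic_three]
    simp only [map_add, map_pow, aeval_X, map_one]
    exact hζ
  refine ⟨((hω.powerBasis ℚ).lift ζ hroot).toRingHom, ?_⟩
  have h2 : ((hω.powerBasis ℚ).lift ζ hroot).toRingHom ω = ζ := by
    have := (hω.powerBasis ℚ).lift_gen ζ hroot
    rwa [hω.powerBasis_gen ℚ] at this
  rw [h2]
  exact hζ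

end Pool.Agent.K7.H55.W
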