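import Mathlib
import Pool.Agent.K7.H55.W.Conj
import Pool.Agent.K7.H55.W.Cubes
import Pool.Agent.K7.H55.W.Loc

/-!
An element of `k = ℚ(ω)` all of whose valuations are cubes and which is a power of `p` times a cube
in `ℚ_p` is a cube.
-/

set_option autoImplicit false
set_option linter.unusedSectionVars false

namespace Pool.Agent.K7.H55.W

open NumberField IsDedekindDomain WithZero

variable {k : Type} [Field k] [NumberField k] [IsCyclotomicExtension {3} ℚ k]
  {ω : k} (hω : IsPrimitiveRoot ω 3)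

include hω

theorem unit_eq (u : (𝓞 k)ˣ) : ∃ (j : ℕ) (s : k), ((u : 𝓞 k) : k) = ω ^ j * s ^ 3 := by
  have h := IsCyclotomicExtension.Rat.Three.Units.mem (K := k) hω u
  simp only [List.mem_cons, List.not_mem_nil, or_false] at h
  have he : (((hω.toInteger_isPrimitiveRoot.isUnit (by norm_num)).unit : (𝓞 k)ˣ) : 𝓞 k) =
      hω.toInteger := rfl
  have hη : ((hω.toInteger : 𝓞 k) : k) = ω := rfl
  rcases h with h | h | h | h | h | h
  · exact ⟨0, 1, by rw [h]; simp⟩
  · exact ⟨0, -1, by rw [h]; simp; norm_num⟩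
  · refine ⟨1, 1, ?_⟩
    rw [h]
    simp
  · refine ⟨1, -1, ?_⟩
    rw [h]
    simp
    ring
  · refine ⟨2, 1, ?_⟩
    rw [h]
    simp
  · refine ⟨2, -1, ?_⟩
    rw [h]
    simp
    ring

theorem eq_cube {p : ℕ} [Fact p.Prime] (h9 : ¬ 9 ∣ p - 1) (h3 : p ≠ 3) {B : k} (hB : B ≠ 0)
    (hall : ∀ v : HeightOneSpectrum (𝓞 k), ∃ g : ℤᵐ⁰, v.valuation k B = g ^ 3)
    (φ : k →+* ℚ_[p]) (hφ : (φ ω) ^ 2 + φ ω + 1 = 0)
    (hBp : ∃ (a : ℤ) (t : ℚ_[p]), t ≠ 0 ∧ φ B = (p : ℚ_[p]) ^ a * t ^ 3) :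
    ∃ d : k, B = d ^ 3 := by
  have hpid : IsPrincipalIdealRing (𝓞 k) := IsCyclotomicExtension.Rat.three_pid k
  obtain ⟨u, c, hc⟩ := eq_unit_mul_cube (R := 𝓞 k) B hB hall
  obtain ⟨j, s, hj⟩ := unit_eq hω u
  have hBd : B = ω ^ j * (s * c) ^ 3 := by
    rw [hc, mul_pow, ← mul_assoc, ← hj]
  set d := s * c with hd
  have hd0 : d ≠ 0 := by
    rintro h
    rw [h] at hBd
    simp at hBd
    exact hB hBd
  obtain ⟨a, t, ht, hat⟩ := hBp
  have hp0 : (p : ℚ_[p]) ≠ 0 := by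
    have := (Fact.out : p.Prime).ne_zero
    exact_mod_cast this
  have hφd : φ d ≠ 0 := by rwa [Ne, map_eq_zero]
  set z := φ ω with hz
  have hz3 : z ^ 3 = 1 := by linear_combination (z - 1) * hφ
  have hz0 : z ≠ 0 := by
    rintro h
    rw [h] at hz3
    norm_num at hz3
  rw [hBd, map_mul, map_pow, map_pow] at hat
  -- the exponent of `p` is a multiple of three
  have hzv : z.valuation = 0 := by
    have := congrArg Padic.valuation hz3
    rw [Padic.valuation_pow, Padic.valuation_one] at this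
    push_cast at this
    omega
  have hv := congrArg Padic.valuation hat
  rw [Padic.valuation_mul (pow_ne_zero _ hz0) (pow_ne_zero _ hφd), Padic.valuation_pow,
    Padic.valuation_pow, Padic.valuation_mul (zpow_ne_zero _ hp0) (pow_ne_zero _ ht),
    Padic.valuation_pow, Padic.valuation_zpow, Padic.valuation_p, hzv] at hv
  push_cast at hv
  obtain ⟨b, hb⟩ : ∃ b : ℤ, a = 3 * b := ⟨(φ d).valuation - t.valuation, by omega⟩
  have hzj : z ^ j = ((p : ℚ_[p]) ^ b * t / φ d) ^ 3 := by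
    rw [div_pow, mul_pow, ← zpow_natCast ((p : ℚ_[p]) ^ b) 3, ← zpow_mul, mul_comm b]
    push_cast
    rw [← hb, ← hat, hz]
    field_simp
  obtain ⟨q, hq⟩ : ∃ q : ℕ, j = 3 * q ∨ j = 3 * q + 1 ∨ j = 3 * q + 2 :=
    ⟨j / 3, by omega⟩
  rcases hq with rfl | rfl | rfl
  · refine ⟨ω ^ q * d, ?_⟩
    rw [hBd]
    ring
  · exfalso
    rw [pow_add, pow_mul, hz3, one_pow, one_mul, pow_one] at hzj
    exact root_not_cube h9 h3 hφ _ hzj
  · exfalso
    rw [pow_add, pow_mul, hz3, one_pow, one_mul] at hzj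
    have : z = (((p : ℚ_[p]) ^ b * t / φ d) ^ 2) ^ 3 := by
      have e : z = (z ^ 2) ^ 2 := by linear_combination -z * hz3
      rw [e, hzj]
      ring
    exact root_not_cube h9 h3 hφ _ this

end Pool.Agent.K7.H55.W
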