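import Mathlib

/-!
Unramified simple extensions of number fields and valuations that are cubes.
-/

set_option autoImplicit false

namespace Pool.Agent.K7.H55.W

open NumberField IsDedekindDomain Polynomial

variable {K L : Type*} [Field K] [NumberField K] [Field L] [NumberField L] [Algebra K L]

/-- simple extension generated by a root `α` of `f` with `f'(α)` a unit at `w` : valuations agree -/
theorem val_eq_of_simple (α : 𝓞 L) (hα : Algebra.adjoin K {(α : L)} = ⊤)
    (f : (𝓞 K)[X]) (hf : aeval α f = 0) (w : HeightOneSpectrum (𝓞 L))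
    (hw : aeval α (derivative f) ∉ w.asIdeal) (x : K) :
    w.valuation L (algebraMap K L x) = (w.under (𝓞 K)).valuation K x := by
  set v : HeightOneSpectrum (𝓞 K) := w.under (𝓞 K) with hv
  have : w.asIdeal.LiesOver v.asIdeal := ⟨rfl⟩
  have hmp : minpoly (𝓞 K) α ∣ f := minpoly.isIntegrallyClosed_dvd
    (Algebra.IsIntegral.isIntegral α) hf
  obtain ⟨g, hg⟩ := hmp
  have hder : aeval α (derivative f) = aeval α (derivative (minpoly (𝓞 K) α)) * aeval α g := by
    rw [hg, derivative_mul, map_add, map_mul, map_mul, minpoly.aeval, zero_mul, add_zero]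
  have hnot : aeval α (derivative (minpoly (𝓞 K) α)) ∉ w.asIdeal := by
    intro h
    exact hw (hder ▸ w.asIdeal.mul_mem_right _ h)
  have hdiff : aeval α (derivative (minpoly (𝓞 K) α)) ∈ differentIdeal (𝓞 K) (𝓞 L) :=
    aeval_derivative_mem_differentIdeal (𝓞 K) K L α hα
  have hnd : ¬ w.asIdeal ∣ differentIdeal (𝓞 K) (𝓞 L) := by
    intro h
    exact hnot (Ideal.dvd_iff_le.mp h hdiff)
  have hunr : Algebra.IsUnramifiedAt (𝓞 K) w.asIdeal := not_dvd_differentIdeal_iff.mp hnd
  have he : v.asIdeal.ramificationIdx' w.asIdeal = 1 := by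
    by_contra hne
    have hle : v.asIdeal.map (algebraMap (𝓞 K) (𝓞 L)) ≤ w.asIdeal :=
      Ideal.map_le_iff_le_comap.mpr le_rfl
    rw [← ne_eq, Ideal.ramificationIdx'_ne_one_iff hle] at hne
    apply hnd
    have hvm : v.asIdeal.IsMaximal := v.isMaximal
    rw [← pow_one w.asIdeal, show 1 = 2 - 1 by norm_num]
    refine pow_sub_one_dvd_differentIdeal (𝓞 K) (p := v.asIdeal) w.asIdeal 2 v.ne_bot ?_
    rw [Ideal.dvd_iff_le]
    exact hne
  have := HeightOneSpectrum.valuation_liesOver L v w x
  rw [he, pow_one] at this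
  exact this.symm

end Pool.Agent.K7.H55.W
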