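import Mathlib
import Pool.Agent.K7.H55.W.Unram
import Pool.Agent.K7.H55.W.Cubes

/-!
Towers of number fields that are unramified outside the divisors of an integer `n`.
-/

set_option autoImplicit false

namespace Pool.Agent.K7.H55.W

open NumberField IsDedekindDomain Polynomial WithZero

/-- every prime of `K` not dividing `n` extends to `L` with the same valuation -/
def Good (K L : Type) [Field K] [NumberField K] [Field L] [NumberField L] [Algebra K L]
    (n : ℕ) : Prop :=
  ∀ v : HeightOneSpectrum (𝓞 K), (n : 𝓞 K) ∉ v.asIdeal → ∃ w : HeightOneSpectrum (𝓞 L),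
    (n : 𝓞 L) ∉ w.asIdeal ∧ ∀ x : K, w.valuation L (algebraMap K L x) = v.valuation K x

theorem Good.trans {K L M : Type} [Field K] [NumberField K] [Field L] [NumberField L]
    [Field M] [NumberField M] [Algebra K L] [Algebra L M] [Algebra K M] [IsScalarTower K L M]
    {n : ℕ} (h1 : Good K L n) (h2 : Good L M n) : Good K M n := by
  intro v hv
  obtain ⟨w, hw, hwx⟩ := h1 v hv
  obtain ⟨u, hu, hux⟩ := h2 w hw
  refine ⟨u, hu, fun x => ?_⟩
  rw [IsScalarTower.algebraMap_apply K L M, hux, hwx]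

variable {K L : Type} [Field K] [NumberField K] [Field L] [NumberField L] [Algebra K L]

variable (L) in
theorem exists_over (v : HeightOneSpectrum (𝓞 K)) :
    ∃ w : HeightOneSpectrum (𝓞 L), w.under (𝓞 K) = v := by
  have hvm : v.asIdeal.IsMaximal := v.isMaximal
  obtain ⟨P, hP, hPv⟩ := Ideal.exists_maximal_ideal_liesOver_of_isIntegral (S := 𝓞 L) v.asIdeal
  have hP0 : P ≠ ⊥ := Ideal.ne_bot_of_liesOver_of_ne_bot v.ne_bot P
  refine ⟨⟨P, hP.isPrime, hP0⟩, ?_⟩
  apply HeightOneSpectrum.ext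
  exact hPv.over.symm

theorem good_of_simple (α : 𝓞 L) (hα : Algebra.adjoin K {(α : L)} = ⊤)
    (f : (𝓞 K)[X]) (hf : aeval α f = 0) {n : ℕ} (β : 𝓞 L)
    (hn : (n : 𝓞 L) = aeval α (derivative f) * β) : Good K L n := by
  intro v hv
  obtain ⟨w, hw⟩ := exists_over L v
  have hnw : (n : 𝓞 L) ∉ w.asIdeal := by
    intro h
    apply hv
    rw [← hw, HeightOneSpectrum.under_asIdeal, Ideal.mem_comap, map_natCast]
    exact h
  refine ⟨w, hnw, fun x => ?_⟩
  rw [← hw]
  apply val_eq_of_simple α hα f hf w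
  intro h
  apply hnw
  rw [hn]
  exact w.asIdeal.mul_mem_right _ h

/-- `x` is a unit times a cube in an extension unramified outside `n` : the valuations are cubes -/
theorem val_cube_of_good {n : ℕ} (h : Good K L n) {x : K} {u : (𝓞 L)ˣ} {y : L}
    (hx : algebraMap K L x = (u : 𝓞 L) * y ^ 3) (v : HeightOneSpectrum (𝓞 K))
    (hv : (n : 𝓞 K) ∉ v.asIdeal) : ∃ g : ℤᵐ⁰, v.valuation K x = g ^ 3 := by
  obtain ⟨w, -, hw⟩ := h v hv
  refine ⟨w.valuation L y, ?_⟩
  rw [← hw, hx, map_mul, map_pow]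
  have hu : w.valuation L ((u : 𝓞 L) : L) = 1 := by
    have h1 : w.valuation L (algebraMap (𝓞 L) L (u : 𝓞 L)) = w.intValuation (u : 𝓞 L) :=
      HeightOneSpectrum.valuation_of_algebraMap w _
    rw [show ((u : 𝓞 L) : L) = algebraMap (𝓞 L) L (u : 𝓞 L) from rfl, h1,
      HeightOneSpectrum.intValuation_eq_one_iff]
    intro hm
    exact w.isPrime.ne_top (Ideal.eq_top_of_isUnit_mem _ hm u.isUnit)
  rw [hu, one_mul]

end Pool.Agent.K7.H55.W
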