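import Mathlib
import Pool.Agent.K7.H55.W.Struct
import Pool.Agent.K7.H55.W.Tower

/-!
The descent.
-/

set_option autoImplicit false
set_option linter.unusedSectionVars false

namespace Pool.Agent.K7.H55.W

open NumberField IsDedekindDomain WithZero

/-- a unit times a cube -/
def UC {W : Type} [Field W] [NumberField W] (x : W) : Prop :=
  ∃ (u : (𝓞 W)ˣ) (g : W), x = ((u : 𝓞 W) : W) * g ^ 3

namespace UC

variable {W : Type} [Field W] [NumberField W]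

theorem cube (g : W) : UC (g ^ 3) := ⟨1, g, by simp⟩

theorem mul {x y : W} (hx : UC x) (hy : UC y) : UC (x * y) := by
  obtain ⟨u, g, rfl⟩ := hx
  obtain ⟨v, h, rfl⟩ := hy
  refine ⟨u * v, g * h, ?_⟩
  push_cast
  ring

theorem pow {x : W} (hx : UC x) (n : ℕ) : UC (x ^ n) := by
  induction n with
  | zero => simpa using cube (1 : W)
  | succ n ih =>
    rw [pow_succ]
    exact ih.mul hx

theorem inv {x : W} (hx : UC x) : UC x⁻¹ := by
  obtain ⟨u, g, rfl⟩ := hx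
  refine ⟨u⁻¹, g⁻¹, ?_⟩
  have h : (((u⁻¹ : (𝓞 W)ˣ) : 𝓞 W) : W) * ((u : 𝓞 W) : W) = 1 := by
    have h1 : ((u⁻¹ : (𝓞 W)ˣ) : 𝓞 W) * (u : 𝓞 W) = 1 := u.inv_mul
    have h2 := congrArg (algebraMap (𝓞 W) W) h1
    rw [map_mul, map_one] at h2
    exact h2
  have hu : ((u : 𝓞 W) : W) ≠ 0 := by
    intro h0
    rw [h0, mul_zero] at h
    exact zero_ne_one h
  rw [mul_inv, inv_pow]
  congr 1
  exact (eq_inv_of_mul_eq_one_left h).symm

theorem div {x y : W} (hx : UC x) (hy : UC y) : UC (x / y) := by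
  rw [div_eq_mul_inv]
  exact hx.mul hy.inv

end UC

theorem exists_prime_over (k : Type) [Field k] [NumberField k] {p : ℕ} (hp : p.Prime) :
    ∃ v₀ : HeightOneSpectrum (𝓞 k), (p : 𝓞 k) ∈ v₀.asIdeal := by
  have hpp : (Ideal.span {(p : ℤ)}).IsMaximal := by
    have h : (Ideal.span {(p : ℤ)}).IsPrime :=
      (Ideal.span_singleton_prime (by exact_mod_cast hp.ne_zero)).mpr (Nat.prime_iff_prime_int.mp hp)
    exact h.isMaximal (by rw [Ne, Ideal.span_singleton_eq_bot]; exact_mod_cast hp.ne_zero)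
  obtain ⟨P, hP, hPv⟩ :=
    Ideal.exists_maximal_ideal_liesOver_of_isIntegral (S := 𝓞 k) (Ideal.span {(p : ℤ)})
  have h0 : (p : 𝓞 k) ∈ P := by
    have : (p : ℤ) ∈ P.under ℤ := by rw [← hPv.over]; exact Ideal.mem_span_singleton_self _
    rw [Ideal.mem_comap] at this
    simpa using this
  have hP0 : P ≠ ⊥ := by
    rintro rfl
    simp at h0
    exact hp.ne_zero h0
  exact ⟨⟨P, hP.isPrime, hP0⟩, h0⟩

namespace Data

variable {k L : Type} [Field k] [NumberField k] [IsCyclotomicExtension {3} ℚ k]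
  [Field L] [NumberField L] [Algebra k L] {p : ℕ} {ω : k} {θ : L} {c : k →ₐ[ℚ] k} {σ τ : L →+* L}
  (D : Data k L p ω θ c σ τ)

include D

theorem rat_of_fixed {x : L} (h1 : σ x = x) (h2 : τ x = x) : ∃ q : ℚ, x = (q : L) := by
  obtain ⟨a, rfl⟩ := D.σ_fixed h1
  rw [D.τk] at h2
  obtain ⟨q, rfl⟩ := conj_fixed D.hω D.cω ((algebraMap k L).injective h2)
  exact ⟨q, by simp⟩

theorem X_ne_zero {y : L} (hτ : τ y = y) (hq : ∀ q : ℚ, y ≠ (q : L)) {m : ℚ} :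
    (m : L) ^ 2 + m * y + y * σ y ≠ 0 := by
  intro h
  have hy0 : y ≠ 0 := by
    intro h0
    exact hq 0 (by rw [h0]; simp)
  have h1 : σ y = -((m : L) ^ 2 + m * y) / y := by
    field_simp
    linear_combination h
  have h2 : τ (σ y) = σ y := by
    rw [h1]
    simp only [map_div₀, map_neg, map_add, map_mul, map_pow, map_ratCast, hτ]
  rw [D.τσ, hτ] at h2
  -- σ (σ y) = σ y
  have h3 := congrArg σ h2
  rw [D.σσσ, h2] at h3
  obtain ⟨q, hq'⟩ := D.rat_of_fixed h3.symm hτ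
  exact hq q hq'

/-- the element `B` of `k` attached to `y` -/
theorem exists_B {y : L} (hτ : τ y = y) (hq : ∀ q : ℚ, y ≠ (q : L)) {m : ℚ} (hm : m ≠ 0)
    (hN : y * σ y * σ (σ y) = (m : L) ^ 3) :
    ∃ (X : L) (B : k) (r : ℚ), X ≠ 0 ∧ B ≠ 0 ∧ X * σ X * σ (σ X) = algebraMap k L B ∧
      algebraMap k L B * (y ^ 2 * σ y) = ((m : L) * X) ^ 3 ∧ B * c B = (r : k) ^ 3 := by
  have hy0 : y ≠ 0 := by
    intro h0
    exact hq 0 (by rw [h0]; simp)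
  have hm0 : (m : L) ≠ 0 := by exact_mod_cast hm
  set y1 := σ y with hy1
  set y2 := σ y1 with hy2
  have h3 : σ y2 = y := D.σσσ y
  have hy10 : y1 ≠ 0 := by
    intro h0
    rw [h0] at hN
    simp only [mul_zero, zero_mul] at hN
    exact hm0 (pow_eq_zero_iff (by norm_num) |>.mp hN.symm)
  set X := (m : L) ^ 2 + m * y + y * y1 with hX
  have hX0 : X ≠ 0 := D.X_ne_zero hτ hq
  have hσX : σ X = (m : L) ^ 2 + m * y1 + y1 * y2 := by
    simp only [hX, map_add, map_mul, map_pow, map_ratCast, ← hy1, ← hy2]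
  have hσσX : σ (σ X) = (m : L) ^ 2 + m * y2 + y2 * y := by
    rw [hσX]
    simp only [map_add, map_mul, map_pow, map_ratCast, ← hy2, h3]
  obtain ⟨a, b, d, -, hn⟩ := D.norm_eq X
  have hB : algebraMap k L (nf p a b d) ≠ 0 := by
    rw [← hn]
    refine mul_ne_zero (mul_ne_zero hX0 ?_) ?_
    · rwa [Ne, map_eq_zero]
    · rwa [Ne, map_eq_zero, map_eq_zero]
  have e1 : y * σ X = m * X := by
    rw [hσX, hX]
    linear_combination hN
  have e2 : y1 * σ (σ X) = m * σ X := by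
    rw [hσσX, hσX]
    linear_combination hN
  have hτ1 : τ y1 = y2 := by rw [hy1, D.τσ, hτ]
  have hτ2 : τ y2 = y1 := by rw [← hτ1, D.ττ]
  -- the rational number
  obtain ⟨t, ht⟩ := D.rat_of_fixed (x := 3 * (m : L) ^ 2 + m * (y + y1 + y2) + (y * y1 + y1 * y2 + y2 * y))
    (by simp only [map_add, map_mul, map_pow, map_ratCast, ← hy1, ← hy2, h3, map_ofNat]; ring)
    (by simp only [map_add, map_mul, map_pow, map_ratCast, hτ, hτ1, hτ2, map_ofNat]; ring)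
  have hXτ : X * τ X = m * y * t := by
    rw [← ht]
    have : τ X = (m : L) ^ 2 + m * y + y * y2 := by
      simp only [hX, map_add, map_mul, map_pow, map_ratCast, hτ, hτ1]
    rw [this, hX]
    linear_combination (y - m) * hN
  refine ⟨X, nf p a b d, m ^ 2 * t, hX0, ?_, hn, ?_, ?_⟩
  · intro h0
    rw [h0] at hB
    simp at hB
  · rw [← hn]
    calc X * σ X * σ (σ X) * (y ^ 2 * y1) = X * (y * σ X) * (y * (y1 * σ (σ X))) := by ring
      _ = m * (X * (y * σ X) ^ 2) := by rw [e2]; ring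
      _ = _ := by rw [e1]; ring
  · apply (algebraMap k L).injective
    rw [map_mul, ← D.τk, ← hn]
    simp only [map_mul, D.τσ]
    have hc1 : σ (σ (τ X)) = τ (σ X) := (D.τσ X).symm
    have e3 : σ X * σ (τ X) = m * y1 * t := by
      have := congrArg σ hXτ
      simpa only [map_mul, map_ratCast] using this
    have e4 : σ (σ X) * σ (σ (τ X)) = m * y2 * t := by
      have := congrArg σ e3
      simpa only [map_mul, map_ratCast] using this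
    rw [D.σσσ]
    calc X * σ X * σ (σ X) * (τ X * σ (σ (τ X)) * σ (τ X)) =
        (X * τ X) * (σ X * σ (τ X)) * (σ (σ X) * σ (σ (τ X))) := by ring
      _ = (m : L) ^ 3 * t ^ 3 * (y * y1 * y2) := by rw [hXτ, e3, e4]; ring
      _ = _ := by
        rw [hN]
        simp only [map_pow, map_ratCast]
        push_cast
        ring

omit [IsCyclotomicExtension {3} ℚ k] [NumberField L] D in
theorem select (e1 e2 : ℤ) : ∃ m n : ℕ, ¬ (3 ∣ m ∧ 3 ∣ n) ∧ (3 : ℤ) ∣ m * e1 + n * e2 := by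
  have h1 : e1 % 3 = 0 ∨ e1 % 3 = 1 ∨ e1 % 3 = 2 := by omega
  have h2 : e2 % 3 = 0 ∨ e2 % 3 = 1 ∨ e2 % 3 = 2 := by omega
  rcases h1 with h1 | h1 | h1
  · exact ⟨1, 0, by omega, by push_cast; omega⟩
  · rcases h2 with h2 | h2 | h2
    · exact ⟨0, 1, by omega, by push_cast; omega⟩
    · exact ⟨1, 2, by omega, by push_cast; omega⟩
    · exact ⟨1, 1, by omega, by push_cast; omega⟩
  · rcases h2 with h2 | h2 | h2
    · exact ⟨0, 1, by omega, by push_cast; omega⟩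
    · exact ⟨1, 1, by omega, by push_cast; omega⟩
    · exact ⟨1, 2, by omega, by push_cast; omega⟩

/-- Kummer theory for two elements -/
theorem descent_aux [hp : Fact p.Prime] (h9 : ¬ 9 ∣ p - 1) (h3 : p ≠ 3) (hp1 : p % 3 = 1)
    (W : Type) [Field W] [NumberField W] [Algebra L W] [Algebra k W] [IsScalarTower k L W]
    (gk : Good k W (3 * p))
    {y₁ y₂ : L} (hτ₁ : τ y₁ = y₁) (hτ₂ : τ y₂ = y₂) (hq₁ : ∀ q : ℚ, y₁ ≠ (q : L))
    (hq₂ : ∀ q : ℚ, y₂ ≠ (q : L)) {m₁ m₂ : ℚ} (hm₁ : m₁ ≠ 0) (hm₂ : m₂ ≠ 0)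
    (hN₁ : y₁ * σ y₁ * σ (σ y₁) = (m₁ : L) ^ 3) (hN₂ : y₂ * σ y₂ * σ (σ y₂) = (m₂ : L) ^ 3)
    (u₁ : UC (algebraMap L W y₁)) (u₁' : UC (algebraMap L W (σ y₁)))
    (u₂ : UC (algebraMap L W y₂)) (u₂' : UC (algebraMap L W (σ y₂))) :
    ∃ m n : ℕ, ¬ (3 ∣ m ∧ 3 ∣ n) ∧ ∃ (n₀ : ℚ) (κ : L), n₀ ≠ 0 ∧ κ ≠ 0 ∧ τ κ = κ ∧
      (y₁ ^ m * y₂ ^ n) ^ 2 = (n₀ : L) * κ ^ 3 := by
  obtain ⟨X₁, B₁, r₁, hX₁, hB₁, hXN₁, hBy₁, hr₁⟩ := D.exists_B hτ₁ hq₁ hm₁ hN₁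
  obtain ⟨X₂, B₂, r₂, hX₂, hB₂, hXN₂, hBy₂, hr₂⟩ := D.exists_B hτ₂ hq₂ hm₂ hN₂
  -- a prime above `p`
  obtain ⟨v₀, hv₀⟩ := exists_prime_over k hp.out
  -- integral exponents
  have hexp : ∀ B : k, B ≠ 0 → ∃ e : ℤ, v₀.valuation k B = exp e := by
    intro B hB
    have hne : v₀.valuation k B ≠ 0 := by rwa [Ne, map_eq_zero]
    exact ⟨log (v₀.valuation k B), (exp_log hne).symm⟩
  obtain ⟨e₁, he₁⟩ := hexp B₁ hB₁
  obtain ⟨e₂, he₂⟩ := hexp B₂ hB₂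
  obtain ⟨m, n, hmn, s, hs⟩ := select e₁ e₂
  refine ⟨m, n, hmn, ?_⟩
  have hy₁0 : y₁ ≠ 0 := fun h0 => hq₁ 0 (by rw [h0]; simp)
  have hy₂0 : y₂ ≠ 0 := fun h0 => hq₂ 0 (by rw [h0]; simp)
  have hσ₁0 : σ y₁ ≠ 0 := by rwa [Ne, map_eq_zero]
  have hσ₂0 : σ y₂ ≠ 0 := by rwa [Ne, map_eq_zero]
  have hm₁0 : (m₁ : L) ≠ 0 := by exact_mod_cast hm₁
  have hm₂0 : (m₂ : L) ≠ 0 := by exact_mod_cast hm₂
  set B : k := B₁ ^ m * B₂ ^ n with hBdef
  have hB : B ≠ 0 := mul_ne_zero (pow_ne_zero _ hB₁) (pow_ne_zero _ hB₂)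
  -- `B₁`, `B₂` are units times cubes in `W`
  have hUC : ∀ {y X : L} {B : k} {m : ℚ}, y ≠ 0 → σ y ≠ 0 →
      algebraMap k L B * (y ^ 2 * σ y) = ((m : L) * X) ^ 3 → UC (algebraMap L W y) →
      UC (algebraMap L W (σ y)) → UC (algebraMap k W B) := by
    intro y X B m hy hσy h u u'
    have e1 : algebraMap k L B = ((m : L) * X) ^ 3 / (y ^ 2 * σ y) := by
      field_simp
      linear_combination h
    rw [IsScalarTower.algebraMap_apply k L W, e1, map_div₀, map_pow, map_mul (algebraMap L W) (y ^ 2),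
      map_pow]
    exact (UC.cube _).div ((u.pow 2).mul u')
  have hUB : UC (algebraMap k W B) := by
    rw [hBdef, map_mul, map_pow, map_pow]
    exact ((hUC hy₁0 hσ₁0 hBy₁ u₁ u₁').pow m).mul ((hUC hy₂0 hσ₂0 hBy₂ u₂ u₂').pow n)
  have hout : ∀ v : HeightOneSpectrum (𝓞 k), ((3 * p : ℕ) : 𝓞 k) ∉ v.asIdeal →
      ∃ g : ℤᵐ⁰, v.valuation k B = g ^ 3 := by
    intro v hv
    obtain ⟨u, g, hug⟩ := hUB
    exact val_cube_of_good gk hug v hv
  have hr : B * c B = ((r₁ ^ m * r₂ ^ n : ℚ) : k) ^ 3 := by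
    rw [hBdef, map_mul, map_pow, map_pow]
    calc B₁ ^ m * B₂ ^ n * (c B₁ ^ m * c B₂ ^ n) = (B₁ * c B₁) ^ m * (B₂ * c B₂) ^ n := by ring
      _ = _ := by rw [hr₁, hr₂]; push_cast; ring
  have h₀ : ∃ g : ℤᵐ⁰, v₀.valuation k B = g ^ 3 := by
    refine ⟨exp s, ?_⟩
    rw [hBdef, map_mul, map_pow, map_pow, he₁, he₂, ← exp_nsmul, ← exp_nsmul, ← exp_nsmul, ← exp_add]
    congr 1
  have hall := all_cubes D.hω D.cω hp.out hB hr hout v₀ hv₀ h₀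
  obtain ⟨φ, hφ⟩ := exists_emb (p := p) D.hω hp1
  have hp0 : (p : ℚ_[p]) ≠ 0 := by exact_mod_cast hp.out.ne_zero
  have hloc : ∀ {X : L} {B : k}, X ≠ 0 → X * σ X * σ (σ X) = algebraMap k L B →
      ∃ (a : ℕ) (t : ℚ_[p]), t ≠ 0 ∧ φ B = (p : ℚ_[p]) ^ a * t ^ 3 := by
    intro X B hX hXB
    obtain ⟨a, b, d, hXe, hn⟩ := D.norm_eq X
    have hBn : B = nf p a b d := (algebraMap k L).injective (hXB.symm.trans hn)
    have hne : φ a ≠ 0 ∨ φ b ≠ 0 ∨ φ d ≠ 0 := by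
      by_contra hcon
      push Not at hcon
      obtain ⟨ha, hb, hd⟩ := hcon
      rw [map_eq_zero] at ha hb hd
      apply hX
      rw [hXe, ha, hb, hd]
      simp
    obtain ⟨j, t, ht, h⟩ := nf_padic h3 (φ a) (φ b) (φ d) hne
    refine ⟨j, t, ht, ?_⟩
    rw [hBn, ← h]
    simp only [nf, map_add, map_sub, map_mul, map_pow, map_natCast, map_ofNat]
  have hBp : ∃ (a : ℤ) (t : ℚ_[p]), t ≠ 0 ∧ φ B = (p : ℚ_[p]) ^ a * t ^ 3 := by
    obtain ⟨a₁, t₁, ht₁, h₁⟩ := hloc hX₁ hXN₁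
    obtain ⟨a₂, t₂, ht₂, h₂⟩ := hloc hX₂ hXN₂
    refine ⟨((a₁ * m + a₂ * n : ℕ) : ℤ), t₁ ^ m * t₂ ^ n,
      mul_ne_zero (pow_ne_zero _ ht₁) (pow_ne_zero _ ht₂), ?_⟩
    rw [hBdef, map_mul, map_pow, map_pow, h₁, h₂, zpow_natCast]
    ring
  obtain ⟨d, hd⟩ := eq_cube D.hω h9 h3 hB hall φ hφ hBp
  have hd0 : d ≠ 0 := by
    rintro rfl
    rw [hd] at hB
    simp at hB
  have hdL : algebraMap k L d ≠ 0 := by rwa [Ne, map_eq_zero]
  have hdB : algebraMap k L d ^ 3 = algebraMap k L B₁ ^ m * algebraMap k L B₂ ^ n := by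
    rw [← map_pow, ← hd, hBdef, map_mul, map_pow, map_pow]
  -- the cube root of `σ y / y`
  set y : L := y₁ ^ m * y₂ ^ n with hy
  have hy0 : y ≠ 0 := mul_ne_zero (pow_ne_zero _ hy₁0) (pow_ne_zero _ hy₂0)
  set x₀ : L := ((m₁ : L) * X₁) ^ m * ((m₂ : L) * X₂) ^ n / algebraMap k L d with hx₀
  have hx₀3 : x₀ ^ 3 = y ^ 2 * σ y := by
    rw [hx₀, div_pow, hdB]
    have e1 : (((m₁ : L) * X₁) ^ m * ((m₂ : L) * X₂) ^ n) ^ 3 =
        (algebraMap k L B₁ * (y₁ ^ 2 * σ y₁)) ^ m * (algebraMap k L B₂ * (y₂ ^ 2 * σ y₂)) ^ n := by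
      rw [hBy₁, hBy₂]
      ring
    rw [e1, hy, map_mul, map_pow, map_pow]
    have hb1 : algebraMap k L B₁ ≠ 0 := by rwa [Ne, map_eq_zero]
    have hb2 : algebraMap k L B₂ ≠ 0 := by rwa [Ne, map_eq_zero]
    field_simp
    ring
  have hNy : y * σ y * σ (σ y) = ((m₁ : L) ^ m * (m₂ : L) ^ n) ^ 3 := by
    rw [hy]
    simp only [map_mul, map_pow]
    calc y₁ ^ m * y₂ ^ n * (σ y₁ ^ m * σ y₂ ^ n) * (σ (σ y₁) ^ m * σ (σ y₂) ^ n) =
        (y₁ * σ y₁ * σ (σ y₁)) ^ m * (y₂ * σ y₂ * σ (σ y₂)) ^ n := by ring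
      _ = _ := by rw [hN₁, hN₂]; ring
  have hNx : x₀ * σ x₀ * σ (σ x₀) = ((m₁ : L) ^ m * (m₂ : L) ^ n) ^ 3 := by
    rw [hx₀]
    simp only [map_div₀, map_mul, map_pow, map_ratCast, D.σk]
    have e1 : ((m₁ : L) * X₁) ^ m * ((m₂ : L) * X₂) ^ n / algebraMap k L d *
        (((m₁ : L) * σ X₁) ^ m * ((m₂ : L) * σ X₂) ^ n / algebraMap k L d) *
        (((m₁ : L) * σ (σ X₁)) ^ m * ((m₂ : L) * σ (σ X₂)) ^ n / algebraMap k L d) =
        ((m₁ : L) ^ m * (m₂ : L) ^ n) ^ 3 * ((X₁ * σ X₁ * σ (σ X₁)) ^ m * (X₂ * σ X₂ * σ (σ X₂)) ^ n) /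
          algebraMap k L d ^ 3 := by
      field_simp
      ring
    rw [e1, hXN₁, hXN₂, ← hdB]
    field_simp
  have hm12 : ((m₁ : L) ^ m * (m₂ : L) ^ n) ≠ 0 :=
    mul_ne_zero (pow_ne_zero _ hm₁0) (pow_ne_zero _ hm₂0)
  have hσy0 : σ y ≠ 0 := by rwa [Ne, map_eq_zero]
  have hσσy0 : σ (σ y) ≠ 0 := by rwa [Ne, map_eq_zero]
  obtain ⟨z, hz0, hz⟩ := D.hilbert90 (v := x₀ / y) (by
    simp only [map_div₀]
    have : x₀ / y * (σ x₀ / σ y) * (σ (σ x₀) / σ (σ y)) =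
        (x₀ * σ x₀ * σ (σ x₀)) / (y * σ y * σ (σ y)) := by
      field_simp
    rw [this, hNx, hNy, div_self (pow_ne_zero _ hm12)])
  have hz3 : σ z ^ 3 * y = σ y * z ^ 3 := by
    rw [hz, mul_pow, div_pow, hx₀3]
    field_simp
  have hσz0 : σ z ≠ 0 := by rwa [Ne, map_eq_zero]
  obtain ⟨c', hc'⟩ := D.σ_fixed (x := y / z ^ 3) (by
    rw [map_div₀, map_pow]
    rw [div_eq_div_iff (pow_ne_zero _ hσz0) (pow_ne_zero _ hz0)]
    linear_combination -hz3)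
  have hyc : y = algebraMap k L c' * z ^ 3 := by
    rw [← hc']
    field_simp
  have hc'0 : c' ≠ 0 := by
    rintro rfl
    rw [hyc] at hy0
    simp at hy0
  have hτy : τ y = y := by
    rw [hy, map_mul, map_pow, map_pow, hτ₁, hτ₂]
  obtain ⟨n₀, hn₀⟩ := mul_conj D.hω D.cω c'
  have hcc0 : c c' ≠ 0 := by rwa [Ne, map_eq_zero]
  refine ⟨n₀, z * τ z, ?_, ?_, ?_, ?_⟩
  · rintro rfl
    have : c' * c c' ≠ 0 := mul_ne_zero hc'0 hcc0
    rw [hn₀] at this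
    simp at this
  · refine mul_ne_zero hz0 ?_
    rwa [Ne, map_eq_zero]
  · rw [map_mul, D.ττ, mul_comm]
  · calc y ^ 2 = y * τ y := by rw [hτy]; ring
      _ = (algebraMap k L c' * z ^ 3) * τ (algebraMap k L c' * z ^ 3) := by rw [← hyc]
      _ = algebraMap k L (c' * c c') * (z * τ z) ^ 3 := by
        rw [map_mul, map_pow, D.τk, map_mul]
        ring
      _ = _ := by rw [hn₀]; simp

end Data

end Pool.Agent.K7.H55.W
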