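import Mathlib

/-!
Elementary congruences.
-/

set_option autoImplicit false

namespace Pool.Agent.K7.H55.W

theorem three_dvd_cube_sub (A : ℤ) : (3 : ℤ) ∣ A ^ 3 - A := by
  have h := Int.emod_emod_of_dvd A (dvd_refl 3)
  have hA : A % 3 = 0 ∨ A % 3 = 1 ∨ A % 3 = 2 := by omega
  apply Int.dvd_of_emod_eq_zero
  rcases hA with h | h | h <;> simp [pow_succ, Int.sub_emod, Int.mul_emod, h]

/-- the integrality argument at `3` -/
theorem three_dvd_coords {p A B E : ℤ} (hp : p % 9 = 4 ∨ p % 9 = 7)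
    (h1 : A ^ 3 + p * B ^ 3 + p ^ 2 * E ^ 3 - 3 * p * A * B * E = 81)
    (h2 : (3 : ℤ) ∣ A ^ 2 - p * B * E) : (3 : ℤ) ∣ A ∧ (3 : ℤ) ∣ B ∧ (3 : ℤ) ∣ E := by
  have hp3 : (3 : ℤ) ∣ p - 1 := by omega
  obtain ⟨t, ht⟩ := hp3
  have hp' : p = 3 * t + 1 := by linarith
  subst hp'
  -- sum modulo three
  have h3 : (3 : ℤ) ∣ A + B + E := by
    obtain ⟨a, ha⟩ := three_dvd_cube_sub A
    obtain ⟨b, hb⟩ := three_dvd_cube_sub B
    obtain ⟨e, he⟩ := three_dvd_cube_sub E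
    refine ⟨27 - a - b - e - t * B ^ 3 - (3 * t ^ 2 + 2 * t) * E ^ 3 + (3 * t + 1) * A * B * E, ?_⟩
    linear_combination h1 - ha - hb - he
  have h4 : (3 : ℤ) ∣ A ^ 2 - B * E := by
    obtain ⟨c, hc⟩ := h2
    exact ⟨c + t * B * E, by linear_combination hc⟩
  -- all congruent modulo three
  have hA9 : A % 3 = 0 ∨ A % 3 = 1 ∨ A % 3 = 2 := by omega
  have hB9 : B % 3 = 0 ∨ B % 3 = 1 ∨ B % 3 = 2 := by omega
  have hE9 : E % 3 = 0 ∨ E % 3 = 1 ∨ E % 3 = 2 := by omega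
  have h4' : (A % 3 * (A % 3) - B % 3 * (E % 3)) % 3 = 0 := by
    have := Int.emod_eq_zero_of_dvd h4
    rw [pow_two, Int.sub_emod, Int.mul_emod A A, Int.mul_emod B E] at this
    rw [Int.sub_emod]
    exact this
  have h3' : (A % 3 + B % 3 + E % 3) % 3 = 0 := by omega
  have hcong : A % 3 = B % 3 ∧ B % 3 = E % 3 := by
    rcases hA9 with hA | hA | hA <;> rcases hB9 with hB | hB | hB <;>
      rcases hE9 with hE | hE | hE <;> rw [hA, hB, hE] at h3' h4' <;> omega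
  by_cases hA0 : A % 3 = 0
  · omega
  exfalso
  obtain ⟨b, hb⟩ : (3 : ℤ) ∣ B - A := by omega
  obtain ⟨e, he⟩ : (3 : ℤ) ∣ E - A := by omega
  have hB : B = A + 3 * b := by linarith
  have hE : E = A + 3 * e := by linarith
  clear hcong h3' h4' hA9 hB9 hE9 h3 h4 h2 hb he
  subst hB hE
  have h27 : (3 : ℤ) ∣ t * t * (A * A * A) := by
    refine ⟨3 - (A ^ 2 * (3 * t + 1) * e * t + A * ((3 * t + 1) * b ^ 2 + (3 * t + 1) ^ 2 * e ^ 2 -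
      (3 * t + 1) * b * e) + (3 * t + 1) * b ^ 3 + (3 * t + 1) ^ 2 * e ^ 3), ?_⟩
    linarith
  have h3p : Prime (3 : ℤ) := Int.prime_three
  have ht3 : ¬ (3 : ℤ) ∣ t := by omega
  have hA3 : ¬ (3 : ℤ) ∣ A := by omega
  rcases h3p.dvd_or_dvd h27 with h | h
  · rcases h3p.dvd_or_dvd h with h | h <;> exact ht3 h
  · rcases h3p.dvd_or_dvd h with h | h
    · rcases h3p.dvd_or_dvd h with h | h <;> exact hA3 h
    · exact hA3 h

theorem prime_dvd_coords {p : ℕ} (hp : p.Prime) {A B E : ℤ}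
    (h : (p : ℤ) ^ 2 * A ^ 3 + B ^ 3 + p * E ^ 3 - 3 * p * A * B * E = 81 * p ^ 2) :
    (p : ℤ) ∣ B ∧ (p : ℤ) ∣ E := by
  have hpp : Prime (p : ℤ) := Nat.prime_iff_prime_int.mp hp
  have hp0 : (p : ℤ) ≠ 0 := hpp.ne_zero
  have hB : (p : ℤ) ∣ B := by
    apply hpp.dvd_of_dvd_pow (n := 3)
    exact ⟨81 * p - p * A ^ 3 - E ^ 3 + 3 * A * B * E, by linear_combination h⟩
  refine ⟨hB, ?_⟩
  obtain ⟨B₁, rfl⟩ := hB
  have h2 : (p : ℤ) * A ^ 3 + (p : ℤ) ^ 2 * B₁ ^ 3 + E ^ 3 - 3 * p * A * B₁ * E = 81 * p := by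
    apply mul_left_cancel₀ hp0
    linear_combination h
  apply hpp.dvd_of_dvd_pow (n := 3)
  exact ⟨81 - A ^ 3 - p * B₁ ^ 3 + 3 * A * B₁ * E, by linear_combination h2⟩

theorem int_coords {p : ℕ} (hp : p.Prime) (h9 : p % 9 = 4 ∨ p % 9 = 7) {a b d : ℚ} {A B E F : ℤ}
    (hA : 3 * a = A) (hB : 3 * p * b = B) (hE : 3 * p * d = E)
    (hF : 3 * a ^ 2 - 3 * p * b * d = F)
    (hN : a ^ 3 + p * b ^ 3 + p ^ 2 * d ^ 3 - 3 * p * a * b * d = 3) :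
    ∃ x y z : ℤ, a = x ∧ b = y ∧ d = z := by
  have hp0 : (p : ℚ) ≠ 0 := by exact_mod_cast hp.ne_zero
  have e1 : (p : ℤ) ^ 2 * A ^ 3 + B ^ 3 + p * E ^ 3 - 3 * p * A * B * E = 81 * p ^ 2 := by
    have : (p : ℚ) ^ 2 * (A : ℚ) ^ 3 + (B : ℚ) ^ 3 + p * (E : ℚ) ^ 3 - 3 * p * A * B * E =
        81 * p ^ 2 := by
      rw [← hA, ← hB, ← hE]
      linear_combination 27 * (p : ℚ) ^ 2 * hN
    exact_mod_cast this
  obtain ⟨⟨B₁, rfl⟩, ⟨E₁, rfl⟩⟩ := prime_dvd_coords hp e1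
  have hB' : 3 * b = B₁ := by
    apply mul_left_cancel₀ hp0
    push_cast at hB
    linear_combination hB
  have hE' : 3 * d = E₁ := by
    apply mul_left_cancel₀ hp0
    push_cast at hE
    linear_combination hE
  have e2 : A ^ 3 + (p : ℤ) * B₁ ^ 3 + (p : ℤ) ^ 2 * E₁ ^ 3 - 3 * (p : ℤ) * A * B₁ * E₁ = 81 := by
    have : (A : ℚ) ^ 3 + (p : ℚ) * B₁ ^ 3 + (p : ℚ) ^ 2 * E₁ ^ 3 - 3 * (p : ℚ) * A * B₁ * E₁ = 81 := by
      rw [← hA, ← hB', ← hE']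
      linear_combination 27 * hN
    exact_mod_cast this
  have e3 : (3 : ℤ) ∣ A ^ 2 - p * B₁ * E₁ := by
    refine ⟨F, ?_⟩
    have : (A : ℚ) ^ 2 - p * B₁ * E₁ = 3 * F := by
      rw [← hA, ← hB', ← hE', ← hF]
      ring
    exact_mod_cast this
  obtain ⟨⟨x, hx⟩, ⟨y, hy⟩, ⟨z, hz⟩⟩ := three_dvd_coords (p := (p : ℤ)) (by omega) e2 e3
  refine ⟨x, y, z, ?_, ?_, ?_⟩
  · have : (A : ℚ) = 3 * x := by exact_mod_cast hx
    linarith
  · have : (B₁ : ℚ) = 3 * y := by exact_mod_cast hy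
    linarith
  · have : (E₁ : ℚ) = 3 * z := by exact_mod_cast hz
    linarith

end Pool.Agent.K7.H55.W
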