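import Mathlib
import Pool.Agent.K7.H55.W.Descent

/-!
The rational numbers whose valuations outside `3 p` are cubes.
-/

set_option autoImplicit false
set_option linter.unusedSectionVars false

namespace Pool.Agent.K7.H55.W

open NumberField IsDedekindDomain WithZero

theorem prime_nat {q : ℕ} (hq : q.Prime) : Prime (q : 𝓞 ℚ) := by
  have h : Prime ((q : ℤ)) := Nat.prime_iff_prime_int.mp hq
  rw [← MulEquiv.prime_iff (Rat.ringOfIntegersEquiv : 𝓞 ℚ ≃* ℤ)]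
  have e : (Rat.ringOfIntegersEquiv : 𝓞 ℚ ≃* ℤ) (q : 𝓞 ℚ) = (q : ℤ) := map_natCast Rat.ringOfIntegersEquiv q
  rw [e]
  exact h

theorem asIdeal_eq {q : ℕ} (hq : q.Prime) {v : HeightOneSpectrum (𝓞 ℚ)}
    (hv : (q : 𝓞 ℚ) ∈ v.asIdeal) : v.asIdeal = Ideal.span {(q : 𝓞 ℚ)} := by
  have hp := prime_nat hq
  have hmax : (Ideal.span {(q : 𝓞 ℚ)}).IsMaximal := by
    have h1 : (Ideal.span {(q : 𝓞 ℚ)}).IsPrime := (Ideal.span_singleton_prime hp.ne_zero).mpr hp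
    exact h1.isMaximal (by rw [Ne, Ideal.span_singleton_eq_bot]; exact hp.ne_zero)
  symm
  apply hmax.eq_of_le v.isPrime.ne_top
  rw [Ideal.span_singleton_le_iff_mem]
  exact hv

theorem val_self {q : ℕ} (hq : q.Prime) {v : HeightOneSpectrum (𝓞 ℚ)}
    (hv : (q : 𝓞 ℚ) ∈ v.asIdeal) : v.valuation ℚ (q : ℚ) = exp (-1 : ℤ) := by
  have h : v.valuation ℚ (algebraMap (𝓞 ℚ) ℚ (q : 𝓞 ℚ)) = v.intValuation (q : 𝓞 ℚ) :=
    HeightOneSpectrum.valuation_of_algebraMap v _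
  rw [map_natCast] at h
  rw [h]
  exact HeightOneSpectrum.intValuation_singleton v (prime_nat hq).ne_zero (asIdeal_eq hq hv)

theorem val_other {q : ℕ} {v : HeightOneSpectrum (𝓞 ℚ)}
    (hv : (q : 𝓞 ℚ) ∉ v.asIdeal) : v.valuation ℚ (q : ℚ) = 1 := by
  have h : v.valuation ℚ (algebraMap (𝓞 ℚ) ℚ (q : 𝓞 ℚ)) = v.intValuation (q : 𝓞 ℚ) :=
    HeightOneSpectrum.valuation_of_algebraMap v _
  rw [map_natCast] at h
  rw [h, HeightOneSpectrum.intValuation_eq_one_iff]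
  exact hv

theorem unit_rat (u : (𝓞 ℚ)ˣ) : ∃ s : ℚ, algebraMap (𝓞 ℚ) ℚ (u : 𝓞 ℚ) = s ^ 3 := by
  have h := Int.units_eq_one_or (Units.map (Rat.ringOfIntegersEquiv : 𝓞 ℚ →* ℤ) u)
  have hu : (Rat.ringOfIntegersEquiv (u : 𝓞 ℚ) : ℤ) = 1 ∨ (Rat.ringOfIntegersEquiv (u : 𝓞 ℚ) : ℤ) = -1 := by
    rcases h with h | h
    · left
      exact congrArg Units.val h
    · right
      exact congrArg Units.val h
  rcases hu with h | h
  · refine ⟨1, ?_⟩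
    have : (u : 𝓞 ℚ) = 1 := Rat.ringOfIntegersEquiv.injective (by rw [h, map_one])
    rw [this]
    simp
  · refine ⟨-1, ?_⟩
    have : (u : 𝓞 ℚ) = -1 := Rat.ringOfIntegersEquiv.injective (by rw [h, map_neg, map_one])
    rw [this]
    norm_num

theorem rat_struct {p : ℕ} (hp : p.Prime) (h3 : p ≠ 3) (W : Type) [Field W] [NumberField W]
    (gQ : Good ℚ W (3 * p)) {n₀ : ℚ} (hn₀ : n₀ ≠ 0) (hUC : UC (n₀ : W)) :
    ∃ (a b : ℤ) (d : ℚ), n₀ = 3 ^ a * (p : ℚ) ^ b * d ^ 3 := by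
  have hpid : IsPrincipalIdealRing (𝓞 ℚ) :=
    IsPrincipalIdealRing.of_surjective (Rat.ringOfIntegersEquiv.symm : ℤ →+* 𝓞 ℚ)
      Rat.ringOfIntegersEquiv.symm.surjective
  have hout : ∀ v : HeightOneSpectrum (𝓞 ℚ), ((3 * p : ℕ) : 𝓞 ℚ) ∉ v.asIdeal →
      ∃ g : ℤᵐ⁰, v.valuation ℚ n₀ = g ^ 3 := by
    intro v hv
    obtain ⟨u, g, hug⟩ := hUC
    exact val_cube_of_good gQ (u := u) (y := g) (by rw [← hug]; simp) v hv
  obtain ⟨v3, hv3⟩ := exists_prime_over ℚ Nat.prime_three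
  obtain ⟨vp, hvp⟩ := exists_prime_over ℚ hp
  have hnot : ∀ v : HeightOneSpectrum (𝓞 ℚ), ((3 : ℕ) : 𝓞 ℚ) ∈ v.asIdeal → (p : 𝓞 ℚ) ∉ v.asIdeal := by
    intro v h1 h2
    have hcop : IsCoprime ((3 : ℕ) : ℤ) (p : ℤ) := by
      rw [Nat.isCoprime_iff_coprime]
      exact (Nat.coprime_primes Nat.prime_three hp).mpr (Ne.symm h3)
    obtain ⟨x, y, hxy⟩ := hcop
    apply v.isPrime.ne_top
    rw [Ideal.eq_top_iff_one]
    have : (1 : 𝓞 ℚ) = (x : 𝓞 ℚ) * ((3 : ℕ) : 𝓞 ℚ) + (y : 𝓞 ℚ) * (p : 𝓞 ℚ) := by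
      have := congrArg (fun t : ℤ => (t : 𝓞 ℚ)) hxy
      simp only [Int.cast_add, Int.cast_mul, Int.cast_natCast, Int.cast_one] at this
      exact this.symm
    rw [this]
    exact v.asIdeal.add_mem (v.asIdeal.mul_mem_left _ h1) (v.asIdeal.mul_mem_left _ h2)
  have hne : ∀ v : HeightOneSpectrum (𝓞 ℚ), v.valuation ℚ n₀ ≠ 0 := by
    intro v
    rwa [Ne, map_eq_zero]
  set a := log (v3.valuation ℚ n₀) with ha
  set b := log (vp.valuation ℚ n₀) with hb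
  have hav : v3.valuation ℚ n₀ = exp a := (exp_log (hne v3)).symm
  have hbv : vp.valuation ℚ n₀ = exp b := (exp_log (hne vp)).symm
  have hp0 : (p : ℚ) ≠ 0 := by exact_mod_cast hp.ne_zero
  set n₁ : ℚ := n₀ * ((3 : ℕ) : ℚ) ^ a * (p : ℚ) ^ b with hn₁
  have hn₁0 : n₁ ≠ 0 :=
    mul_ne_zero (mul_ne_zero hn₀ (zpow_ne_zero _ (by norm_num))) (zpow_ne_zero _ hp0)
  have hall : ∀ v : HeightOneSpectrum (𝓞 ℚ), ∃ g : ℤᵐ⁰, v.valuation ℚ n₁ = g ^ 3 := by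
    intro v
    by_cases h3v : ((3 : ℕ) : 𝓞 ℚ) ∈ v.asIdeal
    · have hv : v = v3 := by
        apply HeightOneSpectrum.ext
        rw [asIdeal_eq Nat.prime_three h3v, asIdeal_eq Nat.prime_three hv3]
      refine ⟨1, ?_⟩
      rw [hn₁, map_mul, map_mul, map_zpow₀, map_zpow₀, val_other (hnot v h3v), one_zpow,
        val_self Nat.prime_three h3v, hv, hav, ← exp_zsmul, ← exp_add]
      simp
    · by_cases hpv : (p : 𝓞 ℚ) ∈ v.asIdeal
      · have hv : v = vp := by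
          apply HeightOneSpectrum.ext
          rw [asIdeal_eq hp hpv, asIdeal_eq hp hvp]
        refine ⟨1, ?_⟩
        rw [hn₁, map_mul, map_mul, map_zpow₀, map_zpow₀, val_other h3v, one_zpow,
          val_self hp hpv, hv, hbv, mul_one, ← exp_zsmul, ← exp_add]
        simp
      · obtain ⟨g, hg⟩ := hout v (by
          rw [Nat.cast_mul]
          intro h
          rcases v.isPrime.mem_or_mem h with h | h
          · exact h3v h
          · exact hpv h)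
        refine ⟨g, ?_⟩
        rw [hn₁, map_mul, map_mul, map_zpow₀, map_zpow₀, val_other h3v, val_other hpv, one_zpow,
          one_zpow, mul_one, mul_one, hg]
  obtain ⟨u, c, huc⟩ := eq_unit_mul_cube (R := 𝓞 ℚ) n₁ hn₁0 hall
  obtain ⟨s, hs⟩ := unit_rat u
  refine ⟨-a, -b, s * c, ?_⟩
  have h5 : n₀ * ((3 : ℕ) : ℚ) ^ a * (p : ℚ) ^ b = (s * c) ^ 3 := by
    rw [← hn₁, huc, hs]
    ring
  rw [← h5, zpow_neg, zpow_neg]
  have h3a : (3 : ℚ) ^ a ≠ 0 := zpow_ne_zero _ (by norm_num)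
  have hpb : (p : ℚ) ^ b ≠ 0 := zpow_ne_zero _ hp0
  push_cast
  field_simp

namespace Data

variable {k L : Type} [Field k] [NumberField k] [IsCyclotomicExtension {3} ℚ k]
  [Field L] [NumberField L] [Algebra k L] {p : ℕ} {ω : k} {θ : L} {c : k →ₐ[ℚ] k} {σ τ : L →+* L}
  (D : Data k L p ω θ c σ τ)

include D

/-- Kummer theory for two elements: a combination is a power of three times a cube -/
theorem descent [hp : Fact p.Prime] (h9 : ¬ 9 ∣ p - 1) (h3 : p ≠ 3) (hp1 : p % 3 = 1)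
    (W : Type) [Field W] [NumberField W] [Algebra L W] [Algebra k W] [IsScalarTower k L W]
    (gk : Good k W (3 * p)) (gQ : Good ℚ W (3 * p))
    {y₁ y₂ : L} (hτ₁ : τ y₁ = y₁) (hτ₂ : τ y₂ = y₂) (hq₁ : ∀ q : ℚ, y₁ ≠ (q : L))
    (hq₂ : ∀ q : ℚ, y₂ ≠ (q : L)) {m₁ m₂ : ℚ} (hm₁ : m₁ ≠ 0) (hm₂ : m₂ ≠ 0)
    (hN₁ : y₁ * σ y₁ * σ (σ y₁) = (m₁ : L) ^ 3) (hN₂ : y₂ * σ y₂ * σ (σ y₂) = (m₂ : L) ^ 3)
    (u₁ : UC (algebraMap L W y₁)) (u₁' : UC (algebraMap L W (σ y₁)))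
    (u₂ : UC (algebraMap L W y₂)) (u₂' : UC (algebraMap L W (σ y₂))) :
    ∃ m n : ℕ, ¬ (3 ∣ m ∧ 3 ∣ n) ∧ ∃ (a : ℤ) (κ : L), κ ≠ 0 ∧ τ κ = κ ∧
      y₁ ^ m * y₂ ^ n = (3 : L) ^ a * κ ^ 3 := by
  obtain ⟨m, n, hmn, n₀, κ, hn₀, hκ, hτκ, h⟩ := D.descent_aux h9 h3 hp1 W gk hτ₁ hτ₂ hq₁ hq₂ hm₁ hm₂
    hN₁ hN₂ u₁ u₁' u₂ u₂'
  refine ⟨m, n, hmn, ?_⟩
  have hy₁0 : y₁ ≠ 0 := fun h0 => hq₁ 0 (by rw [h0]; simp)
  have hy₂0 : y₂ ≠ 0 := fun h0 => hq₂ 0 (by rw [h0]; simp)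
  set y := y₁ ^ m * y₂ ^ n with hy
  have hy0 : y ≠ 0 := mul_ne_zero (pow_ne_zero _ hy₁0) (pow_ne_zero _ hy₂0)
  have hτy : τ y = y := by
    rw [hy, map_mul, map_pow, map_pow, hτ₁, hτ₂]
  have hUC : UC (n₀ : W) := by
    have e1 : (n₀ : L) = y ^ 2 / κ ^ 3 := by
      field_simp
      exact h.symm
    have e2 : (n₀ : W) = algebraMap L W (n₀ : L) := by simp
    rw [e2, e1, map_div₀, map_pow, map_pow, hy, map_mul, map_pow, map_pow]
    exact (((u₁.pow m).mul (u₂.pow n)).pow 2).div (UC.cube _)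
  obtain ⟨a, b, d, habd⟩ := rat_struct hp.out h3 W gQ hn₀ hUC
  have hd0 : d ≠ 0 := by
    rintro rfl
    rw [habd] at hn₀
    simp at hn₀
  have hdL : (d : L) ≠ 0 := by exact_mod_cast hd0
  have hθ0 : θ ≠ 0 := by
    intro h0
    have := D.θ3
    rw [h0] at this
    have hp0 : (p : L) ≠ 0 := by exact_mod_cast hp.out.ne_zero
    apply hp0
    rw [← this]
    ring
  have hn₀L : (n₀ : L) = 3 ^ a * (θ ^ b * d) ^ 3 := by
    rw [habd]
    push_cast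
    rw [← D.θ3, mul_pow, ← zpow_natCast (θ ^ b) 3, ← zpow_natCast θ 3, ← zpow_mul, ← zpow_mul,
      mul_comm b]
    ring
  have h3a : (3 : L) ^ a ≠ 0 := zpow_ne_zero _ (by norm_num)
  refine ⟨-a, y / (θ ^ b * d * κ), ?_, ?_, ?_⟩
  · exact div_ne_zero hy0 (mul_ne_zero (mul_ne_zero (zpow_ne_zero _ hθ0) hdL) hκ)
  · simp only [map_div₀, map_mul, map_zpow₀, map_ratCast, D.τθ, hτκ, hτy]
  · have h6 : y ^ 2 = 3 ^ a * (θ ^ b * d * κ) ^ 3 := by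
      rw [h, hn₀L]
      ring
    have hz : θ ^ b * (d : L) * κ ≠ 0 := mul_ne_zero (mul_ne_zero (zpow_ne_zero _ hθ0) hdL) hκ
    rw [zpow_neg, div_pow]
    generalize θ ^ b * (d : L) * κ = z at h6 hz ⊢
    generalize (3 : L) ^ a = A at h6 h3a ⊢
    clear_value y
    field_simp
    linear_combination -h6

end Data

end Pool.Agent.K7.H55.W
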