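import Mathlib
import Pool.Agent.K7.H55.W.RatPart
import Pool.Agent.K7.H55.W.Elem
import Pool.Agent.K7.H55.W.Loc

/-!
The end of the argument.
-/

set_option autoImplicit false
set_option linter.unusedSectionVars false

namespace Pool.Agent.K7.H55.W

open NumberField IsDedekindDomain WithZero

/-- the norm as a function -/
def Nm {L : Type} [Field L] (σ : L →+* L) : L →*₀ L where
  toFun x := x * σ x * σ (σ x)
  map_zero' := by simp
  map_one' := by simp
  map_mul' x y := by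
    simp only [map_mul]
    ring

theorem Nm_apply {L : Type} [Field L] (σ : L →+* L) (x : L) : Nm σ x = x * σ x * σ (σ x) := rfl

theorem Nm_rat {L : Type} [Field L] (σ : L →+* L) (q : ℚ) : Nm σ (q : L) = (q : L) ^ 3 := by
  rw [Nm_apply]
  simp only [map_ratCast]
  ring

theorem Nm_zero {L : Type} [Field L] (σ : L →+* L) : Nm σ (0 : L) = 0 := by
  rw [Nm_apply]
  simp

theorem rat_int_of_integral {L : Type} [Field L] [CharZero L] {q : ℚ} (h : IsIntegral ℤ (q : L)) :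
    ∃ n : ℤ, q = n := by
  have h2 : IsIntegral ℤ q := by
    have e : (q : L) = algebraMap ℚ L q := by simp
    rw [e] at h
    exact (isIntegral_algebraMap_iff (algebraMap ℚ L).injective).mp h
  obtain ⟨n, hn⟩ := IsIntegrallyClosed.isIntegral_iff.mp h2
  exact ⟨n, by rw [← hn]; simp⟩

namespace Data

variable {k L : Type} [Field k] [NumberField k] [IsCyclotomicExtension {3} ℚ k]
  [Field L] [NumberField L] [Algebra k L] {p : ℕ} {ω : k} {θ : L} {c : k →ₐ[ℚ] k} {σ τ : L →+* L}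
  (D : Data k L p ω θ c σ τ)

include D

theorem Nm_coord (a b d : ℚ) :
    Nm σ ((a : L) + (b : L) * θ + (d : L) * θ ^ 2) = ((nf p a b d : ℚ) : L) := by
  have h := D.mul_three (a : k) (b : k) (d : k)
  have h1 := D.σ_apply (a : k) (b : k) (d : k)
  have h2 := D.σσ_apply (a : k) (b : k) (d : k)
  rw [← h1, ← h2] at h
  simp only [map_ratCast] at h
  rw [Nm_apply, h]
  simp only [nf]
  push_cast
  simp only [map_ofNat]

theorem irr {a b d : ℚ} (h : (a : L) + (b : L) * θ + (d : L) * θ ^ 2 = 0) :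
    a = 0 ∧ b = 0 ∧ d = 0 := by
  have h1 := D.uniq (a : k) (b : k) (d : k) (by simpa using h)
  refine ⟨?_, ?_, ?_⟩
  · exact_mod_cast h1.1
  · exact_mod_cast h1.2.1
  · exact_mod_cast h1.2.2

theorem θ_ne (hp : p ≠ 0) : θ ≠ 0 := by
  intro h0
  have := D.θ3
  rw [h0] at this
  have hp0 : (p : L) ≠ 0 := by exact_mod_cast hp
  apply hp0
  rw [← this]
  ring

/-- integral elements of norm three fixed by `τ` -/
theorem integral_coords (hp : p.Prime) (h9 : p % 9 = 4 ∨ p % 9 = 7) {x : L} (hx : τ x = x)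
    (hi : IsIntegral ℤ x) (hN : Nm σ x = 3) :
    ∃ a b d : ℤ, a ^ 3 + (p : ℤ) * b ^ 3 + (p : ℤ) ^ 2 * d ^ 3 - 3 * (p : ℤ) * a * b * d = 3 := by
  obtain ⟨a, b, d, rfl⟩ := D.τ_fixed hx
  rw [D.Nm_coord] at hN
  have hN' : nf p a b d = 3 := by exact_mod_cast hN
  have hr := D.W_rel
  have h3 := D.θ3
  have hσθ := D.σθ
  have hσk := D.σk ω
  have iθ : IsIntegral ℤ θ := by
    apply IsIntegral.of_pow (n := 3) (by norm_num)
    rw [h3]
    exact isIntegral_algebraMap (R := ℤ) (x := (p : ℤ)) |> (by simpa using ·)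
  have is : ∀ {y : L}, IsIntegral ℤ y → IsIntegral ℤ (σ y) := fun hy => map_isIntegral_int σ hy
  -- traces
  have tr : ∀ {y : L}, IsIntegral ℤ y → IsIntegral ℤ (y + σ y + σ (σ y)) := fun hy =>
    ((hy.add (is hy)).add (is (is hy)))
  have trc : ∀ a b d : ℚ, ((a : L) + (b : L) * θ + (d : L) * θ ^ 2) +
      σ ((a : L) + (b : L) * θ + (d : L) * θ ^ 2) +
      σ (σ ((a : L) + (b : L) * θ + (d : L) * θ ^ 2)) = ((3 * a : ℚ) : L) := by
    intro a b d
    simp only [map_add, map_mul, map_pow, map_ratCast, hσθ, hσk]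
    push_cast
    generalize algebraMap k L ω = w at hr
    linear_combination (b * θ + d * θ ^ 2 * (w ^ 2 - w + 1)) * hr
  obtain ⟨A, hA⟩ : ∃ A : ℤ, 3 * a = A := by
    apply rat_int_of_integral (L := L)
    rw [← trc a b d]
    exact tr hi
  obtain ⟨E, hE⟩ : ∃ E : ℤ, 3 * (p * d) = E := by
    apply rat_int_of_integral (L := L)
    rw [← trc (p * d) a b]
    apply tr
    have : (((p * d : ℚ) : L) + (a : L) * θ + (b : L) * θ ^ 2) =
        ((a : L) + (b : L) * θ + (d : L) * θ ^ 2) * θ := by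
      push_cast
      linear_combination (-(d : L)) * h3
    rw [this]
    exact hi.mul iθ
  obtain ⟨B, hB⟩ : ∃ B : ℤ, 3 * (p * b) = B := by
    apply rat_int_of_integral (L := L)
    rw [← trc (p * b) (p * d) a]
    apply tr
    have : (((p * b : ℚ) : L) + ((p * d : ℚ) : L) * θ + (a : L) * θ ^ 2) =
        ((a : L) + (b : L) * θ + (d : L) * θ ^ 2) * θ ^ 2 := by
      push_cast
      linear_combination (-(b : L) - (d : L) * θ) * h3
    rw [this]
    exact hi.mul (iθ.pow 2)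
  obtain ⟨F, hF⟩ : ∃ F : ℤ, 3 * a ^ 2 - 3 * p * b * d = F := by
    apply rat_int_of_integral (L := L)
    set y := (a : L) + (b : L) * θ + (d : L) * θ ^ 2 with hy
    have : ((3 * a ^ 2 - 3 * p * b * d : ℚ) : L) = y * σ y + y * σ (σ y) + σ y * σ (σ y) := by
      rw [hy]
      simp only [map_add, map_mul, map_pow, map_ratCast, hσθ, hσk]
      push_cast
      have hw3 := D.W3
      generalize algebraMap k L ω = w at hr hw3
      have hw2 : w ^ 2 = -1 - w := by linear_combination hr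
      have e1 : (w * θ) ^ 2 = (-1 - w) * θ ^ 2 := by rw [mul_pow, hw2]
      have e2 : w * (w * θ) = (-1 - w) * θ := by rw [← mul_assoc, ← pow_two, hw2]
      have e3 : ((-1 - w) * θ) ^ 2 = w * θ ^ 2 := by
        linear_combination θ ^ 2 * hr
      rw [e1, e2, e3]
      linear_combination (3 * (b : L) * d) * h3 + (b ^ 2 * θ ^ 2 + d ^ 2 * θ ^ 4 - b * d * θ ^ 3 * 2) * hr
    rw [this]
    exact ((hi.mul (is hi)).add (hi.mul (is (is hi)))).add ((is hi).mul (is (is hi)))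
  obtain ⟨x, y, z, rfl, rfl, rfl⟩ := int_coords hp h9 hA (by rw [← hB]; ring) (by rw [← hE]; ring) hF
    (by unfold nf at hN'; exact hN')
  refine ⟨x, y, z, ?_⟩
  have : (x : ℚ) ^ 3 + (p : ℚ) * y ^ 3 + (p : ℚ) ^ 2 * z ^ 3 - 3 * (p : ℚ) * x * y * z = 3 := by
    unfold nf at hN'
    exact hN'
  exact_mod_cast this

/-- from a relation between the unit, the element `G`, and `3`, a solution -/
theorem solve [hpf : Fact p.Prime] (h9 : p % 9 = 4 ∨ p % 9 = 7) {g : ℤ} (hg : (p : ℤ) ∣ g ^ 3 - 3)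
    {ε G : L} (hτε : τ ε = ε) (hτG : τ G = G) (hε : IsIntegral ℤ ε) (hε' : IsIntegral ℤ ε⁻¹)
    (hεN : Nm σ ε = 1) (hεc : ∀ x : L, τ x = x → x ^ 3 ≠ ε) {s : ℤ}
    (hs : (p : ℤ) ∣ s ^ 2 + 9 * s + 27) (hGN : Nm σ G = (s : L) ^ 3)
    {m n : ℕ} (hmn : ¬ (3 ∣ m ∧ 3 ∣ n)) {a : ℤ} {κ : L} (hκ : κ ≠ 0) (hτκ : τ κ = κ)
    (h : ε ^ m * G ^ n = 3 ^ a * κ ^ 3) :
    ∃ x y z : ℤ, x ^ 3 + (p : ℤ) * y ^ 3 + (p : ℤ) ^ 2 * z ^ 3 - 3 * (p : ℤ) * x * y * z = 3 := by
  have hp := hpf.out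
  have h3 : p ≠ 3 := by
    rintro rfl
    norm_num at h9
  have h9' : ¬ 9 ∣ p - 1 := by
    have := hp.one_lt
    omega
  have h3L : (3 : L) ≠ 0 := by norm_num
  have h3a : (3 : L) ^ a ≠ 0 := zpow_ne_zero _ h3L
  have hε0 : ε ≠ 0 := by
    rintro rfl
    rw [Nm_zero] at hεN
    exact zero_ne_one hεN
  -- 3 divides n
  have hn3 : 3 ∣ n := by
    obtain ⟨α, β, γ, hκc⟩ := D.τ_fixed hτκ
    have e1 : (s : L) ^ (3 * n) = (3 ^ a : L) ^ 3 * ((nf p α β γ : ℚ) : L) ^ 3 := by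
      have := congrArg (Nm σ) h
      rw [map_mul, map_mul, map_pow, map_pow, map_pow, hεN, hGN, one_pow, one_mul, ← pow_mul] at this
      rw [this]
      have e3 : Nm σ ((3 : L) ^ a) = (3 ^ a : L) ^ 3 := by
        have := Nm_rat σ (3 ^ a)
        push_cast at this
        exact this
      rw [e3, hκc, D.Nm_coord]
    have e2 : ((s : ℚ) ^ n) ^ 3 = (3 ^ a * nf p α β γ) ^ 3 := by
      have : ((((s : ℚ) ^ n) ^ 3 : ℚ) : L) = (((3 ^ a * nf p α β γ) ^ 3 : ℚ) : L) := by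
        push_cast
        rw [mul_pow, ← e1, ← pow_mul, mul_comm 3 n]
      exact Rat.cast_injective this
    have e3 : (s : ℚ) ^ n = 3 ^ a * nf p α β γ := (Odd.strictMono_pow (by decide : Odd 3)).injective e2
    have hne : (α : ℚ_[p]) ≠ 0 ∨ (β : ℚ_[p]) ≠ 0 ∨ (γ : ℚ_[p]) ≠ 0 := by
      by_contra hcon
      push Not at hcon
      obtain ⟨c1, c2, c3⟩ := hcon
      apply hκ
      have d1 : α = 0 := by exact_mod_cast c1
      have d2 : β = 0 := by exact_mod_cast c2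
      have d3 : γ = 0 := by exact_mod_cast c3
      rw [hκc, d1, d2, d3]
      simp
    obtain ⟨j, t, ht0, ht⟩ := nf_padic h3 (α : ℚ_[p]) β γ hne
    obtain ⟨r, hr0, hr⟩ := three_cube h3 hg
    have e4 : (s : ℚ_[p]) ^ n = (r ^ a * t) ^ 3 * (p : ℚ_[p]) ^ j := by
      have := congrArg (fun q : ℚ => (q : ℚ_[p])) e3
      have hnf : ((nf p α β γ : ℚ) : ℚ_[p]) = nf p (α : ℚ_[p]) β γ := by
        simp only [nf]
        push_cast
        rfl
      push_cast at this
      rw [this, hnf, ht, hr, mul_pow, ← zpow_natCast (r ^ a) 3, ← zpow_natCast r 3, ← zpow_mul, ← zpow_mul, mul_comm a]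
      ring
    have hs0 : ¬ (p : ℤ) ∣ s := by
      intro hd
      have h27 : (p : ℤ) ∣ 27 := by
        have e : (27 : ℤ) = (s ^ 2 + 9 * s + 27) - s * (s + 9) := by ring
        rw [e]
        exact dvd_sub hs (Dvd.dvd.mul_right hd _)
      have h27' : p ∣ 3 ^ 3 := by exact_mod_cast h27
      exact h3 ((Nat.prime_dvd_prime_iff_eq hp Nat.prime_three).mp (hp.dvd_of_dvd_pow h27'))
    have hsne : (s : ℚ_[p]) ≠ 0 := by
      intro h0
      have : s = 0 := by exact_mod_cast h0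
      rw [this] at hs0
      exact hs0 (dvd_zero _)
    have hp0 : (p : ℚ_[p]) ≠ 0 := by exact_mod_cast hp.ne_zero
    have hR0 : r ^ a * t ≠ 0 := mul_ne_zero (zpow_ne_zero _ hr0) ht0
    set R := r ^ a * t
    have hval : 0 = 3 * R.valuation + (j : ℤ) := by
      have := congrArg Padic.valuation e4
      rw [Padic.valuation_mul (pow_ne_zero _ hR0) (pow_ne_zero _ hp0), Padic.valuation_pow,
        Padic.valuation_pow, Padic.valuation_pow, Padic.valuation_p, Padic.valuation_intCast,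
        padicValInt.eq_zero_of_not_dvd hs0] at this
      simpa using this
    have e5 : (s : ℚ_[p]) ^ n = (R * (p : ℚ_[p]) ^ (-R.valuation)) ^ 3 := by
      rw [e4, mul_pow R ((p : ℚ_[p]) ^ (-R.valuation)) 3,
        ← zpow_natCast ((p : ℚ_[p]) ^ (-R.valuation)) 3, ← zpow_mul,
        ← zpow_natCast (p : ℚ_[p]) j]
      congr 2
      push_cast
      linarith
    by_contra hn
    set X := R * (p : ℚ_[p]) ^ (-R.valuation)
    have hsn : ∀ q : ℕ, (s : ℚ_[p]) ^ q ≠ 0 := fun q => pow_ne_zero _ hsne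
    have hmod : n % 3 = 1 ∨ n % 3 = 2 := by omega
    rcases hmod with hq | hq
    · apply int_not_cube h9' h3 hs (X / (s : ℚ_[p]) ^ (n / 3))
      have e6 : n = n / 3 * 3 + 1 := by omega
      have e7 := hsn (n / 3)
      rw [div_pow, ← e5]
      conv_rhs => rw [e6]
      rw [pow_add, pow_mul, pow_one]
      have e8 : n / 3 * 3 / 3 = n / 3 := by omega
      have e9 : (n / 3 * 3 + 1) / 3 = n / 3 := by omega
      rw [e9]
      field_simp
    · apply int_not_cube h9' h3 hs ((s : ℚ_[p]) * (s : ℚ_[p]) ^ (n / 3) / X)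
      have e6 : n = n / 3 * 3 + 2 := by omega
      have e7 := hsn (n / 3)
      rw [div_pow, ← e5, mul_pow]
      conv_rhs => rw [e6]
      have e9 : (n / 3 * 3 + 2) / 3 = n / 3 := by omega
      rw [e9, pow_add, pow_mul]
      field_simp
  have hm3 : ¬ 3 ∣ m := fun hm => hmn ⟨hm, hn3⟩
  obtain ⟨q, rfl⟩ := hn3
  have hG0 : G ≠ 0 := by
    rintro rfl
    rw [Nm_zero] at hGN
    have hs0 : (s : L) = 0 := by
      have := pow_eq_zero_iff (n := 3) (by norm_num) |>.mp hGN.symm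
      exact this
    have hs0' : s = 0 := by exact_mod_cast hs0
    rw [hs0'] at hs
    have h27' : p ∣ 3 ^ 3 := by
      have : (p : ℤ) ∣ 27 := by simpa using hs
      exact_mod_cast this
    exact h3 ((Nat.prime_dvd_prime_iff_eq hp Nat.prime_three).mp (hp.dvd_of_dvd_pow h27'))
  obtain ⟨κ₂, hκ₂, hτκ₂, h2⟩ : ∃ κ₂ : L, κ₂ ≠ 0 ∧ τ κ₂ = κ₂ ∧ ε ^ m = 3 ^ a * κ₂ ^ 3 := by
    refine ⟨κ / G ^ q, div_ne_zero hκ (pow_ne_zero _ hG0), ?_, ?_⟩
    · rw [map_div₀, map_pow, hτκ, hτG]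
    · rw [div_pow, mul_div_assoc', ← h, ← pow_mul, mul_comm q 3]
      rw [mul_div_cancel_right₀ _ (pow_ne_zero _ hG0)]
  -- 3 does not divide a
  have ha3 : ¬ (3 : ℤ) ∣ a := by
    rintro ⟨b, rfl⟩
    have h4 : ε ^ m = (3 ^ b * κ₂) ^ 3 := by
      rw [h2, mul_pow, ← zpow_natCast ((3 : L) ^ b) 3, ← zpow_mul, mul_comm b]
      norm_num
    have hτ3 : τ ((3 : L) ^ b * κ₂) = (3 : L) ^ b * κ₂ := by
      rw [map_mul, map_zpow₀, map_ofNat, hτκ₂]
    set κ₃ := (3 : L) ^ b * κ₂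
    have hκ₃ : κ₃ ≠ 0 := mul_ne_zero (zpow_ne_zero _ h3L) hκ₂
    have hmod : m % 3 = 1 ∨ m % 3 = 2 := by omega
    rcases hmod with hq | hq
    · apply hεc (κ₃ / ε ^ (m / 3))
      · rw [map_div₀, map_pow, hτ3, hτε]
      · have e6 : m = m / 3 * 3 + 1 := by omega
        have e7 : ε ^ (m / 3) ≠ 0 := pow_ne_zero _ hε0
        rw [div_pow, ← h4]
        conv_lhs => rw [e6]
        have e9 : (m / 3 * 3 + 1) / 3 = m / 3 := by omega
        rw [e9, pow_add, pow_mul, pow_one]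
        field_simp
    · apply hεc (ε * ε ^ (m / 3) / κ₃)
      · rw [map_div₀, map_mul, map_pow, hτ3, hτε]
      · have e6 : m = m / 3 * 3 + 2 := by omega
        have e7 : ε ^ (m / 3) ≠ 0 := pow_ne_zero _ hε0
        rw [div_pow, ← h4, mul_pow]
        conv_lhs => rw [e6]
        have e9 : (m / 3 * 3 + 2) / 3 = m / 3 := by omega
        rw [e9, pow_add, pow_mul]
        field_simp
  -- the element of norm three
  obtain ⟨γ, j, hτγ, hγ⟩ : ∃ (γ : L) (j : ℤ), τ γ = γ ∧ γ ^ 3 = 3 * ε ^ j := by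
    have hmod : a % 3 = 1 ∨ a % 3 = 2 := by omega
    rcases hmod with hq | hq
    · refine ⟨((3 : L) ^ (a / 3) * κ₂)⁻¹, -(m : ℤ), ?_, ?_⟩
      · rw [map_inv₀, map_mul, map_zpow₀, map_ofNat, hτκ₂]
      · rw [zpow_neg, zpow_natCast, h2, inv_pow, mul_pow, ← zpow_natCast ((3 : L) ^ (a / 3)) 3,
          ← zpow_mul]
        have e6 : a = a / 3 * (3 : ℕ) + 1 := by push_cast; omega
        have e7 : (3 : L) ^ a = (3 : L) ^ (a / 3 * (3 : ℕ)) * 3 := by
          conv_lhs => rw [e6]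
          rw [zpow_add₀ h3L, zpow_one]
        have e8 : (3 : L) ^ (a / 3 * (3 : ℕ)) ≠ 0 := zpow_ne_zero _ h3L
        rw [e7]
        field_simp
    · refine ⟨(3 : L) ^ (a / 3 + 1) * κ₂, (m : ℤ), ?_, ?_⟩
      · rw [map_mul, map_zpow₀, map_ofNat, hτκ₂]
      · rw [zpow_natCast, h2, mul_pow, ← zpow_natCast ((3 : L) ^ (a / 3 + 1)) 3, ← zpow_mul]
        have e6 : (a / 3 + 1) * (3 : ℕ) = 1 + a := by push_cast; omega
        rw [e6, zpow_add₀ h3L, zpow_one]
        ring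
  have hNγ : Nm σ γ = 3 := by
    obtain ⟨α, β, δ, hγc⟩ := D.τ_fixed hτγ
    have e1 := congrArg (Nm σ) hγ
    rw [map_pow, map_mul, map_zpow₀, hεN, one_zpow, mul_one] at e1
    have e2 : Nm σ (3 : L) = 3 ^ 3 := by
      have := Nm_rat σ 3
      push_cast at this
      exact this
    rw [e2, hγc, D.Nm_coord] at e1
    have e3 : (nf p α β δ) ^ 3 = 3 ^ 3 := by exact_mod_cast e1
    have e4 : nf p α β δ = 3 := (Odd.strictMono_pow (by decide : Odd 3)).injective e3
    rw [hγc, D.Nm_coord, e4]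
    norm_num
  have hγi : IsIntegral ℤ γ := by
    apply IsIntegral.of_pow (n := 3) (by norm_num)
    rw [hγ]
    have i3 : IsIntegral ℤ (3 : L) := by
      have := isIntegral_algebraMap (R := ℤ) (A := L) (x := 3)
      simpa using this
    apply i3.mul
    obtain ⟨i, hi | hi⟩ := j.eq_nat_or_neg
    · rw [hi, zpow_natCast]
      exact hε.pow i
    · rw [hi, zpow_neg, zpow_natCast, ← inv_pow]
      exact hε'.pow i
  exact D.integral_coords hp h9 hτγ hγi hNγ

end Data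

end Pool.Agent.K7.H55.W
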