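import Mathlib
import Pool.Agent.K7.H55.W.Final

/-!
The products of cyclotomic numbers over the classes modulo cubes.
-/

set_option autoImplicit false
set_option linter.unusedSectionVars false

namespace Pool.Agent.K7.H55.W

open NumberField Polynomial Finset

theorem exists_gamma {p : ℕ} (hp : p.Prime) : ∃ γ : ℕ, γ.Coprime p ∧
    (∀ a : ℕ, a.Coprime p → ∃ i : ℕ, a ≡ γ ^ i [MOD p]) ∧
    (∀ i j : ℕ, i < p - 1 → j < p - 1 → γ ^ i ≡ γ ^ j [MOD p] → i = j) ∧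
    γ ^ (p - 1) ≡ 1 [MOD p] := by
  have := Fact.mk hp
  obtain ⟨g, hg⟩ := IsCyclic.exists_generator (α := (ZMod p)ˣ)
  have ho : orderOf g = p - 1 := by
    rw [orderOf_eq_card_of_forall_mem_zpowers hg, Nat.card_eq_fintype_card,
      ZMod.card_units_eq_totient, Nat.totient_prime hp]
  have hgv : (((g : ZMod p).val : ℕ) : ZMod p) = g := ZMod.natCast_zmod_val _
  refine ⟨(g : ZMod p).val, ZMod.val_coe_unit_coprime g, ?_, ?_, ?_⟩
  · intro a ha
    have h1 := hg (ZMod.unitOfCoprime a ha)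
    rw [← mem_powers_iff_mem_zpowers, Submonoid.mem_powers_iff] at h1
    obtain ⟨i, hi⟩ := h1
    refine ⟨i, ?_⟩
    rw [← ZMod.natCast_eq_natCast_iff]
    push_cast
    rw [hgv, ← Units.val_pow_eq_pow_val, hi, ZMod.coe_unitOfCoprime]
  · intro i j hi hj h
    rw [← ZMod.natCast_eq_natCast_iff] at h
    push_cast at h
    rw [hgv, ← Units.val_pow_eq_pow_val, ← Units.val_pow_eq_pow_val] at h
    have h2 := Units.ext h
    exact pow_injOn_Iio_orderOf (by rw [ho]; exact hi) (by rw [ho]; exact hj) h2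
  · rw [← ZMod.natCast_eq_natCast_iff]
    push_cast
    rw [hgv, ← Units.val_pow_eq_pow_val, ← ho, pow_orderOf_eq_one]
    rfl

theorem prod_three {R : Type*} [CommRing R] (f : ℕ → R) (n : ℕ) :
    (∏ j ∈ range n, f (3 * j)) * (∏ j ∈ range n, f (3 * j + 1)) *
      (∏ j ∈ range n, f (3 * j + 2)) = ∏ i ∈ range (3 * n), f i := by
  induction n with
  | zero => simp
  | succ n ih =>
    rw [prod_range_succ, prod_range_succ, prod_range_succ, show 3 * (n + 1) = 3 * n + 1 + 1 + 1 by ring,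
      prod_range_succ, prod_range_succ, prod_range_succ, ← ih]
    ring

theorem prod_shift {R : Type*} [CommRing R] (f : ℕ → R) (n : ℕ) (h : f (3 * n) = f 0) :
    ∏ j ∈ range n, f (3 * j + 3) = ∏ j ∈ range n, f (3 * j) := by
  have h1 := prod_range_succ (fun j => f (3 * j)) n
  have h2 := prod_range_succ' (fun j => f (3 * j)) n
  simp only [mul_zero] at h2
  cases n with
  | zero => simp
  | succ n =>
    rw [prod_range_succ, prod_range_succ' (fun j => f (3 * j))]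
    simp only [mul_zero]
    rw [show 3 * n + 3 = 3 * (n + 1) by ring, h]
    congr 1

theorem zpow_congr {R : Type*} [CommRing R] {p : ℕ} {ζ : R} (hζ : IsPrimitiveRoot ζ p) {a b : ℕ}
    (h : a ≡ b [MOD p]) : ζ ^ a = ζ ^ b := by
  rw [← Nat.mod_add_div a p, ← Nat.mod_add_div b p, pow_add, pow_add, pow_mul, pow_mul,
    hζ.pow_eq_one, one_pow, one_pow, h]

theorem prod_all {R : Type*} [CommRing R] [IsDomain R] {p : ℕ} (hp : p.Prime) {ζ : R}
    (hζ : IsPrimitiveRoot ζ p) {γ : ℕ} (hγ : γ.Coprime p)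
    (hinj : ∀ i j : ℕ, i < p - 1 → j < p - 1 → γ ^ i ≡ γ ^ j [MOD p] → i = j) :
    ∏ i ∈ range (p - 1), (1 - ζ ^ (γ ^ i)) = p := by
  classical
  have := Fact.mk hp
  have hinj' : Set.InjOn (fun i => ζ ^ (γ ^ i)) (range (p - 1)) := by
    intro i hi j hj h
    rw [mem_coe, mem_range] at hi hj
    apply hinj i j hi hj
    have h2 : ζ ^ (γ ^ i) = ζ ^ (γ ^ j) := h
    have h3 : ζ ^ ((γ ^ i) % p) = ζ ^ ((γ ^ j) % p) := by
      rw [zpow_congr hζ (Nat.mod_modEq (γ ^ i) p), zpow_congr hζ (Nat.mod_modEq (γ ^ j) p), h2]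
    exact hζ.pow_inj (Nat.mod_lt _ hp.pos) (Nat.mod_lt _ hp.pos) h3
  have himg : (range (p - 1)).image (fun i => ζ ^ (γ ^ i)) = primitiveRoots p R := by
    apply eq_of_subset_of_card_le
    · intro z hz
      rw [mem_image] at hz
      obtain ⟨i, -, rfl⟩ := hz
      rw [mem_primitiveRoots hp.pos]
      exact hζ.pow_of_coprime _ (Nat.Coprime.pow_left i hγ)
    · rw [card_image_of_injOn hinj', card_range, hζ.card_primitiveRoots, Nat.totient_prime hp]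
  have h1 : eval 1 (cyclotomic p R) = p := eval_one_cyclotomic_prime
  rw [cyclotomic_eq_prod_X_sub_primitiveRoots hζ, eval_prod, ← himg, prod_image hinj'] at h1
  simpa using h1

section M

variable {M : Type} [Field M] [NumberField M] {p : ℕ} [hp : Fact p.Prime]
  [IsCyclotomicExtension {p} ℚ M] {ζ : M} (hζ : IsPrimitiveRoot ζ p)

include hζ

theorem exists_lift {W : Type} [Field W] [CharZero W] {ξ : W} (hξ : IsPrimitiveRoot ξ p) :
    ∃ ψ : M →ₐ[ℚ] W, ψ ζ = ξ := by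
  have hroot : aeval ξ (minpoly ℚ (hζ.powerBasis ℚ).gen) = 0 := by
    rw [hζ.powerBasis_gen ℚ]
    have hm : minpoly ℚ ζ = cyclotomic p ℚ :=
      (cyclotomic_eq_minpoly_rat hζ hp.out.pos).symm
    rw [hm]
    have h1 : aeval ξ (cyclotomic p ℚ) = eval ξ (cyclotomic p W) := by
      rw [aeval_def, ← eval_map, map_cyclotomic]
    rw [h1]
    exact hξ.isRoot_cyclotomic hp.out.pos
  refine ⟨(hζ.powerBasis ℚ).lift ξ hroot, ?_⟩
  have := (hζ.powerBasis ℚ).lift_gen ξ hroot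
  rwa [hζ.powerBasis_gen ℚ] at this

theorem fixed_rat {γ : ℕ} (hγ : ∀ a : ℕ, a.Coprime p → ∃ i : ℕ, a ≡ γ ^ i [MOD p])
    {s : M →ₐ[ℚ] M} (hs : s ζ = ζ ^ γ) {e : M} (he : s e = e) : ∃ q : ℚ, e = q := by
  have hgal : IsGalois ℚ M := IsCyclotomicExtension.isGalois {p} ℚ M
  have h1 : e ∈ Set.range (algebraMap ℚ M) := by
    rw [IsGalois.mem_range_algebraMap_iff_fixed]
    intro f
    have h2 : IsPrimitiveRoot (f ζ) p := hζ.map_of_injective f.injective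
    obtain ⟨a, ha, hap, hfa⟩ := hζ.isPrimitiveRoot_iff.mp h2
    obtain ⟨i, hi⟩ := hγ a hap
    have h3 : ∀ j : ℕ, (s ^ j : M →ₐ[ℚ] M) ζ = ζ ^ (γ ^ j) := by
      intro j
      induction j with
      | zero => simp
      | succ j ih =>
        rw [pow_succ', AlgHom.mul_apply, ih, map_pow, hs, ← pow_mul]
        congr 1
        ring
    have h4 : (f : M →ₐ[ℚ] M) = s ^ i := by
      apply (hζ.powerBasis ℚ).algHom_ext
      rw [hζ.powerBasis_gen ℚ, h3]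
      change f ζ = _
      rw [← hfa]
      exact zpow_congr hζ hi
    have h5 : ∀ j : ℕ, (s ^ j : M →ₐ[ℚ] M) e = e := by
      intro j
      induction j with
      | zero => simp
      | succ j ih => rw [pow_succ', AlgHom.mul_apply, ih, he]
    have h6 := congrArg (fun g : M →ₐ[ℚ] M => g e) h4
    simp only [h5] at h6
    exact h6
  obtain ⟨q, hq⟩ := h1
  exact ⟨q, by rw [← hq]; simp⟩

omit [IsCyclotomicExtension {p} ℚ M] hζ in
theorem dvd_of_dvd {n : ℤ} (h : (p : 𝓞 M) ∣ (n : 𝓞 M)) : (p : ℤ) ∣ n := by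
  obtain ⟨c, hc⟩ := h
  have hp0 : (p : M) ≠ 0 := by exact_mod_cast hp.out.ne_zero
  have h1 : (n : M) = p * (c : M) := by
    have := congrArg (algebraMap (𝓞 M) M) hc
    rw [map_mul, map_intCast, map_natCast] at this
    exact this
  have h2 : ((n / p : ℚ) : M) = c := by
    push_cast
    rw [h1]
    field_simp
  obtain ⟨m, hm⟩ := rat_int_of_integral (L := M) (q := n / p) (by
    rw [h2]
    exact RingOfIntegers.isIntegral_coe c)
  refine ⟨m, ?_⟩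
  have hp0' : (p : ℚ) ≠ 0 := by exact_mod_cast hp.out.ne_zero
  have h3 : (n : ℚ) = p * m := by
    rw [← hm]
    field_simp
  exact_mod_cast h3

theorem fixed_int {γ : ℕ} (hγ : ∀ a : ℕ, a.Coprime p → ∃ i : ℕ, a ≡ γ ^ i [MOD p])
    {s : M →ₐ[ℚ] M} (hs : s ζ = ζ ^ γ) {e : 𝓞 M} (he : s (e : M) = e) : ∃ n : ℤ, e = n := by
  obtain ⟨q, hq⟩ := fixed_rat hζ hγ hs he
  obtain ⟨n, hn⟩ := rat_int_of_integral (L := M) (q := q) (by
    rw [← hq]
    exact RingOfIntegers.isIntegral_coe e)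
  refine ⟨n, ?_⟩
  apply FaithfulSMul.algebraMap_injective (𝓞 M) M
  rw [map_intCast]
  change (e : M) = n
  rw [hq, hn]
  simp

theorem exists_x (h1 : p % 3 = 1) : ∃ (x0 x1 x2 : 𝓞 M) (B C S : ℤ),
    Associated x0 x1 ∧ Associated x0 x2 ∧ x0 * x1 * x2 = p ∧ x0 + x1 + x2 = p * C ∧
    x0 * x1 + x1 * x2 + x2 * x0 = p * B ∧
    x1 ^ 2 * x2 + x2 ^ 2 * x0 + x0 ^ 2 * x1 = p * S := by
  obtain ⟨γ, hγ, hsurj, hinj, hγ1⟩ := exists_gamma hp.out
  have : NeZero p := ⟨hp.out.ne_zero⟩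
  have hp1 := hp.out.one_lt
  obtain ⟨n, hn⟩ : ∃ n, p - 1 = 3 * n := ⟨(p - 1) / 3, by omega⟩
  obtain ⟨s, hs⟩ := exists_lift hζ (W := M) (hζ.pow_of_coprime γ hγ)
  set z : 𝓞 M := hζ.toInteger with hz
  have hzc : algebraMap (𝓞 M) M z = ζ := rfl
  have hzp : IsPrimitiveRoot z p := hζ.toInteger_isPrimitiveRoot
  set f : ℕ → 𝓞 M := fun i => 1 - z ^ (γ ^ i) with hf
  have hfp : f (3 * n) = f 0 := by
    simp only [hf]
    rw [← hn, pow_zero, zpow_congr hzp hγ1]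
  -- the action of `s`
  have hsf : ∀ i, s (algebraMap (𝓞 M) M (f i)) = algebraMap (𝓞 M) M (f (i + 1)) := by
    intro i
    simp only [hf, map_sub, map_pow, map_one, hzc, hs]
    rw [← pow_mul]
    congr 2
    ring
  set x : ℕ → 𝓞 M := fun r => ∏ j ∈ range n, f (3 * j + r) with hx
  have hsx : ∀ r, s (algebraMap (𝓞 M) M (x r)) = algebraMap (𝓞 M) M (x (r + 1)) := by
    intro r
    simp only [hx, map_prod, hsf]
    rfl
  have hx3 : x 3 = x 0 := by
    simp only [hx, add_zero]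
    exact prod_shift f n hfp
  have hassoc : ∀ r, Associated ((z - 1) ^ n) (x r) := by
    intro r
    have h2 := Associated.prod (range n) (fun _ => z - 1) (fun j => f (3 * j + r)) (fun j _ => by
      have h3 := hzp.associated_sub_one_pow_sub_one_of_coprime
        (Nat.Coprime.pow_left (3 * j + r) hγ)
      refine h3.trans ?_
      simp only [hf]
      rw [← neg_sub]
      exact (Associated.refl _).neg_left)
    simpa using h2
  have a1 : Associated (x 0) (x 1) := (hassoc 0).symm.trans (hassoc 1)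
  have a2 : Associated (x 0) (x 2) := (hassoc 0).symm.trans (hassoc 2)
  have hprod : x 0 * x 1 * x 2 = p := by
    simp only [hx, add_zero]
    rw [prod_three f n, ← hn]
    exact prod_all hp.out hzp hγ hinj
  have hs0 := hsx 0
  have hs1 := hsx 1
  have hs2 := hsx 2
  norm_num at hs0 hs1 hs2
  rw [hx3] at hs2
  obtain ⟨c, hc⟩ := fixed_int hζ hsurj hs (e := x 0 + x 1 + x 2) (by
    simp only [map_add, hs0, hs1, hs2]
    ring)
  obtain ⟨b, hb⟩ := fixed_int hζ hsurj hs (e := x 0 * x 1 + x 1 * x 2 + x 2 * x 0) (by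
    simp only [map_add, map_mul, hs0, hs1, hs2]
    ring)
  obtain ⟨t, ht⟩ := fixed_int hζ hsurj hs (e := x 1 ^ 2 * x 2 + x 2 ^ 2 * x 0 + x 0 ^ 2 * x 1) (by
    simp only [map_add, map_mul, map_pow, hs0, hs1, hs2]
    ring)
  obtain ⟨u1, hu1⟩ := a1
  obtain ⟨u2, hu2⟩ := a2
  have hx03 : x 0 ^ 3 = p * ((u1⁻¹ * u2⁻¹ : (𝓞 M)ˣ) : 𝓞 M) := by
    rw [← hprod, ← hu1, ← hu2]
    have e1 : (u1 : 𝓞 M) * ((u1⁻¹ : (𝓞 M)ˣ) : 𝓞 M) = 1 := u1.mul_inv
    have e2 : (u2 : 𝓞 M) * ((u2⁻¹ : (𝓞 M)ˣ) : 𝓞 M) = 1 := u2.mul_inv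
    push_cast
    linear_combination (-(x 0) ^ 3 * ((u2 : 𝓞 M) * ((u2⁻¹ : (𝓞 M)ˣ) : 𝓞 M))) * e1 - (x 0) ^ 3 * e2
  have hC : (p : ℤ) ∣ c := by
    apply (Nat.prime_iff_prime_int.mp hp.out).dvd_of_dvd_pow (n := 3)
    apply dvd_of_dvd (M := M)
    push_cast
    rw [← hc, ← hu1, ← hu2]
    refine ⟨((u1⁻¹ * u2⁻¹ : (𝓞 M)ˣ) : 𝓞 M) * (1 + u1 + u2) ^ 3, ?_⟩
    rw [← mul_assoc, ← hx03]
    ring
  have hB : (p : ℤ) ∣ b := by
    apply (Nat.prime_iff_prime_int.mp hp.out).dvd_of_dvd_pow (n := 3)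
    apply dvd_of_dvd (M := M)
    push_cast
    rw [← hb, ← hu1, ← hu2]
    refine ⟨((u1⁻¹ * u2⁻¹ : (𝓞 M)ˣ) : 𝓞 M) * (x 0) ^ 3 * (u1 + u1 * u2 + u2) ^ 3, ?_⟩
    linear_combination (x 0 ^ 3 * ((u1 : 𝓞 M) + u1 * u2 + u2) ^ 3) * hx03
  have hS : (p : ℤ) ∣ t := by
    apply dvd_of_dvd (M := M)
    rw [← ht, ← hu1, ← hu2]
    refine ⟨((u1⁻¹ * u2⁻¹ : (𝓞 M)ˣ) : 𝓞 M) * ((u1 : 𝓞 M) ^ 2 * u2 + (u2 : 𝓞 M) ^ 2 + u1), ?_⟩
    linear_combination ((u1 : 𝓞 M) ^ 2 * u2 + (u2 : 𝓞 M) ^ 2 + u1) * hx03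
  obtain ⟨C, rfl⟩ := hC
  obtain ⟨B, rfl⟩ := hB
  obtain ⟨S, rfl⟩ := hS
  refine ⟨x 0, x 1, x 2, B, C, S, (hassoc 0).symm.trans (hassoc 1), (hassoc 0).symm.trans (hassoc 2),
    hprod, ?_, ?_, ?_⟩
  · rw [hc]; push_cast; rfl
  · rw [hb]; push_cast; rfl
  · rw [ht]; push_cast; rfl

end M

end Pool.Agent.K7.H55.W
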