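import Mathlib
import Pool.Agent.K7.H55.W.GElem

/-!
The element `G`.
-/

set_option autoImplicit false
set_option linter.unusedSectionVars false

namespace Pool.Agent.K7.H55.W

open NumberField Polynomial

theorem exists_M {p : ℕ} (hp : p.Prime) : ∃ (M : Type) (_ : Field M) (_ : NumberField M),
    IsCyclotomicExtension {p} ℚ M := by
  have : NeZero p := ⟨hp.ne_zero⟩
  refine ⟨CyclotomicField p ℚ, inferInstance, inferInstance, ?_⟩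
  have h := CyclotomicField.isCyclotomicExtension p ℚ
  have e : (DivisionRing.toRatAlgebra : Algebra ℚ (CyclotomicField p ℚ)) =
      CyclotomicField.algebra p ℚ := Subsingleton.elim _ _
  rw [e]
  exact h

theorem symm_identity {R : Type*} [CommRing R] (x0 x1 x2 : R) :
    (x1 ^ 2 * x2 + x2 ^ 2 * x0 + x0 ^ 2 * x1) ^ 2 -
      ((x0 + x1 + x2) * (x0 * x1 + x1 * x2 + x2 * x0) - 3 * (x0 * x1 * x2)) *
        (x1 ^ 2 * x2 + x2 ^ 2 * x0 + x0 ^ 2 * x1) +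
      ((x0 + x1 + x2) ^ 3 * (x0 * x1 * x2) + (x0 * x1 + x1 * x2 + x2 * x0) ^ 3 -
        6 * (x0 + x1 + x2) * (x0 * x1 + x1 * x2 + x2 * x0) * (x0 * x1 * x2) +
        9 * (x0 * x1 * x2) ^ 2) = 0 := by
  ring

theorem int_identity {R : Type*} [CommRing R] [IsDomain R] [CharZero R] {p : ℕ} (hp : p ≠ 0)
    {x0 x1 x2 : R} {B C S : ℤ} (h0 : x0 * x1 * x2 = p) (h1 : x0 + x1 + x2 = p * C)
    (h2 : x0 * x1 + x1 * x2 + x2 * x0 = p * B)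
    (h3 : x1 ^ 2 * x2 + x2 ^ 2 * x0 + x0 ^ 2 * x1 = p * S) :
    S ^ 2 - (p * B * C - 3) * S + p ^ 2 * C ^ 3 + p * B ^ 3 - 6 * p * B * C + 9 = 0 := by
  have h := symm_identity x0 x1 x2
  rw [h0, h1, h2, h3] at h
  have hp0 : (p : R) ≠ 0 := by exact_mod_cast hp
  have h4 : (p : R) ^ 2 * ((S : R) ^ 2 - (p * B * C - 3) * S + p ^ 2 * C ^ 3 + p * B ^ 3 -
      6 * p * B * C + 9) = 0 := by
    linear_combination h
  have h5 := (mul_eq_zero.mp h4).resolve_left (pow_ne_zero _ hp0)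
  have h6 : ((S ^ 2 - (p * B * C - 3) * S + p ^ 2 * C ^ 3 + p * B ^ 3 - 6 * p * B * C + 9 : ℤ) : R)
      = 0 := by
    push_cast
    exact h5
  exact_mod_cast h6

theorem unit_of_cube {M W : Type} [Field M] [NumberField M] [Field W] [NumberField W]
    (ψ : M →+* W) {a : W} (v : (𝓞 M)ˣ) (h : a ^ 3 = ψ ((v : 𝓞 M) : M)) :
    ∃ w : (𝓞 W)ˣ, ((w : 𝓞 W) : W) = a := by
  have hv : ((v : 𝓞 M) : M) * (((v⁻¹ : (𝓞 M)ˣ) : 𝓞 M) : M) = 1 := by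
    have h1 : (v : 𝓞 M) * ((v⁻¹ : (𝓞 M)ˣ) : 𝓞 M) = 1 := v.mul_inv
    have h2 := congrArg (algebraMap (𝓞 M) M) h1
    rw [map_mul, map_one] at h2
    exact h2
  have hv' : ψ ((v : 𝓞 M) : M) * ψ (((v⁻¹ : (𝓞 M)ˣ) : 𝓞 M) : M) = 1 := by
    rw [← map_mul, hv, map_one]
  have ha0 : a ≠ 0 := by
    rintro rfl
    have h0 : (0 : W) ^ 3 = 0 := by norm_num
    rw [h0] at h
    rw [← h, zero_mul] at hv'
    exact zero_ne_one hv'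
  have i1 : IsIntegral ℤ a := by
    apply IsIntegral.of_pow (n := 3) (by norm_num)
    rw [h]
    exact map_isIntegral_int ψ (RingOfIntegers.isIntegral_coe _)
  have i2 : IsIntegral ℤ a⁻¹ := by
    apply IsIntegral.of_pow (n := 3) (by norm_num)
    have h5 : (a⁻¹) ^ 3 = ψ (((v⁻¹ : (𝓞 M)ˣ) : 𝓞 M) : M) := by
      rw [inv_pow, h]
      exact (eq_inv_of_mul_eq_one_right hv').symm
    rw [h5]
    exact map_isIntegral_int ψ (RingOfIntegers.isIntegral_coe _)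
  obtain ⟨w, hw⟩ : ∃ w : 𝓞 W, (w : W) = a := ⟨⟨a, i1⟩, rfl⟩
  obtain ⟨w', hw'⟩ : ∃ w : 𝓞 W, (w : W) = a⁻¹ := ⟨⟨a⁻¹, i2⟩, rfl⟩
  have hww : w * w' = 1 := by
    apply FaithfulSMul.algebraMap_injective (𝓞 W) W
    rw [map_mul, map_one]
    change (w : W) * (w' : W) = 1
    rw [hw, hw', mul_inv_cancel₀ ha0]
  exact ⟨Units.mkOfMulEqOne w w' hww, by rw [Units.val_mkOfMulEqOne, hw]⟩

theorem exists_G {W : Type} [Field W] [NumberField W] {p : ℕ} [hp : Fact p.Prime] (h1 : p % 3 = 1)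
    {ξ : W} (hξ : IsPrimitiveRoot ξ p) : ∃ B C S : ℤ,
      S ^ 2 - (p * B * C - 3) * S + p ^ 2 * C ^ 3 + p * B ^ 3 - 6 * p * B * C + 9 = 0 ∧
      ∀ t : W, t ^ 3 = p → UC ((S : W) + 6 + 3 * B * t + 3 * C * t ^ 2) := by
  obtain ⟨M, _, _, _⟩ := exists_M hp.out
  have : NeZero p := ⟨hp.out.ne_zero⟩
  have hζ := IsCyclotomicExtension.zeta_spec p ℚ M
  set ζ := IsCyclotomicExtension.zeta p ℚ M
  obtain ⟨x0, x1, x2, B, C, S, ⟨u1, hu1⟩, ⟨u2, hu2⟩, h0, hC, hB, hS⟩ := exists_x hζ h1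
  obtain ⟨ψ, hψ⟩ := exists_lift hζ hξ
  refine ⟨B, C, S, int_identity (R := 𝓞 M) hp.out.ne_zero h0 hC hB hS, fun t ht => ?_⟩
  have hp0 : (p : W) ≠ 0 := by exact_mod_cast hp.out.ne_zero
  have ht0 : t ≠ 0 := by
    rintro rfl
    apply hp0
    rw [← ht]
    norm_num
  -- the cubes
  have e1 : (u1 : 𝓞 M) * ((u1⁻¹ : (𝓞 M)ˣ) : 𝓞 M) = 1 := u1.mul_inv
  have e2 : (u2 : 𝓞 M) * ((u2⁻¹ : (𝓞 M)ˣ) : 𝓞 M) = 1 := u2.mul_inv
  have c0 : x0 ^ 3 = p * ((u1⁻¹ * u2⁻¹ : (𝓞 M)ˣ) : 𝓞 M) := by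
    rw [← h0, ← hu1, ← hu2]
    push_cast
    linear_combination (-x0 ^ 3 * ((u2 : 𝓞 M) * ((u2⁻¹ : (𝓞 M)ˣ) : 𝓞 M))) * e1 - x0 ^ 3 * e2
  have c1 : x1 ^ 3 = p * ((u1 ^ 3 * (u1⁻¹ * u2⁻¹) : (𝓞 M)ˣ) : 𝓞 M) := by
    rw [Units.val_mul, Units.val_pow_eq_pow_val, ← hu1]
    linear_combination ((u1 : 𝓞 M) ^ 3) * c0
  have c2 : x2 ^ 3 = p * ((u2 ^ 3 * (u1⁻¹ * u2⁻¹) : (𝓞 M)ˣ) : 𝓞 M) := by
    rw [Units.val_mul, Units.val_pow_eq_pow_val, ← hu2]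
    linear_combination ((u2 : 𝓞 M) ^ 3) * c0
  have hunit : ∀ (x : 𝓞 M) (v : (𝓞 M)ˣ), x ^ 3 = p * (v : 𝓞 M) →
      ∃ w : (𝓞 W)ˣ, ((w : 𝓞 W) : W) = ψ (x : M) / t := by
    intro x v hx
    apply unit_of_cube (ψ : M →+* W) v
    rw [div_pow, ht]
    have h5 := congrArg (fun y : 𝓞 M => ψ (algebraMap (𝓞 M) M y)) hx
    simp only [map_mul, map_pow, map_natCast] at h5
    change (ψ (x : M)) ^ 3 = p * ψ ((v : 𝓞 M) : M) at h5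
    rw [h5, mul_div_cancel_left₀ _ hp0]
    rfl
  obtain ⟨w0, hw0⟩ := hunit x0 _ c0
  obtain ⟨w1, hw1⟩ := hunit x1 _ c1
  obtain ⟨w2, hw2⟩ := hunit x2 _ c2
  have k0 := congrArg (fun y : 𝓞 M => ψ (algebraMap (𝓞 M) M y)) h0
  have k1 := congrArg (fun y : 𝓞 M => ψ (algebraMap (𝓞 M) M y)) hC
  have k2 := congrArg (fun y : 𝓞 M => ψ (algebraMap (𝓞 M) M y)) hB
  have k3 := congrArg (fun y : 𝓞 M => ψ (algebraMap (𝓞 M) M y)) hS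
  simp only [map_mul, map_pow, map_add, map_natCast, map_intCast] at k0 k1 k2 k3
  have hy0 : ψ (algebraMap (𝓞 M) M x0) = t * ((w0 : 𝓞 W) : W) := by
    rw [hw0]
    field_simp
  have hy1 : ψ (algebraMap (𝓞 M) M x1) = t * ((w1 : 𝓞 W) : W) := by
    rw [hw1]
    field_simp
  have hy2 : ψ (algebraMap (𝓞 M) M x2) = t * ((w2 : 𝓞 W) : W) := by
    rw [hw2]
    field_simp
  rw [hy0, hy1, hy2] at k0 k1 k2 k3
  refine ⟨w0 ^ 2 * w1, 1 + ((w2 : 𝓞 W) : W) + ((w1 : 𝓞 W) : W) * ((w2 : 𝓞 W) : W), ?_⟩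
  have hcoe : (((w0 ^ 2 * w1 : (𝓞 W)ˣ) : 𝓞 W) : W) =
      ((w0 : 𝓞 W) : W) ^ 2 * ((w1 : 𝓞 W) : W) := by
    rw [Units.val_mul, Units.val_pow_eq_pow_val]
    change algebraMap (𝓞 W) W (_ * _) = _
    rw [map_mul, map_pow]
  rw [hcoe]
  generalize ((w0 : 𝓞 W) : W) = a0 at k0 k1 k2 k3 ⊢
  generalize ((w1 : 𝓞 W) : W) = a1 at k0 k1 k2 k3 ⊢
  generalize ((w2 : 𝓞 W) : W) = a2 at k0 k1 k2 k3 ⊢
  have m0 : a0 * a1 * a2 = 1 := by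
    have : t ^ 3 * (a0 * a1 * a2) = t ^ 3 * 1 := by linear_combination k0 - ht
    exact mul_left_cancel₀ (pow_ne_zero 3 ht0) this
  have m1 : a0 + a1 + a2 = C * t ^ 2 := by
    have : t * (a0 + a1 + a2) = t * (C * t ^ 2) := by linear_combination k1 - C * ht
    exact mul_left_cancel₀ ht0 this
  have m2 : a0 * a1 + a1 * a2 + a2 * a0 = B * t := by
    have : t ^ 2 * (a0 * a1 + a1 * a2 + a2 * a0) = t ^ 2 * (B * t) := by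
      linear_combination k2 - B * ht
    exact mul_left_cancel₀ (pow_ne_zero 2 ht0) this
  have m3 : a1 ^ 2 * a2 + a2 ^ 2 * a0 + a0 ^ 2 * a1 = S := by
    have : t ^ 3 * (a1 ^ 2 * a2 + a2 ^ 2 * a0 + a0 ^ 2 * a1) = t ^ 3 * S := by
      linear_combination k3 - S * ht
    exact mul_left_cancel₀ (pow_ne_zero 3 ht0) this
  linear_combination -m3 - 3 * m1 - 3 * m2 - (a0 * a2 ^ 2 + a1 ^ 2 * a2 * (a0 * a1 * a2 + 1) +
    3 * a0 + 3 * a0 * a1 + 3 * a0 * a2 + 3 * a1 * (a0 * a1 * a2 + 1) +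
    3 * a2 * (a0 * a1 * a2 + 1) + 3 * a1 * a2 * (a0 * a1 * a2 + 1) +
    6 * (a0 * a1 * a2 + 1)) * m0

end Pool.Agent.K7.H55.W
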