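import Mathlib
import Pool.Agent.K7.H55.W.Cubic
import Pool.Agent.K7.H55.W.Tower

/-!
The extension `W = L(ζ_p)`.
-/

set_option autoImplicit false
set_option linter.unusedSectionVars false

namespace Pool.Agent.K7.H55.W

open NumberField Polynomial

theorem exists_W_aux {L : Type} [Field L] [NumberField L] {p : ℕ} (hp : p.Prime) :
    ∃ (W : Type) (_ : Field W) (_ : NumberField W) (_ : Algebra L W),
      IsCyclotomicExtension {p} L W := by
  have : NeZero p := ⟨hp.ne_zero⟩
  have : NeZero (p : L) := ⟨by exact_mod_cast hp.ne_zero⟩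
  have hNF : NumberField (CyclotomicField p L) := IsCyclotomicExtension.numberField {p} L _
  exact ⟨CyclotomicField p L, inferInstance, hNF, inferInstance, inferInstance⟩

theorem exists_W {k L : Type} [Field k] [NumberField k] [IsCyclotomicExtension {3} ℚ k]
    [Field L] [NumberField L] [Algebra k L] {p : ℕ} (hp : p.Prime) {ω : k} (hω : IsPrimitiveRoot ω 3)
    {θ : L} (hθ : θ ^ 3 = p) (hadj : Algebra.adjoin k {θ} = ⊤) :
    ∃ (W : Type) (_ : Field W) (_ : NumberField W) (_ : Algebra L W) (_ : Algebra k W)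
      (_ : IsScalarTower k L W), Good k W (3 * p) ∧ Good ℚ W (3 * p) ∧
      ∃ ζ : W, IsPrimitiveRoot ζ p := by
  have : NeZero p := ⟨hp.ne_zero⟩
  have : NeZero (p : L) := ⟨by exact_mod_cast hp.ne_zero⟩
  obtain ⟨W, _, hNF, _, _⟩ := exists_W_aux (L := L) hp
  let _ : Algebra k W := ((algebraMap L W).comp (algebraMap k L)).toAlgebra
  have : IsScalarTower k L W := IsScalarTower.of_algebraMap_eq (fun _ => rfl)
  have hζ := IsCyclotomicExtension.zeta_spec p L W
  set ζ := IsCyclotomicExtension.zeta p L W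
  -- the three steps
  have g1 : Good ℚ k (3 * p) := by
    obtain ⟨α, hα⟩ : ∃ α : 𝓞 k, (α : k) = ω := ⟨⟨ω, hω.isIntegral (by norm_num)⟩, rfl⟩
    have h3 : α ^ 3 = 1 := by
      apply FaithfulSMul.algebraMap_injective (𝓞 k) k
      rw [map_pow, map_one]
      change (α : k) ^ 3 = 1
      rw [hα, hω.pow_eq_one]
    refine good_of_simple (K := ℚ) (L := k) α ?_ (X ^ 3 - 1) ?_ (α * (p : 𝓞 k)) ?_
    · rw [hα]
      exact IsCyclotomicExtension.adjoin_primitive_root_eq_top hω
    · rw [map_sub, map_pow, aeval_X, map_one, h3, sub_self]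
    · simp only [derivative_sub, derivative_X_pow, derivative_one, sub_zero, map_mul, map_pow,
        aeval_X, map_natCast, Nat.cast_mul, Nat.cast_ofNat, Nat.add_one_sub_one]
      simp only [map_ofNat]
      linear_combination (-3 * (p : 𝓞 k)) * h3
  have g2 : Good k L (3 * p) := by
    have hi : IsIntegral ℤ θ := by
      apply IsIntegral.of_pow (n := 3) (by norm_num)
      rw [hθ]
      exact isIntegral_natCast p
    obtain ⟨α, hα⟩ : ∃ α : 𝓞 L, (α : L) = θ := ⟨⟨θ, hi⟩, rfl⟩
    have h3 : α ^ 3 = (p : 𝓞 L) := by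
      apply FaithfulSMul.algebraMap_injective (𝓞 L) L
      rw [map_pow, map_natCast]
      change (α : L) ^ 3 = p
      rw [hα, hθ]
    refine good_of_simple (K := k) (L := L) α (by rw [hα]; exact hadj) (X ^ 3 - C (p : 𝓞 k)) ?_ α ?_
    · rw [map_sub, map_pow, aeval_X, aeval_C, map_natCast, h3, sub_self]
    · simp only [derivative_sub, derivative_X_pow, derivative_C, sub_zero, map_mul, map_pow,
        aeval_X, Nat.cast_mul, Nat.cast_ofNat, Nat.add_one_sub_one]
      simp only [map_ofNat]
      linear_combination (-3 : 𝓞 L) * h3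
  have g3 : Good L W (3 * p) := by
    obtain ⟨α, hα⟩ : ∃ α : 𝓞 W, (α : W) = ζ := ⟨⟨ζ, hζ.isIntegral hp.pos⟩, rfl⟩
    have h3 : α ^ p = 1 := by
      apply FaithfulSMul.algebraMap_injective (𝓞 W) W
      rw [map_pow, map_one]
      change (α : W) ^ p = 1
      rw [hα, hζ.pow_eq_one]
    refine good_of_simple (K := L) (L := W) α ?_ (X ^ p - 1) ?_ (α * 3) ?_
    · rw [hα]
      exact IsCyclotomicExtension.adjoin_primitive_root_eq_top hζ
    · rw [map_sub, map_pow, aeval_X, map_one, h3, sub_self]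
    · have h1 : α ^ p = α ^ (p - 1) * α := by
        rw [← pow_succ, Nat.sub_add_cancel hp.pos]
      simp only [derivative_sub, derivative_X_pow, derivative_one, sub_zero, map_mul, map_pow,
        aeval_X, map_natCast, Nat.cast_mul, Nat.cast_ofNat]
      linear_combination (-3 * (p : 𝓞 W)) * h3 + (3 * (p : 𝓞 W)) * h1
  exact ⟨W, inferInstance, hNF, inferInstance, inferInstance, inferInstance, g2.trans g3,
    (g1.trans (g2.trans g3)), ζ, hζ⟩

end Pool.Agent.K7.H55.W
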