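import Mathlib
import Pool.Agent.K7.H55.W.Final

/-!
A unit of the pure cubic field which is not a cube.
-/

set_option autoImplicit false
set_option linter.unusedSectionVars false

namespace Pool.Agent.K7.H55.W

open NumberField Polynomial

theorem prime_ne_cube_rat {p : ℕ} (hp : p.Prime) (b : ℚ) : b ^ 3 ≠ (p : ℚ) := by
  intro h
  have hb : b ≠ 0 := by
    rintro rfl
    have : (p : ℚ) ≠ 0 := by exact_mod_cast hp.ne_zero
    apply this
    rw [← h]
    norm_num
  have := Fact.mk hp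
  have h4 := congrArg (padicValRat p) h
  rw [padicValRat.pow, padicValRat.of_nat, padicValNat_self] at h4
  push_cast at h4
  omega

/-- a number field of degree three has a unit that is not a cube up to roots of unity -/
theorem exists_unit_ne_cube (K : Type) [Field K] [NumberField K] (h3 : Module.finrank ℚ K = 3) :
    ∃ u : (𝓞 K)ˣ, ∀ v : (𝓞 K)ˣ, v ^ 3 ≠ u := by
  have hr : 0 < Units.rank K := by
    have h1 := InfinitePlace.card_add_two_mul_card_eq_rank K
    have h2 := InfinitePlace.card_eq_nrRealPlaces_add_nrComplexPlaces K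
    rw [h3] at h1
    unfold Units.rank
    omega
  let i : Fin (Units.rank K) := ⟨0, hr⟩
  refine ⟨Units.fundSystem K i, fun v hv => ?_⟩
  obtain ⟨⟨ζ, e⟩, he, -⟩ := Units.exist_unique_eq_mul_prod K v
  simp only at he
  have h1 : Units.fundSystem K i = ((ζ ^ 3 : Units.torsion K) : (𝓞 K)ˣ) *
      ∏ j, (Units.fundSystem K j) ^ (e j * 3) := by
    rw [← hv, he, mul_pow, ← Finset.prod_pow]
    push_cast
    congr 1
    apply Finset.prod_congr rfl
    intro j _
    rw [← zpow_natCast, ← zpow_mul]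
    rfl
  have h2 : Units.fundSystem K i = ((1 : Units.torsion K) : (𝓞 K)ˣ) *
      ∏ j, (Units.fundSystem K j) ^ ((Pi.single i 1 : Fin (Units.rank K) → ℤ) j) := by
    rw [Finset.prod_eq_single i]
    · simp
    · intro j _ hj
      rw [Pi.single_eq_of_ne hj, zpow_zero]
    · simp
  have h3 := (Units.exist_unique_eq_mul_prod K (Units.fundSystem K i)).unique
    (y₁ := (ζ ^ 3, fun j => e j * 3)) (y₂ := (1, Pi.single i 1)) h1 h2
  have h4 := congrFun (congrArg Prod.snd h3) i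
  simp only [Pi.single_eq_same] at h4
  omega

theorem exists_K {p : ℕ} (hp : p.Prime) : ∃ (K : Type) (_ : Field K) (_ : NumberField K) (t : K),
    t ^ 3 = p ∧ Module.finrank ℚ K = 3 ∧
    (∀ x : K, ∃ a b d : ℚ, x = (a : K) + (b : K) * t + (d : K) * t ^ 2) ∧
    ∀ (L : Type) [Field L] [CharZero L] (θ : L), θ ^ 3 = p → ∃ φ : K →+* L, φ t = θ := by
  set f : ℚ[X] := X ^ 3 - C (p : ℚ) with hf
  have hirr : Irreducible f := X_pow_sub_C_irreducible_of_prime Nat.prime_three (prime_ne_cube_rat hp)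
  have : Fact (Irreducible f) := ⟨hirr⟩
  have hf0 : f ≠ 0 := hirr.ne_zero
  have hdeg : f.natDegree = 3 := natDegree_X_pow_sub_C
  have hmon : f.Monic := monic_X_pow_sub_C _ (by norm_num)
  have hch : CharZero (AdjoinRoot f) := charZero_of_injective_algebraMap (algebraMap ℚ (AdjoinRoot f)).injective
  have hrk : Module.finrank ℚ (AdjoinRoot f) = 3 := by
    rw [(AdjoinRoot.powerBasis hf0).finrank, AdjoinRoot.powerBasis_dim, hdeg]
  have hfin : Module.Finite ℚ (AdjoinRoot f) := hmon.finite_adjoinRoot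
  have hNF : NumberField (AdjoinRoot f) := by
    refine @NumberField.mk _ _ _ ?_
    have e : (DivisionRing.toRatAlgebra : Algebra ℚ (AdjoinRoot f)) =
        AdjoinRoot.instAlgebra f := Subsingleton.elim _ _
    rw [e]
    exact hfin
  have hroot : (AdjoinRoot.root f) ^ 3 = (p : AdjoinRoot f) := by
    have := AdjoinRoot.eval₂_root f
    simp only [hf, eval₂_sub, eval₂_pow, eval₂_X, map_natCast, eval₂_natCast] at this
    exact sub_eq_zero.mp this
  refine ⟨AdjoinRoot f, inferInstance, hNF, AdjoinRoot.root f, hroot, ?_, ?_, ?_⟩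
  · have e : (DivisionRing.toRatAlgebra : Algebra ℚ (AdjoinRoot f)) =
        AdjoinRoot.instAlgebra f := Subsingleton.elim _ _
    rw [e]
    exact hrk
  · intro x
    obtain ⟨g, rfl⟩ := AdjoinRoot.mk_surjective x
    have h1 := modByMonic_add_div g f
    have h2 : AdjoinRoot.mk f g = AdjoinRoot.mk f (g %ₘ f) := by
      conv_lhs => rw [← h1]
      rw [map_add, map_mul, AdjoinRoot.mk_self, zero_mul, add_zero]
    have hlt : (g %ₘ f).natDegree < 3 := by
      have := natDegree_modByMonic_lt g hmon (by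
        intro h
        rw [h] at hdeg
        simp at hdeg)
      rwa [hdeg] at this
    refine ⟨(g %ₘ f).coeff 0, (g %ₘ f).coeff 1, (g %ₘ f).coeff 2, ?_⟩
    rw [h2]
    conv_lhs => rw [as_sum_range' _ 3 hlt]
    simp only [Finset.sum_range_succ, Finset.sum_range_zero, zero_add, ← C_mul_X_pow_eq_monomial,
      map_add, map_mul, map_pow, AdjoinRoot.mk_X, AdjoinRoot.mk_C, pow_zero, pow_one, mul_one]
    have hc : ∀ q : ℚ, (AdjoinRoot.of f) q = (q : AdjoinRoot f) := fun q => map_ratCast (AdjoinRoot.of f) q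
    simp only [hc]
  · intro L _ _ θ hθ
    have hσ : eval₂ (algebraMap ℚ L) θ f = 0 := by
      simp only [hf, eval₂_sub, eval₂_pow, eval₂_X, map_natCast, eval₂_natCast]
      rw [hθ, sub_self]
    exact ⟨AdjoinRoot.lift (algebraMap ℚ L) θ hσ, AdjoinRoot.lift_root hσ⟩

namespace Data

variable {k L : Type} [Field k] [NumberField k] [IsCyclotomicExtension {3} ℚ k]
  [Field L] [NumberField L] [Algebra k L] {p : ℕ} {ω : k} {θ : L} {c : k →ₐ[ℚ] k} {σ τ : L →+* L}
  (D : Data k L p ω θ c σ τ)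

include D

theorem exists_unit (hp : p.Prime) : ∃ ε : L, τ ε = ε ∧ IsIntegral ℤ ε ∧ IsIntegral ℤ ε⁻¹ ∧
    Nm σ ε = 1 ∧ (∀ x : L, τ x = x → x ^ 3 ≠ ε) ∧ (∀ q : ℚ, ε ≠ (q : L)) := by
  obtain ⟨K, _, _, t, ht, h3, hco, hφ⟩ := exists_K hp
  obtain ⟨φ, hφt⟩ := hφ L θ D.θ3
  obtain ⟨u, hu⟩ := exists_unit_ne_cube K h3
  have hτφ : ∀ x : K, τ (φ x) = φ x := by
    intro x
    obtain ⟨a, b, d, rfl⟩ := hco x
    simp only [map_add, map_mul, map_pow, map_ratCast, hφt, D.τθ]
  have hlift : ∀ x : L, τ x = x → ∃ y : K, φ y = x := by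
    intro x hx
    obtain ⟨a, b, d, rfl⟩ := D.τ_fixed hx
    exact ⟨a + b * t + d * t ^ 2, by simp only [map_add, map_mul, map_pow, map_ratCast, hφt]⟩
  set e : L := φ (u : 𝓞 K) with he
  have hue : e * φ ((u⁻¹ : (𝓞 K)ˣ) : 𝓞 K) = 1 := by
    rw [he, ← map_mul]
    have h1 : (u : 𝓞 K) * ((u⁻¹ : (𝓞 K)ˣ) : 𝓞 K) = 1 := u.mul_inv
    have h2 := congrArg (algebraMap (𝓞 K) K) h1
    rw [map_mul, map_one] at h2
    change φ (algebraMap (𝓞 K) K (u : 𝓞 K) * algebraMap (𝓞 K) K ((u⁻¹ : (𝓞 K)ˣ) : 𝓞 K)) = 1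
    rw [h2, map_one]
  have he0 : e ≠ 0 := left_ne_zero_of_mul_eq_one hue
  have hei : e⁻¹ = φ ((u⁻¹ : (𝓞 K)ˣ) : 𝓞 K) := (eq_inv_of_mul_eq_one_right hue).symm
  have i1 : IsIntegral ℤ e := map_isIntegral_int φ (RingOfIntegers.isIntegral_coe _)
  have i2 : IsIntegral ℤ e⁻¹ := by
    rw [hei]
    exact map_isIntegral_int φ (RingOfIntegers.isIntegral_coe _)
  have is : ∀ {y : L}, IsIntegral ℤ y → IsIntegral ℤ (σ y) := fun hy => map_isIntegral_int σ hy
  have iN : ∀ {y : L}, IsIntegral ℤ y → IsIntegral ℤ (Nm σ y) := by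
    intro y hy
    rw [Nm_apply]
    exact (hy.mul (is hy)).mul (is (is hy))
  -- the norm is a sign
  obtain ⟨q, hq⟩ : ∃ q : ℚ, Nm σ e = (q : L) := by
    obtain ⟨a, b, d, habd⟩ := D.τ_fixed (hτφ (u : 𝓞 K))
    exact ⟨_, by rw [he, habd, D.Nm_coord]⟩
  have hq1 : q = 1 ∨ q = -1 := by
    obtain ⟨n, hn⟩ := rat_int_of_integral (L := L) (q := q) (by rw [← hq]; exact iN i1)
    obtain ⟨n', hn'⟩ := rat_int_of_integral (L := L) (q := q⁻¹) (by
      rw [Rat.cast_inv, ← hq, ← map_inv₀]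
      exact iN i2)
    have hq0 : q ≠ 0 := by
      rintro rfl
      rw [Rat.cast_zero, map_eq_zero] at hq
      exact he0 hq
    have hnn : n * n' = 1 := by
      have : (n : ℚ) * n' = 1 := by rw [← hn, ← hn', mul_inv_cancel₀ hq0]
      exact_mod_cast this
    rcases Int.eq_one_or_neg_one_of_mul_eq_one hnn with h | h
    · left
      rw [hn, h]
      simp
    · right
      rw [hn, h]
      simp
  have hcube : ∀ x : L, τ x = x → x ^ 3 ≠ e := by
    intro x hx hxe
    obtain ⟨y, rfl⟩ := hlift x hx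
    have hy : y ^ 3 = ((u : 𝓞 K) : K) := by
      apply φ.injective
      rw [map_pow, hxe]
    have hy0 : y ≠ 0 := by
      rintro rfl
      rw [map_zero] at hxe
      apply he0
      rw [← hxe]
      ring
    have iy : IsIntegral ℤ y := by
      apply IsIntegral.of_pow (n := 3) (by norm_num)
      rw [hy]
      exact RingOfIntegers.isIntegral_coe _
    have iy' : IsIntegral ℤ y⁻¹ := by
      apply IsIntegral.of_pow (n := 3) (by norm_num)
      have h5 : (y⁻¹) ^ 3 = (((u⁻¹ : (𝓞 K)ˣ) : 𝓞 K) : K) := by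
        apply φ.injective
        rw [map_pow, map_inv₀, ← hei, inv_pow, hxe]
      rw [h5]
      exact RingOfIntegers.isIntegral_coe _
    obtain ⟨v, hv⟩ : ∃ v : 𝓞 K, (v : K) = y := ⟨⟨y, iy⟩, rfl⟩
    obtain ⟨v', hv'⟩ : ∃ v : 𝓞 K, (v : K) = y⁻¹ := ⟨⟨y⁻¹, iy'⟩, rfl⟩
    have hvv : v * v' = 1 := by
      apply FaithfulSMul.algebraMap_injective (𝓞 K) K
      rw [map_mul, map_one]
      change (v : K) * (v' : K) = 1
      rw [hv, hv', mul_inv_cancel₀ hy0]
    apply hu (Units.mkOfMulEqOne v v' hvv)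
    apply Units.ext
    rw [Units.val_pow_eq_pow_val, Units.val_mkOfMulEqOne]
    apply FaithfulSMul.algebraMap_injective (𝓞 K) K
    rw [map_pow]
    change (v : K) ^ 3 = ((u : 𝓞 K) : K)
    rw [hv, hy]
  have hirr : ∀ ε : L, Nm σ ε = 1 → (∀ x : L, τ x = x → x ^ 3 ≠ ε) → ∀ q : ℚ, ε ≠ (q : L) := by
    rintro ε h1 h2 q rfl
    rw [Nm_rat] at h1
    have h5 : q ^ 3 = 1 ^ 3 := by
      have : q ^ 3 = 1 := by exact_mod_cast h1
      rw [this]
      norm_num
    have h6 : q = 1 := (Odd.strictMono_pow (by decide : Odd 3)).injective h5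
    apply h2 1 (map_one τ)
    rw [h6]
    norm_num
  rcases hq1 with rfl | rfl
  · have hN : Nm σ e = 1 := by rw [hq]; simp
    exact ⟨e, hτφ _, i1, i2, hN, hcube, hirr e hN hcube⟩
  · have hN : Nm σ (-e) = 1 := by
      have : Nm σ (-e) = - Nm σ e := by
        rw [Nm_apply, Nm_apply]
        simp only [map_neg]
        ring
      rw [this, hq]
      simp
    have hcube' : ∀ x : L, τ x = x → x ^ 3 ≠ -e := by
      intro x hx h
      apply hcube (-x) (by rw [map_neg, hx])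
      rw [neg_pow, h]
      norm_num
    refine ⟨-e, by rw [map_neg, he, hτφ], i1.neg, ?_, hN, hcube', hirr _ hN hcube'⟩
    rw [inv_neg]
    exact i2.neg

end Data

end Pool.Agent.K7.H55.W
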