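import Mathlib
import Pool.Agent.K7.H55.W.GUC
import Pool.Agent.K7.H55.W.UnitK
import Pool.Agent.K7.H55.W.TowerW
import Pool.Agent.K7.H55.W.Concrete

/-!
The main theorem.
-/

set_option autoImplicit false
set_option linter.unusedSectionVars false

namespace Pool.Agent.K7.H55.W

open NumberField

theorem UC_of_integral {L W : Type} [Field L] [Field W] [NumberField W] (φ : L →+* W) {e : L}
    (h0 : e ≠ 0) (h1 : IsIntegral ℤ e) (h2 : IsIntegral ℤ e⁻¹) : UC (φ e) := by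
  obtain ⟨w, hw⟩ : ∃ w : 𝓞 W, (w : W) = φ e := ⟨⟨φ e, map_isIntegral_int φ h1⟩, rfl⟩
  obtain ⟨w', hw'⟩ : ∃ w : 𝓞 W, (w : W) = φ e⁻¹ := ⟨⟨φ e⁻¹, map_isIntegral_int φ h2⟩, rfl⟩
  have hww : w * w' = 1 := by
    apply FaithfulSMul.algebraMap_injective (𝓞 W) W
    rw [map_mul, map_one]
    change (w : W) * (w' : W) = 1
    rw [hw, hw', ← map_mul, mul_inv_cancel₀ h0, map_one]
  exact ⟨Units.mkOfMulEqOne w w' hww, 1, by rw [Units.val_mkOfMulEqOne, hw]; simp⟩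

theorem exists_solution {p : ℕ} (hp : p.Prime) (h9 : p % 9 = 4 ∨ p % 9 = 7) {g : ℤ}
    (hg : (p : ℤ) ∣ g ^ 3 - 3) :
    ∃ x y z : ℤ, x ^ 3 + (p : ℤ) * y ^ 3 + (p : ℤ) ^ 2 * z ^ 3 - 3 * (p : ℤ) * x * y * z = 3 := by
  have hpf : Fact p.Prime := ⟨hp⟩
  have hp1 : p % 3 = 1 := by omega
  have h3 : p ≠ 3 := by
    rintro rfl
    norm_num at h9
  have h9' : ¬ 9 ∣ p - 1 := by
    have := hp.one_lt
    omega
  obtain ⟨k, _, _, _⟩ := exists_k
  have hω := IsCyclotomicExtension.zeta_spec 3 ℚ k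
  set ω := IsCyclotomicExtension.zeta 3 ℚ k
  obtain ⟨c, hc⟩ := exists_conj hω
  obtain ⟨L, _, _, _, θ, σ, τ, D, hadj⟩ := exists_L hω hc hp
  obtain ⟨W, _, _, _, _, _, gk, gQ, ξ, hξ⟩ := exists_W hp hω D.θ3 hadj
  obtain ⟨ε, hτε, hε, hε', hεN, hεc, hεq⟩ := D.exists_unit hp
  obtain ⟨B, C, S, hBCS, hG⟩ := exists_G hp1 hξ
  have hε0 : ε ≠ 0 := fun h0 => hεq 0 (by rw [h0]; simp)
  set G : L := (((S : ℚ) + 6 : ℚ) : L) + ((3 * B : ℚ) : L) * θ + ((3 * C : ℚ) : L) * θ ^ 2 with hGdef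
  have hdvd : (p : ℤ) ∣ (S - 3) ^ 2 + 9 * (S - 3) + 27 :=
    ⟨B * C * S - p * C ^ 3 - B ^ 3 + 6 * B * C, by linear_combination hBCS⟩
  have hS3 : S - 3 ≠ 0 := by
    intro h0
    rw [h0] at hdvd
    have h27' : p ∣ 3 ^ 3 := by
      have : (p : ℤ) ∣ 27 := by simpa using hdvd
      exact_mod_cast this
    exact h3 ((Nat.prime_dvd_prime_iff_eq hp Nat.prime_three).mp (hp.dvd_of_dvd_pow h27'))
  have hτG : τ G = G := by
    rw [hGdef]
    simp only [map_add, map_mul, map_pow, map_ratCast, D.τθ]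
  have hNG : Nm σ G = ((S - 3 : ℤ) : L) ^ 3 := by
    rw [hGdef, D.Nm_coord]
    have : Data.nf p ((S : ℚ) + 6) (3 * B) (3 * C) = ((S - 3 : ℤ) : ℚ) ^ 3 := by
      have h := congrArg (fun n : ℤ => (n : ℚ)) hBCS
      push_cast at h
      unfold Data.nf
      push_cast
      linear_combination 27 * h
    rw [this]
    push_cast
    ring
  have hGq : ∀ q : ℚ, G ≠ (q : L) := by
    intro q hq
    have h5 := D.irr (a := (S : ℚ) + 6 - q) (b := 3 * B) (d := 3 * C) (by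
      rw [hGdef] at hq
      push_cast at hq ⊢
      linear_combination hq)
    have hB : (B : ℚ) = 0 := by linarith [h5.2.1]
    have hC : (C : ℚ) = 0 := by linarith [h5.2.2]
    have hB' : B = 0 := by exact_mod_cast hB
    have hC' : C = 0 := by exact_mod_cast hC
    rw [hB', hC'] at hBCS
    nlinarith [sq_nonneg (2 * S + 3)]
  have ucε : UC (algebraMap L W ε) := UC_of_integral _ hε0 hε hε'
  have ucε' : UC (algebraMap L W (σ ε)) := by
    have := UC_of_integral ((algebraMap L W).comp σ) hε0 hε hε'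
    exact this
  have ucG : ∀ t : L, t ^ 3 = p → UC (algebraMap L W
      ((((S : ℚ) + 6 : ℚ) : L) + ((3 * B : ℚ) : L) * t + ((3 * C : ℚ) : L) * t ^ 2)) := by
    intro t ht
    have h5 := hG (algebraMap L W t) (by rw [← map_pow, ht, map_natCast])
    have e : algebraMap L W
      ((((S : ℚ) + 6 : ℚ) : L) + ((3 * B : ℚ) : L) * t + ((3 * C : ℚ) : L) * t ^ 2) =
      (S : W) + 6 + 3 * B * algebraMap L W t + 3 * C * (algebraMap L W t) ^ 2 := by
      simp only [map_add, map_mul, map_pow, map_ratCast]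
      push_cast
      ring
    rw [e]
    exact h5
  have uG : UC (algebraMap L W G) := ucG θ D.θ3
  have uG' : UC (algebraMap L W (σ G)) := by
    have h5 := ucG (σ θ) (by rw [← map_pow, D.θ3, map_natCast])
    have e : σ G = (((S : ℚ) + 6 : ℚ) : L) + ((3 * B : ℚ) : L) * σ θ + ((3 * C : ℚ) : L) * σ θ ^ 2 := by
      rw [hGdef]
      simp only [map_add, map_mul, map_pow, map_ratCast]
    rw [e]
    exact h5
  obtain ⟨m, n, hmn, a, κ, hκ, hτκ, h⟩ := D.descent h9' h3 hp1 W gk gQ hτε hτG hεq hGq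
    (m₁ := 1) (m₂ := ((S - 3 : ℤ) : ℚ)) one_ne_zero (by exact_mod_cast hS3)
    (by rw [← Nm_apply, hεN]; norm_num) (by rw [← Nm_apply, hNG]; push_cast; ring) ucε ucε' uG uG'
  exact D.solve h9 hg hτε hτG hε hε' hεN hεc hdvd hNG hmn hκ hτκ h

end Pool.Agent.K7.H55.W
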